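import Pool.Agent.H742F.E0
import Pool.Agent.H742F.E1
import Pool.Agent.H742F.R1
import Pool.Agent.Helper460_CSP.Bls

/-!
# The group generated by the elementary matrices of level `t` contains the congruence subgroup of
level `t ^ 2`
-/

set_option autoImplicit false
set_option linter.unusedSectionVars false

namespace Pool.Agent.V5helper38.RH

open Matrix (SpecialLinearGroup)
open Pool.Agent.H742F
open Pool.Agent.Helper460_CSP (tv Cgr mt)

variable {κ X : Type} [Group X] (P : StRel κ ℤ X)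

namespace St

lemma x_zero {i j : κ} (h : i ≠ j) : P.x i j 0 = 1 := by
  have := P.add i j h 0 0
  rw [add_zero] at this
  exact left_eq_mul.mp this

lemma x_inv {i j : κ} (h : i ≠ j) (a : ℤ) : (P.x i j a)⁻¹ = P.x i j (-a) := by
  rw [inv_eq_iff_mul_eq_one, ← P.add i j h, add_neg_cancel, x_zero P h]

lemma conjL {i j k : κ} (hij : i ≠ j) (hjk : j ≠ k) (hik : i ≠ k) (a b : ℤ) :
    P.x i j a * P.x j k b * (P.x i j a)⁻¹ = P.x i k (a * b) * P.x j k b := by
  rw [P.mul i j k hij hjk hik a b, mul_inv_cancel_right]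

lemma conjR {i j k : κ} (hij : i ≠ j) (hjk : j ≠ k) (hik : i ≠ k) (a b : ℤ) :
    P.x j k b * P.x i j a * (P.x j k b)⁻¹ = P.x i k (-(a * b)) * P.x i j a := by
  have h1 := P.mul i j k hij hjk hik a b
  have h2 : (P.x i k (a * b))⁻¹ = P.x i k (-(a * b)) := x_inv P hik _
  rw [← h2, ← mul_right_inj (P.x i k (a * b)), mul_inv_cancel_left]
  have h3 : P.x i k (a * b) * (P.x j k b * P.x i j a * (P.x j k b)⁻¹) =
      (P.x i k (a * b) * P.x j k b * P.x i j a) * (P.x j k b)⁻¹ := by group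
  rw [h3, ← h1, mul_inv_cancel_right]

lemma conjC {i j k l : κ} (hij : i ≠ j) (hkl : k ≠ l) (hjk : j ≠ k) (hil : i ≠ l) (a b : ℤ) :
    P.x i j a * P.x k l b * (P.x i j a)⁻¹ = P.x k l b := by
  rw [(P.comm i j k l hij hkl hjk hil a b).eq, mul_inv_cancel_right]

/-- The conjugated elements. -/
def Zg (i j : κ) (a b : ℤ) : X := P.x j i b * P.x i j a * (P.x j i b)⁻¹

variable (s : ℤ)

/-- The subgroup generated by the conjugated elements of level `s`. -/
def ZZ : Subgroup X :=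
  Subgroup.closure {g | ∃ i j, i ≠ j ∧ ∃ a b, s ∣ a ∧ g = Zg P i j a b}

variable {s}

lemma Zg_mem {i j : κ} (h : i ≠ j) {a : ℤ} (b : ℤ) (ha : s ∣ a) : Zg P i j a b ∈ ZZ P s :=
  Subgroup.subset_closure ⟨i, j, h, a, b, ha, rfl⟩

lemma x_mem {i j : κ} (h : i ≠ j) {a : ℤ} (ha : s ∣ a) : P.x i j a ∈ ZZ P s := by
  have h1 := Zg_mem P h 0 ha
  have h2 : Zg P i j a 0 = P.x i j a := by
    unfold Zg
    rw [x_zero P h.symm, one_mul, inv_one, mul_one]
  rwa [h2] at h1

lemma split (g u v : X) : g * (u * v) * g⁻¹ = (g * u * g⁻¹) * (g * v * g⁻¹) := by group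

lemma conj_Zg (g : X) (i j : κ) (a b : ℤ) : g * Zg P i j a b * g⁻¹ =
    (g * P.x j i b * g⁻¹) * (g * P.x i j a * g⁻¹) * (g * P.x j i b * g⁻¹)⁻¹ := by
  unfold Zg; group

lemma A1 {i j : κ} (h : i ≠ j) {a : ℤ} (b c : ℤ) (ha : s ∣ a) :
    P.x j i c * Zg P i j a b * (P.x j i c)⁻¹ ∈ ZZ P s := by
  have h1 : P.x j i c * Zg P i j a b * (P.x j i c)⁻¹ = Zg P i j a (c + b) := by
    unfold Zg
    rw [P.add j i h.symm c b]
    group
  rw [h1]
  exact Zg_mem P h _ ha

lemma A2 {i j k : κ} (hij : i ≠ j) (hjk : j ≠ k) (hik : i ≠ k) {a : ℤ} (b c : ℤ) (ha : s ∣ a) :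
    P.x j k c * Zg P i j a b * (P.x j k c)⁻¹ ∈ ZZ P s := by
  rw [conj_Zg, conjC P hjk hij.symm hjk.symm hij.symm c b, conjR P hij hjk hik a c, split,
    conjL P hij.symm hik hjk b]
  exact mul_mem (mul_mem (x_mem P hjk ((ha.mul_right c).neg_right.mul_left b))
    (x_mem P hik (ha.mul_right c).neg_right)) (Zg_mem P hij b ha)

lemma A3 {i j k : κ} (hij : i ≠ j) (hjk : j ≠ k) (hik : i ≠ k) {a : ℤ} (b c : ℤ) (ha : s ∣ a) :
    P.x i k c * Zg P i j a b * (P.x i k c)⁻¹ ∈ ZZ P s := by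
  have h1 := A2 P hij hjk hik b (-(b * c)) ha
  rw [conj_Zg, conjR P hij.symm hik hjk b c, conjC P hik hij hik.symm hij c a]
  have h2 : P.x j k (-(b * c)) * P.x j i b * P.x i j a * (P.x j k (-(b * c)) * P.x j i b)⁻¹ =
      P.x j k (-(b * c)) * Zg P i j a b * (P.x j k (-(b * c)))⁻¹ := by
    unfold Zg; group
  rw [h2]
  exact h1

lemma A4 {i j k : κ} (hij : i ≠ j) (hjk : j ≠ k) (hik : i ≠ k) {a : ℤ} (b c : ℤ) (ha : s ∣ a) :
    P.x k i c * Zg P i j a b * (P.x k i c)⁻¹ ∈ ZZ P s := by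
  rw [conj_Zg, conjC P hik.symm hij.symm hij hik.symm c b, conjL P hik.symm hij hjk.symm c a,
    split, conjR P hjk.symm hij.symm hik.symm (c * a) b]
  exact mul_mem (mul_mem (x_mem P hik.symm ((ha.mul_left c).mul_right b).neg_right)
    (x_mem P hjk.symm (ha.mul_left c))) (Zg_mem P hij b ha)

lemma A5 {i j k : κ} (hij : i ≠ j) (hjk : j ≠ k) (hik : i ≠ k) {a : ℤ} (b c : ℤ) (ha : s ∣ a) :
    P.x k j c * Zg P i j a b * (P.x k j c)⁻¹ ∈ ZZ P s := by
  have h1 := A4 P hij hjk hik b (c * b) ha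
  rw [conj_Zg, conjL P hjk.symm hij.symm hik.symm c b, conjC P hjk.symm hij hij.symm hjk.symm c a]
  have h2 : P.x k i (c * b) * P.x j i b * P.x i j a * (P.x k i (c * b) * P.x j i b)⁻¹ =
      P.x k i (c * b) * Zg P i j a b * (P.x k i (c * b))⁻¹ := by
    unfold Zg; group
  rw [h2]
  exact h1

lemma A6 {i j k : κ} (hij : i ≠ j) (hjk : j ≠ k) (hik : i ≠ k) {a : ℤ} (b c : ℤ) (ha : s ∣ a) :
    P.x i j c * Zg P i j a b * (P.x i j c)⁻¹ ∈ ZZ P s := by
  -- the commutator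
  have hc : P.x i j a = P.x i k a * P.x k j 1 * (P.x i k a)⁻¹ * (P.x k j 1)⁻¹ := by
    rw [conjL P hik hjk.symm hij a 1, mul_one, mul_inv_cancel_right]
  obtain ⟨B, hB⟩ : ∃ B, B = P.x i j c * P.x j i b := ⟨_, rfl⟩
  obtain ⟨U, hU⟩ : ∃ U, U = B * P.x i k a * B⁻¹ := ⟨_, rfl⟩
  obtain ⟨W, hW⟩ : ∃ W, W = B * P.x k j 1 * B⁻¹ := ⟨_, rfl⟩
  have h1 : P.x i j c * Zg P i j a b * (P.x i j c)⁻¹ = U * (W * U⁻¹ * W⁻¹) := by
    have : P.x i j c * Zg P i j a b * (P.x i j c)⁻¹ = B * P.x i j a * B⁻¹ := by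
      rw [hB]; unfold Zg; group
    rw [this, hc, hU, hW]; group
  have hU2 : U = P.x i k (c * (b * a)) * P.x j k (b * a) * P.x i k a := by
    have : U = P.x i j c * (P.x j i b * P.x i k a * (P.x j i b)⁻¹) * (P.x i j c)⁻¹ := by
      rw [hU, hB]; group
    rw [this, conjL P hij.symm hik hjk b a, split, conjL P hij hjk hik c (b * a),
      conjC P hij hik hij.symm hik c a]
  have hW2 : W = P.x k j (b * c + 1) * P.x k i (-b) := by
    have : W = P.x i j c * (P.x j i b * P.x k j 1 * (P.x j i b)⁻¹) * (P.x i j c)⁻¹ := by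
      rw [hW, hB]; group
    rw [this, conjR P hjk.symm hij.symm hik.symm 1 b, one_mul, split,
      conjR P hik.symm hij hjk.symm (-b) c, conjC P hij hjk.symm hjk hij c 1, mul_assoc,
      (P.comm k i k j hik.symm hjk.symm hik hjk.symm (-b) 1).eq, ← mul_assoc,
      ← P.add k j hjk.symm]
    congr 3
    ring
  -- conjugation of the plain elements
  have g1 : ∀ a', s ∣ a' → W * P.x i k a' * W⁻¹ ∈ ZZ P s := by
    intro a' ha'
    have e : W * P.x i k a' * W⁻¹ = P.x k j (b * c + 1) * Zg P i k a' (-b) *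
        (P.x k j (b * c + 1))⁻¹ := by
      rw [hW2]; unfold Zg; group
    rw [e]
    exact A2 P hik hjk.symm hij (-b) (b * c + 1) ha'
  have g2 : ∀ a', s ∣ a' → W * P.x j k a' * W⁻¹ ∈ ZZ P s := by
    intro a' ha'
    have e : W * P.x j k a' * W⁻¹ = P.x k j (b * c + 1) *
        (P.x k i (-b) * P.x j k a' * (P.x k i (-b))⁻¹) * (P.x k j (b * c + 1))⁻¹ := by
      rw [hW2]; group
    rw [e, conjR P hjk hik.symm hij.symm a' (-b), split, conjL P hjk.symm hij.symm hik.symm]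
    refine mul_mem (mul_mem (x_mem P hik.symm ?_) (x_mem P hij.symm ?_)) (Zg_mem P hjk _ ha')
    · exact ((ha'.mul_right _).neg_right).mul_left _
    · exact (ha'.mul_right _).neg_right
  have hUZ : U ∈ ZZ P s := by
    rw [hU2]
    exact mul_mem (mul_mem (x_mem P hik ((ha.mul_left b).mul_left c)) (x_mem P hjk (ha.mul_left b)))
      (x_mem P hik ha)
  have hWU : W * U * W⁻¹ ∈ ZZ P s := by
    rw [hU2, split, split]
    exact mul_mem (mul_mem (g1 _ ((ha.mul_left b).mul_left c)) (g2 _ (ha.mul_left b))) (g1 _ ha)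
  rw [h1]
  have h3 : W * U⁻¹ * W⁻¹ = (W * U * W⁻¹)⁻¹ := by group
  rw [h3]
  exact mul_mem hUZ (inv_mem hWU)

/-- conjugation by the generators preserves the subgroup -/
lemma A [DecidableEq κ] (h3 : ∀ i j : κ, ∃ k, k ≠ i ∧ k ≠ j) {p q : κ} (hpq : p ≠ q) (c : ℤ)
    {g : X} (hg : g ∈ ZZ P s) : P.x p q c * g * (P.x p q c)⁻¹ ∈ ZZ P s := by
  induction hg using Subgroup.closure_induction with
  | one => rw [mul_one, mul_inv_cancel]; exact one_mem _
  | mul u v _ _ hu hv => rw [split]; exact mul_mem hu hv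
  | inv u _ hu =>
    have : P.x p q c * u⁻¹ * (P.x p q c)⁻¹ = (P.x p q c * u * (P.x p q c)⁻¹)⁻¹ := by group
    rw [this]; exact inv_mem hu
  | mem g hg =>
    obtain ⟨i, j, hij, a, b, ha, rfl⟩ := hg
    by_cases hpi : p = i
    · subst hpi
      by_cases hqj : q = j
      · subst hqj
        obtain ⟨k, hk1, hk2⟩ := h3 p q
        exact A6 P hij hk2.symm hk1.symm b c ha
      · exact A3 P hij (Ne.symm hqj) hpq b c ha
    · by_cases hpj : p = j
      · subst hpj
        by_cases hqi : q = i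
        · subst hqi
          exact A1 P hij b c ha
        · exact A2 P hij hpq (Ne.symm hqi) b c ha
      · by_cases hqi : q = i
        · subst hqi
          exact A4 P hij (Ne.symm hpj) (Ne.symm hpi) b c ha
        · by_cases hqj : q = j
          · subst hqj
            exact A5 P hij (Ne.symm hpj) (Ne.symm hpi) b c ha
          · rw [conj_Zg, conjC P hpq hij.symm hqj hpi, conjC P hpq hij hqi hpj]
            exact Zg_mem P hij b ha

/-- the conjugated elements of level `t ^ 2` are generated by the elements of level `t` -/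
lemma ZZ_le (h3 : ∀ i j : κ, ∃ k, k ≠ i ∧ k ≠ j) {t : ℤ} {H : Subgroup X}
    (hH : ∀ i j, i ≠ j → ∀ a, t ∣ a → P.x i j a ∈ H) : ZZ P (t * t) ≤ H := by
  unfold ZZ
  rw [Subgroup.closure_le]
  rintro g ⟨i, j, hij, a, b, ⟨a', rfl⟩, rfl⟩
  obtain ⟨k, hk1, hk2⟩ := h3 i j
  have hc : P.x i j (t * t * a') = P.x i k (t * a') * P.x k j t * (P.x i k (t * a'))⁻¹ *
      (P.x k j t)⁻¹ := by
    rw [conjL P hk1.symm hk2 hij (t * a') t, mul_inv_cancel_right]
    congr 1
    ring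
  have h1 : Zg P i j (t * t * a') b =
      (P.x j i b * P.x i k (t * a') * (P.x j i b)⁻¹) * (P.x j i b * P.x k j t * (P.x j i b)⁻¹) *
      (P.x j i b * P.x i k (t * a') * (P.x j i b)⁻¹)⁻¹ *
      (P.x j i b * P.x k j t * (P.x j i b)⁻¹)⁻¹ := by
    unfold Zg
    rw [hc]; group
  show Zg P i j (t * t * a') b ∈ H
  rw [h1, conjL P hij.symm hk1.symm hk2.symm, conjR P hk2 hij.symm hk1]
  have k1 : P.x j k (b * (t * a')) * P.x i k (t * a') ∈ H :=
    mul_mem (hH _ _ hk2.symm _ ⟨b * a', by ring⟩) (hH _ _ hk1.symm _ ⟨a', rfl⟩)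
  have k2 : P.x k i (-(t * b)) * P.x k j t ∈ H :=
    mul_mem (hH _ _ hk1 _ ⟨-b, by ring⟩) (hH _ _ hk2 _ ⟨1, by ring⟩)
  exact mul_mem (mul_mem (mul_mem k1 k2) (inv_mem k1)) (inv_mem k2)

end St

section SL

variable {κ : Type} [Fintype κ] [DecidableEq κ]

lemma El_tv {i j : κ} (h : i ≠ j) (a : ℤ) : El i j a = tv i j h a := dif_neg h

lemma third (h3 : 3 ≤ Fintype.card κ) (i j : κ) : ∃ k, k ≠ i ∧ k ≠ j := by
  by_contra hcon
  push Not at hcon
  have h1 : (Finset.univ : Finset κ) ⊆ {i, j} := by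
    intro x _
    by_cases hx : x = i
    · simp [hx]
    · simp [hcon x hx]
  have h2 := (Finset.card_le_card h1).trans (Finset.card_le_two)
  rw [Finset.card_univ] at h2
  omega

/-- **Tits**: a subgroup which contains the elementary matrices of level `t` contains the normal
closure of those of level `t ^ 2`. -/
theorem tits (h3 : 3 ≤ Fintype.card κ) (t : ℤ) (H : Subgroup (SpecialLinearGroup κ ℤ))
    (hH : ∀ i j (h : i ≠ j), tv i j h t ∈ H) :
    Pool.Agent.Helper460_CSP.El κ (t * t) ≤ H := by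
  obtain ⟨P, hP, -⟩ := E0.main κ ℤ
  have h3' := third h3
  have hgen : Subgroup.closure (Els κ ℤ) = ⊤ := E1.main κ ℤ R1.main.1
  have hnorm : ∀ y : SpecialLinearGroup κ ℤ, (∀ g ∈ St.ZZ P (t * t), y * g * y⁻¹ ∈ St.ZZ P (t * t)) ∧
      (∀ g ∈ St.ZZ P (t * t), y⁻¹ * g * y ∈ St.ZZ P (t * t)) := by
    intro y
    have hy : y ∈ Subgroup.closure (Els κ ℤ) := by rw [hgen]; trivial
    induction hy using Subgroup.closure_induction with
    | one => exact ⟨fun g hg => by simpa using hg, fun g hg => by simpa using hg⟩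
    | mul u v _ _ hu hv =>
      refine ⟨fun g hg => ?_, fun g hg => ?_⟩
      · have := hu.1 _ (hv.1 g hg)
        have e : u * v * g * (u * v)⁻¹ = u * (v * g * v⁻¹) * u⁻¹ := by group
        rwa [e]
      · have := hv.2 _ (hu.2 g hg)
        have e : (u * v)⁻¹ * g * (u * v) = v⁻¹ * (u⁻¹ * g * u) * v := by group
        rwa [e]
    | inv u _ hu =>
      refine ⟨fun g hg => ?_, fun g hg => ?_⟩
      · rw [inv_inv]; exact hu.2 g hg
      · rw [inv_inv]; exact hu.1 g hg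
    | mem u hu =>
      obtain ⟨i, j, a, hij, rfl⟩ := hu
      have e : El i j a = P.x i j a := by rw [hP]
      rw [e]
      refine ⟨fun g hg => St.A P h3' hij a hg, fun g hg => ?_⟩
      have h1 := St.A P h3' hij (-a) hg
      rw [← St.x_inv P hij, inv_inv] at h1
      exact h1
  have : (St.ZZ P (t * t)).Normal := ⟨fun g hg y => (hnorm y).1 g hg⟩
  have hle1 : Pool.Agent.Helper460_CSP.El κ (t * t) ≤ St.ZZ P (t * t) := by
    apply Pool.Agent.Helper460_CSP.El_le
    intro i j h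
    have h1 := St.x_mem P (s := t * t) h (dvd_refl _)
    rw [hP, El_tv h] at h1
    exact h1
  refine hle1.trans (St.ZZ_le P h3' ?_)
  intro i j h a ha
  rw [hP, El_tv h]
  exact Pool.Agent.Helper460_CSP.tv_mem (hH i j h) ha

/-- The congruence subgroup of level `t ^ 2` is generated by the elementary matrices of level `t`
(it is contained in the group generated by them). -/
theorem cgr_mem {m : ℕ} {t : ℤ} (ht : t ≠ 0) (H : Subgroup (SpecialLinearGroup (Fin (m + 3)) ℤ))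
    (hH : ∀ i j (h : i ≠ j), tv i j h t ∈ H) {A : SpecialLinearGroup (Fin (m + 3)) ℤ}
    (hA : Cgr (t * t) A) : A ∈ H :=
  tits (by rw [Fintype.card_fin]; omega) t H hH
    (Pool.Agent.Helper460_CSP.bls (mul_ne_zero ht ht) m A hA)

end SL

end Pool.Agent.V5helper38.RH
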