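import Pool.Agent.V5helper38.RH.Elem
import Pool.Agent.V5helper38.RH.Tits

/-!
# The action on the coordinates by integral matrices
-/

set_option autoImplicit false
set_option linter.unusedSectionVars false
set_option linter.unusedVariables false

namespace Pool.Agent.V5helper38.RH

open FreeGroup (of)
open Matrix
open Pool.Agent.Helper460_CSP (mt mt_mul mt_one)

variable {ι : Type} [DecidableEq ι] {d : ℕ} {r : FreeGroup ι →* GZ d} {y1 y2 : ι}

namespace Coord

/-- The index set of the coordinates. -/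
abbrev Ix (C : Coord r y1 y2) := (Bool × Fin d) ⊕ Fin C.n

variable (C : Coord r y1 y2)

/-- The two letters. -/
def yy (_ : Coord r y1 y2) (ε : Bool) : ι := cond ε y2 y1

lemma yy_ne (h12 : y1 ≠ y2) {ε ε' : Bool} (h : ε ≠ ε') : C.yy ε ≠ C.yy ε' := by
  cases ε <;> cases ε'
  · exact absurd rfl h
  · exact h12
  · exact h12.symm
  · exact absurd rfl h

lemma r_yy (h1 : r (of y1) = 1) (h2 : r (of y2) = 1) (ε : Bool) : r (of (C.yy ε)) = 1 := by
  cases ε
  · exact h1
  · exact h2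

lemma w_yy (ε : Bool) (l : Fin C.n) : C.w l ∈ FJ (C.yy ε) := by
  cases ε
  · exact C.w1 l
  · exact C.w2 l

lemma vd_yy (ε : Bool) (l : Fin C.n) : C.vd l (C.yy ε) = 0 := by
  cases ε
  · exact C.vd1 l
  · exact C.vd2 l

/-- The words. -/
def wp : C.Ix → FreeGroup ι
  | Sum.inl e => of (C.yy e.1)
  | Sum.inr l => C.w l

/-- The entries. -/
def ap : C.Ix → Fin d
  | Sum.inl e => e.2
  | Sum.inr l => C.a l

/-- The coordinates. -/
def L (v : ι → Ev d) (p : C.Ix) : ℤ := D r v (C.wp p) (C.ap p)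

/-- The dual vectors. -/
def V : C.Ix → (ι → Ev d)
  | Sum.inl e => Pi.single (C.yy e.1) (Pi.single e.2 C.N)
  | Sum.inr l => C.vd l

lemma L1 (v : ι → Ev d) (e : Bool × Fin d) : C.L v (Sum.inl e) = v (C.yy e.1) e.2 := by
  show D r v (of (C.yy e.1)) e.2 = _
  rw [D_of]

lemma L3 (v : ι → Ev d) (l : Fin C.n) : C.L v (Sum.inr l) = D r v (C.w l) (C.a l) := rfl

lemma L_add (v v' : ι → Ev d) : C.L (v + v') = C.L v + C.L v' := by
  funext p
  show D r (v + v') _ _ = _
  rw [D_add]; rfl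

lemma L_smul (c : ℤ) (v : ι → Ev d) : C.L (c • v) = c • C.L v := by
  funext p
  show D r (c • v) _ _ = _
  rw [D_smul]; rfl

lemma L3_single (ε : Bool) (u : Ev d) (l : Fin C.n) :
    C.L (Pi.single (C.yy ε) u) (Sum.inr l) = 0 := by
  rw [L3, D_FJ (j := C.yy ε) (v' := 0) (fun i hi => Pi.single_eq_of_ne hi _) (C.w_yy ε l), D_zero]
  rfl

lemma L_single (h12 : y1 ≠ y2) (e : Bool × Fin d) (z : ℤ) (p : C.Ix) :
    C.L (Pi.single (C.yy e.1) (Pi.single e.2 z)) p = if p = Sum.inl e then z else 0 := by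
  rcases p with p | p
  · rw [L1]
    by_cases h : p.1 = e.1
    · rw [h, Pi.single_eq_same, Pi.single_apply]
      by_cases h' : p.2 = e.2
      · rw [if_pos h', if_pos (by rw [Prod.ext h h'])]
      · rw [if_neg h', if_neg (fun h'' => h' (by rw [Sum.inl_injective h'']))]
    · rw [Pi.single_eq_of_ne (C.yy_ne h12 h), if_neg (fun h'' => h (by rw [Sum.inl_injective h'']))]
      rfl
  · rw [L3_single, if_neg (by simp)]

lemma L_V (h12 : y1 ≠ y2) (q p : C.Ix) : C.L (C.V q) p = if p = q then C.N else 0 := by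
  rcases q with q | q
  · exact C.L_single h12 q C.N p
  · rcases p with p | p
    · rw [L1]
      show C.vd q (C.yy p.1) p.2 = _
      rw [C.vd_yy]; simp
    · rw [L3]
      show D r (C.vd q) _ _ = _
      rw [C.dual]
      by_cases h : q = p
      · subst h; simp
      · rw [if_neg h, if_neg (fun h' => h (Sum.inr_injective h').symm)]

lemma r_wp (h1 : r (of y1) = 1) (h2 : r (of y2) = 1) (p : C.Ix) : r (C.wp p) = 1 := by
  rcases p with p | p
  · exact C.r_yy h1 h2 p.1
  · exact C.rw1 p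

/-- A derivation with trivial coordinates is inner. -/
lemma K' (v : ι → Ev d) (h : C.L v = 0) (y : FreeGroup ι) (hy : r y = 1) : D r v y = 0 := by
  refine C.K v ?_ ?_ ?_ y hy
  · funext a
    have := congrFun h (Sum.inl (false, a))
    rw [L1] at this
    exact this
  · funext a
    have := congrFun h (Sum.inl (true, a))
    rw [L1] at this
    exact this
  · intro l
    exact congrFun h (Sum.inr l)

/-- `α` acts on the coordinates by the matrix `A`. -/
def Act (α : MulAut (FreeGroup ι)) (A : Matrix C.Ix C.Ix ℤ) : Prop :=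
  ∀ v, C.L (tv r α v) = C.L v ᵥ* A

variable {C}

lemma Act.mul {Γ : Subgroup (FreeGroup ι)} [Γ.Characteristic] (hr : Tri Γ r)
    {α β : MulAut (FreeGroup ι)} {A B : Matrix C.Ix C.Ix ℤ} (hα : α ∈ S Γ) (h : C.Act α A)
    (h' : C.Act β B) : C.Act (α * β) (A * B) := by
  intro v
  rw [tv_mul hr hα, h', h, vecMul_vecMul]

lemma Act.one : C.Act 1 1 := by
  intro v
  rw [tv_one, vecMul_one]

lemma Act.unique (h12 : y1 ≠ y2) {α : MulAut (FreeGroup ι)} {A B : Matrix C.Ix C.Ix ℤ}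
    (h : C.Act α A) (h' : C.Act α B) : A = B := by
  ext q p
  have h1 := congrFun ((h (C.V q)).symm.trans (h' (C.V q))) p
  have h2 : C.L (C.V q) = Pi.single q C.N := by
    funext p
    rw [L_V C h12, Pi.single_apply]
  rw [h2, single_vecMul, single_vecMul] at h1
  have h3 : C.N * A q p = C.N * B q p := h1
  exact mul_left_cancel₀ C.hN h3

lemma Act.inv {Γ : Subgroup (FreeGroup ι)} [Γ.Characteristic] (hr : Tri Γ r)
    {α : MulAut (FreeGroup ι)} {A A' : Matrix C.Ix C.Ix ℤ} (hα : α ∈ S Γ) (h : C.Act α A)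
    (hA : A * A' = 1) : C.Act α⁻¹ A' := by
  intro v
  have h1 : tv r α (tv r α⁻¹ v) = v := by
    rw [← tv_mul hr (inv_mem hα), inv_mul_cancel, tv_one]
  have h2 := h (tv r α⁻¹ v)
  rw [h1] at h2
  rw [h2, vecMul_vecMul, hA, vecMul_one]

/-- The class of the automorphism determines the action on the coordinates. -/
lemma _root_.Pool.Agent.V5helper38.RH.Eqv.on_ker {Γ : Subgroup (FreeGroup ι)} [Γ.Characteristic]
    [Γ.FiniteIndex] (hr : Tri Γ r) {α β : MulAut (FreeGroup ι)} (h : Eqv Γ r α β)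
    (hα : α ∈ S Γ) (hβ : β ∈ S Γ) (v : ι → Ev d) {y : FreeGroup ι} (hy : r y = 1) :
    D r v (α y) = D r v (β y) := by
  have h1 := h v (y ^ Γ.index) (Subgroup.pow_index_mem Γ y)
  rw [map_pow, map_pow, D_pow v (by rw [hr.S hα, hy]), D_pow v (by rw [hr.S hβ, hy])] at h1
  have h2 : Γ.index ≠ 0 := Subgroup.FiniteIndex.index_ne_zero
  exact smul_right_injective _ h2 h1

lemma Act.of_eqv {Γ : Subgroup (FreeGroup ι)} [Γ.Characteristic] [Γ.FiniteIndex] (hr : Tri Γ r)
    (h1 : r (of y1) = 1) (h2 : r (of y2) = 1)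
    {α β : MulAut (FreeGroup ι)} (h : Eqv Γ r β α) (hα : α ∈ S Γ) (hβ : β ∈ S Γ)
    {A : Matrix C.Ix C.Ix ℤ} (hA : C.Act α A) : C.Act β A := by
  intro v
  rw [← hA v]
  funext p
  show D r (tv r β v) (C.wp p) _ = D r (tv r α v) (C.wp p) _
  rw [← D_S hr hβ, ← D_S hr hα, h.on_ker hr hβ hα v (C.r_wp h1 h2 p)]

lemma Act.eqv {Γ : Subgroup (FreeGroup ι)} [Γ.Characteristic] (hr : Tri Γ r)
    {α β : MulAut (FreeGroup ι)} (hα : α ∈ S Γ) (hβ : β ∈ S Γ) {A : Matrix C.Ix C.Ix ℤ}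
    (h : C.Act α A) (h' : C.Act β A) : Eqv Γ r α β := by
  intro v y hy
  rw [D_S hr hα, D_S hr hβ, ← sub_eq_zero, ← D_sub]
  apply C.K' _ _ y (hr y hy)
  have h1 : C.L (tv r α v - tv r β v) + C.L (tv r β v) = C.L (tv r α v) := by
    rw [← L_add, sub_add_cancel]
  rw [h v, h' v] at h1
  exact left_eq_add.1 (by rw [add_comm, h1])

/-- The integral matrices of the elements of `S`. -/
def ES (C : Coord r y1 y2) {Γ : Subgroup (FreeGroup ι)} [Γ.Characteristic] (hr : Tri Γ r) :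
    Subgroup (SpecialLinearGroup C.Ix ℤ) where
  carrier := {A | ∃ α ∈ S Γ, C.Act α (mt A)}
  mul_mem' := by
    rintro A B ⟨α, h1, h2⟩ ⟨β, k1, k2⟩
    exact ⟨α * β, mul_mem h1 k1, h2.mul hr h1 k2⟩
  one_mem' := ⟨1, one_mem _, Act.one⟩
  inv_mem' := by
    rintro A ⟨α, h1, h2⟩
    exact ⟨α⁻¹, inv_mem h1, h2.inv hr h1 (by rw [← mt_mul, mul_inv_cancel, mt_one])⟩

/-- Elementary action. -/
lemma act_tv {α : MulAut (FreeGroup ι)} {q p : C.Ix} (hqp : q ≠ p) (c : ℤ)
    (h : ∀ v p', C.L (tv r α v) p' = C.L v p' + if p' = p then c * C.L v q else 0) :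
    C.Act α (mt (Pool.Agent.Helper460_CSP.tv q p hqp c)) := by
  intro v
  funext p'
  rw [h v p']
  show _ = (C.L v ᵥ* (transvection q p c)) p'
  unfold transvection
  rw [vecMul_add, vecMul_one, Pi.add_apply, vecMul, dotProduct, Finset.sum_eq_single q]
  · rw [Matrix.single_apply]
    by_cases hp : p' = p
    · subst hp
      rw [if_pos rfl, if_pos ⟨rfl, rfl⟩, mul_comm]
    · rw [if_neg hp, if_neg (fun h' => hp h'.2.symm), mul_zero]
  · intro s _ hs
    rw [Matrix.single_apply, if_neg (fun h' => hs h'.1.symm), mul_zero]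
  · intro h'; exact absurd (Finset.mem_univ q) h'

end Coord

end Pool.Agent.V5helper38.RH
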