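import Pool.Agent.V5helper38.RH.Grp
import Pool.Agent.V5helper38.CS.Mag

/-!
# The derivations detect the abelianization of the kernel; reduction modulo `M`
-/

set_option autoImplicit false
set_option linter.unusedSectionVars false
set_option linter.unusedVariables false

namespace Pool.Agent.V5helper38.RH

open FreeGroup (of)
open Matrix
open scoped commutatorElement

variable {ι : Type}

section comm

variable {G : Type} [Group G] [Fintype G] {φ : FreeGroup ι →* G} (hφ : Function.Surjective φ)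

open Classical in
/-- A transversal. -/
noncomputable def sec (a : G) : FreeGroup ι := if a = 1 then 1 else (hφ a).choose

lemma sec_spec (a : G) : φ (sec hφ a) = a := by
  unfold sec
  split_ifs with h
  · rw [map_one, h]
  · exact (hφ a).choose_spec

lemma sec_one : sec hφ 1 = 1 := if_pos rfl

lemma sch_mem (a : G) (x : FreeGroup ι) : sec hφ a * x * (sec hφ (a * φ x))⁻¹ ∈ φ.ker := by
  rw [MonoidHom.mem_ker, map_mul, map_mul, map_inv, sec_spec, sec_spec, mul_inv_cancel]

variable (h : φ.ker →* Multiplicative ℤ)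

/-- The Schreier function. -/
noncomputable def sch (x : FreeGroup ι) (a : G) : ℤ :=
  Multiplicative.toAdd (h ⟨sec hφ a * x * (sec hφ (a * φ x))⁻¹, sch_mem hφ a x⟩)

lemma sch_mul (x y : FreeGroup ι) (a : G) :
    sch hφ h (x * y) a = sch hφ h x a + sch hφ h y (a * φ x) := by
  unfold sch
  rw [← toAdd_mul, ← map_mul]
  congr 2
  apply Subtype.ext
  show sec hφ a * (x * y) * (sec hφ (a * φ (x * y)))⁻¹ =
    sec hφ a * x * (sec hφ (a * φ x))⁻¹ * (sec hφ (a * φ x) * y * (sec hφ (a * φ x * φ y))⁻¹)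
  rw [map_mul, mul_assoc a]
  group

lemma sch_one_apply {z : FreeGroup ι} (hz : z ∈ φ.ker) :
    sch hφ h z 1 = Multiplicative.toAdd (h ⟨z, hz⟩) := by
  unfold sch
  congr 2
  apply Subtype.ext
  show sec hφ 1 * z * (sec hφ (1 * φ z))⁻¹ = z
  rw [MonoidHom.mem_ker.1 hz, mul_one, sec_one]
  group

lemma sch_D {d : ℕ} (ρ : G →* GZ d) (u : Ev d) (x : FreeGroup ι) :
    ∑ a : G, sch hφ h x a • ((ρ a⁻¹).1 *ᵥ u) =
      D (ρ.comp φ) (fun i => ∑ a : G, sch hφ h (of i) a • ((ρ a⁻¹).1 *ᵥ u)) x := by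
  apply D_unique (r := ρ.comp φ) (E := fun x => ∑ a : G, sch hφ h x a • ((ρ a⁻¹).1 *ᵥ u))
  intro x y
  have h1 : ∑ a : G, sch hφ h y (a * φ x) • ((ρ a⁻¹).1 *ᵥ u) =
      ((ρ.comp φ) x).1 *ᵥ ∑ a : G, sch hφ h y a • ((ρ a⁻¹).1 *ᵥ u) := by
    rw [Matrix.mulVec_sum]
    refine Fintype.sum_equiv (Equiv.mulRight (φ x)) _ _ ?_
    intro a
    show _ = (ρ (φ x)).1 *ᵥ (sch hφ h y (a * φ x) • ((ρ (a * φ x)⁻¹).1 *ᵥ u))
    rw [mulVec_smul, mulVec_mulVec, ← Units.val_mul, ← map_mul, _root_.mul_inv_rev, mul_inv_cancel_left]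
  rw [← h1, ← Finset.sum_add_distrib]
  apply Finset.sum_congr rfl
  intro a _
  rw [sch_mul, add_smul]

/-- An element of the kernel on which all derivations vanish is in the commutator subgroup. -/
theorem mem_comm (hφ : Function.Surjective φ) {J : Type} {e : J → ℕ} (ρ : ∀ j, G →* GZ (e j))
    (hinj : ∀ c : G → ℤ, (∀ j, ∑ g, c g • (ρ j g).1 = 0) → ∀ g, c g = 0)
    {z : FreeGroup ι} (hz : z ∈ φ.ker) (h0 : ∀ j v, D ((ρ j).comp φ) v z = 0) :
    z ∈ ⁅φ.ker, φ.ker⁆ := by
  have hfree : IsFreeGroup φ.ker := inferInstance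
  have h1 : (⟨z, hz⟩ : φ.ker) ∈ commutator φ.ker := by
    apply Pool.Agent.V5helper38.CS.free_comm
    intro h
    have h2 : ∀ g : G, sch hφ h z g⁻¹ = 0 := by
      apply hinj
      intro j
      have h3 : ∀ u : Ev (e j), (∑ g, sch hφ h z g⁻¹ • (ρ j g).1) *ᵥ u = 0 := by
        intro u
        rw [Matrix.sum_mulVec]
        have h4 : ∑ g : G, (sch hφ h z g⁻¹ • (ρ j g).1) *ᵥ u =
            ∑ a : G, sch hφ h z a • ((ρ j a⁻¹).1 *ᵥ u) := by
          refine Fintype.sum_equiv (Equiv.inv G) _ _ ?_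
          intro g
          show _ = sch hφ h z g⁻¹ • ((ρ j g⁻¹⁻¹).1 *ᵥ u)
          rw [inv_inv, smul_mulVec]
        rw [h4, sch_D, h0]
      ext a b
      have h5 := congrFun (h3 (Pi.single b 1)) a
      rw [mulVec_single_one] at h5
      exact h5
    have h6 := h2 1
    rw [inv_one, sch_one_apply hφ h hz] at h6
    exact Multiplicative.toAdd.injective h6
  have h2 : z ∈ (commutator φ.ker).map φ.ker.subtype := ⟨_, h1, rfl⟩
  rw [commutator_def, Subgroup.map_commutator, ← MonoidHom.range_eq_map,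
    Subgroup.range_subtype] at h2
  exact h2

end comm

section modM

variable {d : ℕ} (M : ℕ)

/-- The reduction of an invertible matrix. -/
def rM : GZ d →* (Matrix (Fin d) (Fin d) (ZMod M))ˣ :=
  Units.map ((Int.castRingHom (ZMod M)).mapMatrix : Matrix (Fin d) (Fin d) ℤ →+* _).toMonoidHom

/-- The reduction of a vector. -/
def vM (v : Ev d) : Fin d → ZMod M := fun a => (v a : ZMod M)

lemma vM_add (v w : Ev d) : vM M (v + w) = vM M v + vM M w := by
  funext a
  show ((v a + w a : ℤ) : ZMod M) = _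
  rw [Int.cast_add]; rfl

lemma vM_mul (A : GZ d) (v : Ev d) : vM M (A.1 *ᵥ v) = (rM M A).1 *ᵥ vM M v := by
  funext a
  show ((A.1 *ᵥ v) a : ZMod M) = ((Int.castRingHom (ZMod M)).mapMatrix A.1 *ᵥ vM M v) a
  rw [Matrix.mulVec, Matrix.mulVec, dotProduct, dotProduct, Int.cast_sum]
  apply Finset.sum_congr rfl
  intro b _
  rw [Int.cast_mul]; rfl

lemma vM_zero : vM M (0 : Ev d) = 0 := by
  funext a
  show ((0 : ℤ) : ZMod M) = 0
  exact Int.cast_zero

/-- The affine permutation modulo `M`. -/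
def affM (A : (Matrix (Fin d) (Fin d) (ZMod M))ˣ) (v : Fin d → ZMod M) :
    Equiv.Perm (Fin d → ZMod M) where
  toFun := fun t => v + A.1 *ᵥ t
  invFun := fun t => (A⁻¹).1 *ᵥ (t - v)
  left_inv := fun t => by
    show (A⁻¹).1 *ᵥ ((v + A.1 *ᵥ t) - v) = t
    rw [add_sub_cancel_left, mulVec_mulVec, ← Units.val_mul, inv_mul_cancel, Units.val_one,
      one_mulVec]
  right_inv := fun t => by
    show v + A.1 *ᵥ ((A⁻¹).1 *ᵥ (t - v)) = t
    rw [mulVec_mulVec, ← Units.val_mul, mul_inv_cancel, Units.val_one, one_mulVec,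
      add_sub_cancel]

lemma affM_apply (A : (Matrix (Fin d) (Fin d) (ZMod M))ˣ) (v t : Fin d → ZMod M) :
    affM M A v t = v + A.1 *ᵥ t := rfl

/-- The affine action modulo `M` as a homomorphism. -/
def PM (r : FreeGroup ι →* GZ d) (v : ι → Ev d) : FreeGroup ι →* Equiv.Perm (Fin d → ZMod M) where
  toFun := fun x => affM M (rM M (r x)) (vM M (D r v x))
  map_one' := by
    ext1 t
    rw [affM_apply, map_one, map_one, D_one, vM_zero, Units.val_one, one_mulVec, zero_add]; rfl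
  map_mul' := fun x y => by
    ext1 t
    rw [Equiv.Perm.mul_apply, affM_apply, affM_apply, affM_apply, D_mul, vM_add, vM_mul, map_mul,
      map_mul, Units.val_mul, ← mulVec_mulVec, mulVec_add, add_assoc]

lemma PM_ker {r : FreeGroup ι →* GZ d} {v : ι → Ev d} {x : FreeGroup ι} (h : PM M r v x = 1)
    (a : Fin d) : (M : ℤ) ∣ D r v x a := by
  have h1 : affM M (rM M (r x)) (vM M (D r v x)) 0 = 0 := by
    show PM M r v x 0 = 0
    rw [h]; rfl
  rw [affM_apply, mulVec_zero, add_zero] at h1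
  rw [← ZMod.intCast_zmod_eq_zero_iff_dvd]
  exact congrFun h1 a

end modM

end Pool.Agent.V5helper38.RH
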