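import Mathlib

/-!
# Derivations of a free group with respect to an integral matrix representation
-/

set_option autoImplicit false
set_option linter.unusedSectionVars false
set_option linter.unusedVariables false

namespace Pool.Agent.V5helper38.RH

open FreeGroup (of)
open Matrix

variable {ι : Type} {d : ℕ}

/-- Invertible integral matrices. -/
abbrev GZ (d : ℕ) := (Matrix (Fin d) (Fin d) ℤ)ˣ

/-- Vectors. -/
abbrev Ev (d : ℕ) := Fin d → ℤ

/-- The affine permutation `t ↦ v + A t`. -/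
def aff (A : GZ d) (v : Ev d) : Equiv.Perm (Ev d) where
  toFun := fun t => v + A.1 *ᵥ t
  invFun := fun t => (A⁻¹).1 *ᵥ (t - v)
  left_inv := fun t => by
    show (A⁻¹).1 *ᵥ ((v + A.1 *ᵥ t) - v) = t
    rw [add_sub_cancel_left, mulVec_mulVec, ← Units.val_mul, inv_mul_cancel, Units.val_one,
      one_mulVec]
  right_inv := fun t => by
    show v + A.1 *ᵥ ((A⁻¹).1 *ᵥ (t - v)) = t
    rw [mulVec_mulVec, ← Units.val_mul, mul_inv_cancel, Units.val_one, one_mulVec,
      add_sub_cancel]

lemma aff_apply (A : GZ d) (v t : Ev d) : aff A v t = v + A.1 *ᵥ t := rfl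

lemma aff_inv_apply (A : GZ d) (v t : Ev d) : (aff A v)⁻¹ t = (A⁻¹).1 *ᵥ (t - v) := rfl

/-- The affine action. -/
def P (r : FreeGroup ι →* GZ d) (v : ι → Ev d) : FreeGroup ι →* Equiv.Perm (Ev d) :=
  FreeGroup.lift (fun i => aff (r (of i)) (v i))

/-- The derivation with respect to `r` with the values `v i` at the generators. -/
def D (r : FreeGroup ι →* GZ d) (v : ι → Ev d) (x : FreeGroup ι) : Ev d := P r v x 0

lemma P_apply (r : FreeGroup ι →* GZ d) (v : ι → Ev d) (x : FreeGroup ι) (t : Ev d) :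
    P r v x t = D r v x + (r x).1 *ᵥ t := by
  unfold D
  induction x using FreeGroup.induction_on generalizing t with
  | C1 => simp
  | of i =>
    unfold P
    rw [FreeGroup.lift_apply_of, aff_apply, aff_apply, mulVec_zero, add_zero]
  | inv_of i _ =>
    unfold P
    rw [map_inv, map_inv, FreeGroup.lift_apply_of, aff_inv_apply, aff_inv_apply, mulVec_sub,
      mulVec_sub, mulVec_zero]
    abel
  | mul x y hx hy =>
    rw [map_mul, map_mul, Equiv.Perm.mul_apply, Equiv.Perm.mul_apply, hx, hy t, hx (P r v y 0),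
      Units.val_mul, ← mulVec_mulVec, mulVec_add]
    abel

lemma D_mul (r : FreeGroup ι →* GZ d) (v : ι → Ev d) (x y : FreeGroup ι) :
    D r v (x * y) = D r v x + (r x).1 *ᵥ D r v y := by
  show P r v (x * y) 0 = _
  rw [map_mul, Equiv.Perm.mul_apply, P_apply]
  rfl

lemma D_one (r : FreeGroup ι →* GZ d) (v : ι → Ev d) : D r v 1 = 0 := by
  show P r v 1 0 = 0
  rw [map_one]; rfl

lemma D_of (r : FreeGroup ι →* GZ d) (v : ι → Ev d) (i : ι) : D r v (of i) = v i := by
  unfold D P
  rw [FreeGroup.lift_apply_of, aff_apply, mulVec_zero, add_zero]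

lemma D_inv (r : FreeGroup ι →* GZ d) (v : ι → Ev d) (x : FreeGroup ι) :
    D r v x⁻¹ = - ((r x⁻¹).1 *ᵥ D r v x) := by
  have h := D_mul r v x⁻¹ x
  rw [inv_mul_cancel, D_one] at h
  exact eq_neg_of_add_eq_zero_left h.symm

lemma D_mul_of {r : FreeGroup ι →* GZ d} (v : ι → Ev d) {x : FreeGroup ι} (hx : r x = 1)
    (y : FreeGroup ι) : D r v (x * y) = D r v x + D r v y := by
  rw [D_mul, hx, Units.val_one, one_mulVec]

lemma D_inv_of {r : FreeGroup ι →* GZ d} (v : ι → Ev d) {x : FreeGroup ι} (hx : r x = 1) :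
    D r v x⁻¹ = - D r v x := by
  rw [D_inv, map_inv, hx, inv_one, Units.val_one, one_mulVec]

lemma D_conj {r : FreeGroup ι →* GZ d} (v : ι → Ev d) (x : FreeGroup ι) {y : FreeGroup ι}
    (hy : r y = 1) : D r v (x * y * x⁻¹) = (r x).1 *ᵥ D r v y := by
  rw [D_mul, D_mul, D_inv, map_mul, hy, mul_one, mulVec_neg, mulVec_mulVec, ← Units.val_mul,
    ← map_mul, mul_inv_cancel, map_one, Units.val_one, one_mulVec]
  abel

lemma D_pow {r : FreeGroup ι →* GZ d} (v : ι → Ev d) {x : FreeGroup ι} (hx : r x = 1) (n : ℕ) :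
    D r v (x ^ n) = n • D r v x := by
  induction n with
  | zero => rw [pow_zero, D_one, zero_smul]
  | succ n ih =>
    rw [pow_succ, D_mul_of v (by rw [map_pow, hx, one_pow]), ih, add_smul, one_smul]

lemma D_zpow {r : FreeGroup ι →* GZ d} (v : ι → Ev d) {x : FreeGroup ι} (hx : r x = 1) (n : ℤ) :
    D r v (x ^ n) = n • D r v x := by
  obtain ⟨n, rfl | rfl⟩ := n.eq_nat_or_neg
  · rw [zpow_natCast, D_pow v hx, natCast_zsmul]
  · rw [_root_.zpow_neg, zpow_natCast, D_inv_of v (by rw [map_pow, hx, one_pow]), D_pow v hx, neg_smul,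
      natCast_zsmul]

/-- Uniqueness. -/
lemma D_unique {r : FreeGroup ι →* GZ d} {E : FreeGroup ι → Ev d}
    (h : ∀ x y, E (x * y) = E x + (r x).1 *ᵥ E y) (x : FreeGroup ι) :
    E x = D r (fun i => E (of i)) x := by
  have h1 : E 1 = 0 := by
    have := h 1 1
    rw [mul_one, map_one, Units.val_one, one_mulVec] at this
    exact left_eq_add.1 this
  induction x using FreeGroup.induction_on with
  | C1 => rw [h1, D_one]
  | of i => rw [D_of]
  | inv_of i _ =>
    have h2 := h (of i)⁻¹ (of i)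
    rw [inv_mul_cancel, h1] at h2
    rw [D_inv, D_of]
    exact eq_neg_of_add_eq_zero_left h2.symm
  | mul x y hx hy => rw [h, D_mul, hx, hy]

lemma D_congr {r r' : FreeGroup ι →* GZ d} {v v' : ι → Ev d} (x : FreeGroup ι)
    (h1 : r = r') (h2 : v = v') : D r v x = D r' v' x := by rw [h1, h2]

lemma D_add (r : FreeGroup ι →* GZ d) (v v' : ι → Ev d) (x : FreeGroup ι) :
    D r (v + v') x = D r v x + D r v' x := by
  have h := D_unique (r := r) (E := fun x => D r v x + D r v' x) (fun x y => by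
    rw [D_mul, D_mul, mulVec_add]; abel) x
  rw [h]
  apply D_congr _ rfl
  funext i
  rw [D_of, D_of]; rfl

lemma D_smul (r : FreeGroup ι →* GZ d) (t : ℤ) (v : ι → Ev d) (x : FreeGroup ι) :
    D r (t • v) x = t • D r v x := by
  have h := D_unique (r := r) (E := fun x => t • D r v x) (fun x y => by
    rw [D_mul, smul_add, mulVec_smul]) x
  rw [h]
  apply D_congr _ rfl
  funext i
  rw [D_of]; rfl

/-- `D r · x` as a linear map in the values. -/
def DL (r : FreeGroup ι →* GZ d) (x : FreeGroup ι) : (ι → Ev d) →ₗ[ℤ] Ev d where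
  toFun := fun v => D r v x
  map_add' := fun v v' => D_add r v v' x
  map_smul' := fun t v => D_smul r t v x

lemma DL_apply (r : FreeGroup ι →* GZ d) (x : FreeGroup ι) (v : ι → Ev d) :
    DL r x v = D r v x := rfl

lemma D_zero (r : FreeGroup ι →* GZ d) (x : FreeGroup ι) : D r 0 x = 0 := (DL r x).map_zero

lemma D_sub (r : FreeGroup ι →* GZ d) (v v' : ι → Ev d) (x : FreeGroup ι) :
    D r (v - v') x = D r v x - D r v' x := (DL r x).map_sub v v'

/-- Intertwiners map derivations to derivations. -/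
lemma D_twine {d' : ℕ} {r : FreeGroup ι →* GZ d} {r' : FreeGroup ι →* GZ d'}
    {T : Matrix (Fin d') (Fin d) ℤ} (hT : ∀ x, (r' x).1 * T = T * (r x).1) (v : ι → Ev d)
    (x : FreeGroup ι) : T *ᵥ D r v x = D r' (fun i => T *ᵥ v i) x := by
  have h := D_unique (r := r') (E := fun x => T *ᵥ D r v x) (fun x y => by
    rw [D_mul, mulVec_add, mulVec_mulVec, mulVec_mulVec, hT]) x
  rw [h]
  apply D_congr _ rfl
  funext i
  rw [D_of]

/-- The transported representation. -/
def tr (r : FreeGroup ι →* GZ d) (θ : MulAut (FreeGroup ι)) : FreeGroup ι →* GZ d :=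
  r.comp θ.toMonoidHom

lemma tr_apply (r : FreeGroup ι →* GZ d) (θ : MulAut (FreeGroup ι)) (x : FreeGroup ι) :
    tr r θ x = r (θ x) := rfl

/-- The transported values. -/
def tv (r : FreeGroup ι →* GZ d) (θ : MulAut (FreeGroup ι)) (v : ι → Ev d) : ι → Ev d :=
  fun i => D r v (θ (of i))

lemma D_tv (r : FreeGroup ι →* GZ d) (θ : MulAut (FreeGroup ι)) (v : ι → Ev d)
    (x : FreeGroup ι) : D (tr r θ) (tv r θ v) x = D r v (θ x) :=
  (D_unique (r := tr r θ) (E := fun x => D r v (θ x)) (fun x y => by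
    rw [map_mul, D_mul]; rfl) x).symm

lemma tv_add (r : FreeGroup ι →* GZ d) (θ : MulAut (FreeGroup ι)) (v v' : ι → Ev d) :
    tv r θ (v + v') = tv r θ v + tv r θ v' := funext fun i => D_add r v v' _

lemma tv_smul (r : FreeGroup ι →* GZ d) (θ : MulAut (FreeGroup ι)) (t : ℤ) (v : ι → Ev d) :
    tv r θ (t • v) = t • tv r θ v := funext fun i => D_smul r t v _

/-- Derivations agree if they agree on a generating set. -/
lemma D_agree {r : FreeGroup ι →* GZ d} {v v' : ι → Ev d} {s : Set (FreeGroup ι)}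
    (h : ∀ x ∈ s, D r v x = D r v' x) {x : FreeGroup ι} (hx : x ∈ Subgroup.closure s) :
    D r v x = D r v' x := by
  induction hx using Subgroup.closure_induction with
  | mem x hx => exact h x hx
  | one => rw [D_one, D_one]
  | mul x y _ _ hx hy => rw [D_mul, D_mul, hx, hy]
  | inv x _ hx => rw [D_inv, D_inv, hx]

end Pool.Agent.V5helper38.RH
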