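import Pool.Agent.V5helper38.RH.Frame

/-!
# The automorphisms `x_j ↦ x_j w` and pairs of them which see only one representation
-/

set_option autoImplicit false
set_option linter.unusedSectionVars false
set_option linter.unusedVariables false

namespace Pool.Agent.V5helper38.RH

open FreeGroup (of)
open Matrix

variable {ι : Type} [DecidableEq ι] {d d' : ℕ}

/-- The endomorphism `x_j ↦ x_j w`. -/
def eh (j : ι) (w : FreeGroup ι) : FreeGroup ι →* FreeGroup ι :=
  FreeGroup.lift (fun i => if i = j then of j * w else of i)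

lemma eh_self (j : ι) (w : FreeGroup ι) : eh j w (of j) = of j * w := by
  unfold eh; rw [FreeGroup.lift_apply_of, if_pos rfl]

lemma eh_ne {i j : ι} (h : i ≠ j) (w : FreeGroup ι) : eh j w (of i) = of i := by
  unfold eh; rw [FreeGroup.lift_apply_of, if_neg h]

lemma eh_FJ {j : ι} {x : FreeGroup ι} (h : x ∈ FJ j) (w : FreeGroup ι) : eh j w x = x := by
  unfold FJ at h
  induction h using Subgroup.closure_induction with
  | mem x hx =>
    obtain ⟨k, hk, rfl⟩ := hx
    exact eh_ne hk w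
  | one => rw [map_one]
  | mul x y _ _ hx hy => rw [map_mul, hx, hy]
  | inv x _ hx => rw [map_inv, hx]

lemma eh_eh {j : ι} {w u : FreeGroup ι} (hw : w ∈ FJ j) (hu : u ∈ FJ j) (huw : w * u = 1)
    (x : FreeGroup ι) : eh j u (eh j w x) = x := by
  have : (eh j u).comp (eh j w) = MonoidHom.id _ := by
    apply FreeGroup.ext_hom
    intro i
    rw [MonoidHom.comp_apply, MonoidHom.id_apply]
    by_cases hi : i = j
    · subst hi
      rw [eh_self, map_mul, eh_self, eh_FJ hw, mul_assoc]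
      have : u * w = 1 := by rw [← inv_eq_of_mul_eq_one_left huw, mul_inv_cancel]
      rw [this, mul_one]
    · rw [eh_ne hi, eh_ne hi]
  exact DFunLike.congr_fun this x

/-- The automorphism `x_j ↦ x_j w`. -/
def Ea (j : ι) (w : FreeGroup ι) (h : w ∈ FJ j) : MulAut (FreeGroup ι) where
  toFun := eh j w
  invFun := eh j w⁻¹
  left_inv := eh_eh h (inv_mem h) (mul_inv_cancel w)
  right_inv := eh_eh (inv_mem h) h (inv_mul_cancel w)
  map_mul' := fun x y => map_mul _ x y

lemma Ea_self (j : ι) (w : FreeGroup ι) (h : w ∈ FJ j) : Ea j w h (of j) = of j * w := eh_self j w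

lemma Ea_ne {i j : ι} (hi : i ≠ j) (w : FreeGroup ι) (h : w ∈ FJ j) : Ea j w h (of i) = of i :=
  eh_ne hi w

lemma Ea_inv (j : ι) (w : FreeGroup ι) (h : w ∈ FJ j) :
    (Ea j w h)⁻¹ = Ea j w⁻¹ (inv_mem h) := by
  rw [inv_eq_iff_mul_eq_one]
  apply MulEquiv.ext
  intro x
  exact (Ea j w h).right_inv x

lemma Ea_S {Γ : Subgroup (FreeGroup ι)} [Γ.Characteristic] {j : ι} {w : FreeGroup ι}
    (h : w ∈ FJ j) (hw : w ∈ Γ) : Ea j w h ∈ S Γ := by
  have h1 : (QuotientGroup.mk' Γ).comp (eh j w) = QuotientGroup.mk' Γ := by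
    apply FreeGroup.ext_hom
    intro i
    rw [MonoidHom.comp_apply]
    by_cases hi : i = j
    · subst hi
      rw [eh_self, map_mul]
      have : QuotientGroup.mk' Γ w = 1 := (QuotientGroup.eq_one_iff w).2 hw
      rw [this, mul_one]
    · rw [eh_ne hi]
  intro x
  have h2 : QuotientGroup.mk' Γ (eh j w x) = QuotientGroup.mk' Γ x := DFunLike.congr_fun h1 x
  have h3 : QuotientGroup.mk' Γ (Ea j w h x * x⁻¹) = 1 := by
    rw [map_mul, map_inv]
    show QuotientGroup.mk' Γ (eh j w x) * _ = 1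
    rw [h2, mul_inv_cancel]
  exact (QuotientGroup.eq_one_iff _).1 h3

/-- the action of `x_j ↦ x_j w` on the derivations. -/
lemma tv_Ea {j : ι} {w : FreeGroup ι} (h : w ∈ FJ j) (r : FreeGroup ι →* GZ d) (v : ι → Ev d) :
    tv r (Ea j w h) v = v + Pi.single j ((r (of j)).1 *ᵥ D r v w) := by
  funext i
  show D r v (Ea j w h (of i)) = v i + (Pi.single j ((r (of j)).1 *ᵥ D r v w) : ι → Ev d) i
  by_cases hi : i = j
  · subst hi
    rw [Ea_self, D_mul, D_of, Pi.single_eq_same]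
  · rw [Ea_ne hi, D_of, Pi.single_eq_of_ne hi, add_zero]

lemma tv_Ea_inv {j : ι} {w : FreeGroup ι} (h : w ∈ FJ j) {r : FreeGroup ι →* GZ d}
    (hw : r w = 1) (v : ι → Ev d) :
    tv r (Ea j w h)⁻¹ v = v - Pi.single j ((r (of j)).1 *ᵥ D r v w) := by
  rw [Ea_inv, tv_Ea, D_inv_of v hw, mulVec_neg, Pi.single_neg, sub_eq_add_neg]

/-- An element of `S` acts trivially if it fixes the values of all derivations. -/
lemma Eqv_one_of_tv {Γ : Subgroup (FreeGroup ι)} [Γ.Characteristic] {r : FreeGroup ι →* GZ d}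
    (hr : Tri Γ r) {α : MulAut (FreeGroup ι)} (hα : α ∈ S Γ) (h : ∀ v, tv r α v = v) :
    Eqv Γ r α 1 := by
  intro v y _
  rw [D_S hr hα, h]; rfl

section words

variable {Γ : Subgroup (FreeGroup ι)} [Γ.Characteristic] [Γ.FiniteIndex]

variable (Γ) in
/-- The word which acts on the derivations of `r` as a matrix unit applied to `D u`. -/
noncomputable def Wd (r : FreeGroup ι →* GZ d) (j : ι) (b a : Fin d) (u : FreeGroup ι) :
    FreeGroup ι := wd j (cf (Γ := Γ) j r b a) (u ^ Γ.index)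

lemma Wd_G (r : FreeGroup ι →* GZ d) (j : ι) (b a : Fin d) (u : FreeGroup ι) :
    Wd Γ r j b a u ∈ Γ := wd_G j _ (Subgroup.pow_index_mem Γ u)

lemma Wd_FJ (r : FreeGroup ι →* GZ d) {j : ι} (b a : Fin d) {u : FreeGroup ι} (hu : u ∈ FJ j) :
    Wd Γ r j b a u ∈ FJ j := wd_FJ j _ (pow_mem hu _)

lemma D_Wd {t : FreeGroup ι →* GZ d'} (ht : Tri Γ t) (r : FreeGroup ι →* GZ d) (j : ι)
    (b a : Fin d) (u : FreeGroup ι) (v : ι → Ev d') :
    D t v (Wd Γ r j b a u) = Zm j t (cf (Γ := Γ) j r b a) *ᵥ D t v (u ^ Γ.index) :=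
  D_wd j ht _ (Subgroup.pow_index_mem Γ u) v

/-- The factor. -/
lemma exists_factor {r : FreeGroup ι →* GZ d} (hr : Tri Γ r) (hs : Spn r) {j : ι}
    (hj : r (of j) = 1) : ∃ c : ℤ, c ≠ 0 ∧ ∀ (b a : Fin d) (u : FreeGroup ι), r u = 1 →
      ∀ v, D r v (Wd Γ r j b a u) = Pi.single a (c * D r v u b) := by
  obtain ⟨n, hn, h⟩ := Zm_self (Γ := Γ) j hr hs hj
  refine ⟨n * Γ.index, mul_ne_zero hn (by exact_mod_cast Subgroup.FiniteIndex.index_ne_zero), ?_⟩
  intro b a u hu v
  rw [D_Wd hr, h, D_pow v hu, smul_mulVec, mulVec_smul, Matrix.single_mulVec]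
  funext k
  have e : (Function.update (0 : Fin d → ℤ) a (1 * D r v u b)) = Pi.single a (D r v u b) := by
    rw [one_mul]; rfl
  rw [e, Pi.smul_apply, Pi.smul_apply, smul_eq_mul, nsmul_eq_mul, Pi.single_apply, Pi.single_apply]
  split_ifs <;> ring

lemma flip {r t : FreeGroup ι →* GZ d} {T : Matrix (Fin d) (Fin d) ℤ} (hdet : T.det ≠ 0)
    {x : FreeGroup ι} (h : (t x).1 * T = T * (r x).1) :
    (r x).1 * T.adjugate = T.adjugate * (t x).1 := by
  have e1 : T.adjugate * (t x).1 * (T * T.adjugate) =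
      (T.adjugate * T) * ((r x).1 * T.adjugate) := by
    calc T.adjugate * (t x).1 * (T * T.adjugate) = T.adjugate * ((t x).1 * T) * T.adjugate := by
          simp only [Matrix.mul_assoc]
      _ = _ := by rw [h]; simp only [Matrix.mul_assoc]
  rw [Matrix.mul_adjugate, Matrix.adjugate_mul, Matrix.mul_smul, Matrix.mul_one, Matrix.smul_mul,
    Matrix.one_mul] at e1
  have e2 := sub_eq_zero.2 e1.symm
  rw [← smul_sub] at e2
  rcases smul_eq_zero.1 e2 with h1 | h1
  · exact absurd h1 hdet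
  · exact sub_eq_zero.1 h1

lemma det_ne_of_inj {T : Matrix (Fin d) (Fin d) ℤ} (h : ∀ v, T *ᵥ v = 0 → v = 0) :
    T.det ≠ 0 := by
  intro h0
  obtain ⟨v, hv, hTv⟩ := Matrix.exists_mulVec_eq_zero_iff.2 h0
  exact hv (h v hTv)

lemma le_of_inj {T : Matrix (Fin d') (Fin d) ℤ} (h : ∀ v, T *ᵥ v = 0 → v = 0) : d ≤ d' := by
  have hinj : Function.Injective T.mulVecLin := by
    rw [injective_iff_map_eq_zero]
    exact h
  have h1 := LinearMap.finrank_le_finrank_of_injective hinj
  rw [Module.finrank_fin_fun, Module.finrank_fin_fun] at h1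
  exact h1

/-- **Only one representation is seen.** -/
lemma sub_of_two {r : FreeGroup ι →* GZ d} {t : FreeGroup ι →* GZ d'} (hr : Tri Γ r)
    (hs : Spn r) (ht : Tri Γ t) {y1 y2 : ι} (h12 : y1 ≠ y2) (h1 : r (of y1) = 1)
    (h2 : r (of y2) = 1) (hdd : d' ≤ d) (b a b' a' : Fin d)
    (k1 : Zm y1 t (cf (Γ := Γ) y1 r b a) ≠ 0) (k2 : Zm y2 t (cf (Γ := Γ) y2 r b' a') ≠ 0) :
    Sub t r := by
  obtain ⟨T1, hT1, hT1'⟩ := exists_twine y1 ht hr k1
  obtain ⟨T2, hT2, hT2'⟩ := exists_twine y2 ht hr k2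
  have i1 := inj_of_twine hs h1 hT1 hT1'
  have i2 := inj_of_twine hs h2 hT2 hT2'
  obtain rfl : d' = d := le_antisymm hdd (le_of_inj i1)
  have d1 := det_ne_of_inj i1
  have d2 := det_ne_of_inj i2
  obtain ⟨c, hc⟩ : ∃ c : ℤ, T2.adjugate * T1 = c • (1 : Matrix (Fin d') (Fin d') ℤ) := by
    apply hs.scalar
    intro x
    have hx1 : kl y1 (kl y2 x) ∈ FJ y1 := kl_mem _ _
    have hx2 : kl y1 (kl y2 x) ∈ FJ y2 := kl_FJ (kl_mem _ _)
    have hx : r (kl y1 (kl y2 x)) = r x := by rw [r_kl h1, r_kl h2]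
    have e1 := flip d2 (hT2' _ hx2)
    have e2 := hT1' _ hx1
    rw [hx] at e1 e2
    rw [← Matrix.mul_assoc, e1, Matrix.mul_assoc, e2, Matrix.mul_assoc]
  have hT : T2.det • T1 = c • T2 := by
    have : T2 * (T2.adjugate * T1) = T2.det • T1 := by
      rw [← Matrix.mul_assoc, Matrix.mul_adjugate, Matrix.smul_mul, Matrix.one_mul]
    rw [← this, hc, Matrix.mul_smul, Matrix.mul_one]
  have hT1'' : ∀ x ∈ FJ y2, (t x).1 * T1 = T1 * (r x).1 := by
    intro x hx
    have e1 : T2.det • ((t x).1 * T1 - T1 * (r x).1) = 0 := by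
      rw [smul_sub, ← Matrix.mul_smul, ← Matrix.smul_mul, hT, Matrix.mul_smul, Matrix.smul_mul,
        hT2' x hx, sub_self]
    rcases smul_eq_zero.1 e1 with h3 | h3
    · exact absurd h3 d2
    · exact sub_eq_zero.1 h3
  have hall : ∀ x, (t x).1 * T1 = T1 * (r x).1 := by
    intro x
    induction x using FreeGroup.induction_on with
    | C1 => rw [map_one, map_one, Units.val_one, Matrix.one_mul, Matrix.mul_one]
    | of i =>
      by_cases hi : i = y1
      · subst hi
        exact hT1'' _ (of_FJ h12)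
      · exact hT1' _ (of_FJ hi)
    | inv_of i h =>
      have e1 : (t (of i)⁻¹).1 * (t (of i)).1 = 1 := by
        rw [← Units.val_mul, ← map_mul, inv_mul_cancel, map_one, Units.val_one]
      have e2 : (r (of i)).1 * (r (of i)⁻¹).1 = 1 := by
        rw [← Units.val_mul, ← map_mul, mul_inv_cancel, map_one, Units.val_one]
      calc (t (of i)⁻¹).1 * T1 = (t (of i)⁻¹).1 * T1 * ((r (of i)).1 * (r (of i)⁻¹).1) := by
            rw [e2, Matrix.mul_one]
        _ = (t (of i)⁻¹).1 * (T1 * (r (of i)).1) * (r (of i)⁻¹).1 := by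
            simp only [Matrix.mul_assoc]
        _ = ((t (of i)⁻¹).1 * (t (of i)).1) * T1 * (r (of i)⁻¹).1 := by
            rw [← h]; simp only [Matrix.mul_assoc]
        _ = _ := by rw [e1, Matrix.one_mul]
    | mul x y hx hy =>
      rw [map_mul, map_mul, Units.val_mul, Units.val_mul, Matrix.mul_assoc, hy, ← Matrix.mul_assoc,
        hx, Matrix.mul_assoc]
  refine ⟨T1.adjugate, ?_, fun x => flip d1 (hall x)⟩
  intro h0
  have e1 := Matrix.mul_adjugate T1
  rw [h0, Matrix.mul_zero] at e1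
  have hd : 0 < d' := a.pos
  have e2 := congrFun (congrFun e1 ⟨0, hd⟩) ⟨0, hd⟩
  rw [Matrix.smul_apply, Matrix.one_apply_eq, smul_eq_mul, mul_one] at e2
  exact d1 e2.symm

/-- A nonzero intertwiner from a representation to a spanning one bounds the dimension. -/
lemma Sub.le {r : FreeGroup ι →* GZ d} {t : FreeGroup ι →* GZ d'} (hr : Spn r) (ht : Spn t)
    (h : Sub r t) : d' ≤ d := by
  by_contra hlt
  push Not at hlt
  obtain ⟨T, hT0, hT⟩ := h
  obtain ⟨u, hu0, hu⟩ : ∃ u : Fin d' → ℤ, u ≠ 0 ∧ Tᵀ *ᵥ u = 0 := by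
    by_contra hcon
    push Not at hcon
    have : ∀ u, Tᵀ *ᵥ u = 0 → u = 0 := by
      intro u hu
      by_contra h0
      exact hcon u h0 hu
    exact absurd (le_of_inj this) (by omega)
  rw [mulVec_transpose] at hu
  obtain ⟨N, hN, hsp⟩ := ht
  obtain ⟨a, ha⟩ : ∃ a, u a ≠ 0 := by
    by_contra hcon
    push Not at hcon
    exact hu0 (funext hcon)
  apply hT0
  let f : Matrix (Fin d') (Fin d') ℤ →ₗ[ℤ] (Fin d → ℤ) :=
    { toFun := fun A => u ᵥ* (A * T)
      map_add' := fun A B => by rw [Matrix.add_mul, vecMul_add]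
      map_smul' := fun c A => by rw [Matrix.smul_mul, vecMul_smul]; rfl }
  have hle : Submodule.span ℤ (Set.range fun x => (t x).1) ≤ LinearMap.ker f := by
    rw [Submodule.span_le]
    rintro _ ⟨x, rfl⟩
    show u ᵥ* ((t x).1 * T) = 0
    rw [hT, ← vecMul_vecMul, hu, zero_vecMul]
  ext b k
  have h1 : u ᵥ* ((N • Matrix.single a b (1 : ℤ)) * T) = 0 := hle (hsp a b)
  have h2 := congrFun h1 k
  rw [← vecMul_vecMul, vecMul_smul, smul_vecMul, Pi.smul_apply, Pi.zero_apply] at h2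
  have h3 : (u ᵥ* Matrix.single a b (1 : ℤ)) = Pi.single b (u a) := by
    funext m
    rw [Matrix.vecMul, dotProduct, Finset.sum_eq_single a]
    · rw [Matrix.single_apply, Pi.single_apply]
      by_cases h : b = m
      · subst h; simp
      · rw [if_neg (fun h' => h h'.2), if_neg (Ne.symm h), mul_zero]
    · intro k' _ hk'
      rw [Matrix.single_apply, if_neg (fun h' => hk' h'.1.symm), mul_zero]
    · intro h; exact absurd (Finset.mem_univ a) h
  rw [h3, single_vecMul] at h2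
  rw [smul_eq_mul] at h2
  rcases mul_eq_zero.1 h2 with h4 | h4
  · exact absurd h4 hN
  · rw [Pi.smul_apply, smul_eq_mul] at h4
    rcases mul_eq_zero.1 h4 with h5 | h5
    · exact absurd h5 ha
    · exact h5

end words

end Pool.Agent.V5helper38.RH
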