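import Pool.Agent.V5helper38.RH.Gen

/-!
# Examples of groups with split rational group algebra
-/

set_option autoImplicit false
set_option linter.unusedSectionVars false
set_option linter.unusedVariables false

namespace Pool.Agent.V5helper38.RH

open FreeGroup (of)
open Matrix

section split

variable {G : Type} [Group G] [Fintype G] [DecidableEq G] {k : ℕ} {d : Fin k → ℕ}

/-- A family of integral representations with the regular character splits the group algebra. -/
theorem exists_split (ρ : ∀ j, G →* Matrix (Fin (d j)) (Fin (d j)) ℤ)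
    (h : ∀ g : G, ∑ j, (d j : ℤ) * (ρ j g).trace = if g = 1 then (Fintype.card G : ℤ) else 0) :
    ∃ E : MonoidAlgebra ℚ G ≃ₐ[ℚ] Π j, Matrix (Fin (d j)) (Fin (d j)) ℚ,
      ∀ g j, E (MonoidAlgebra.of ℚ G g) j = cs (ρ j g) := by
  classical
  let σ : G →* Π j, Matrix (Fin (d j)) (Fin (d j)) ℚ :=
    { toFun := fun g j => cs (ρ j g)
      map_one' := by funext j; rw [map_one, map_one]; rfl
      map_mul' := fun g h => by funext j; rw [map_mul, map_mul]; rfl }
  let Ψ : MonoidAlgebra ℚ G →ₐ[ℚ] Π j, Matrix (Fin (d j)) (Fin (d j)) ℚ :=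
    MonoidAlgebra.lift ℚ _ G σ
  have hΨ : ∀ g j, Ψ (MonoidAlgebra.of ℚ G g) j = cs (ρ j g) := by
    intro g j
    show MonoidAlgebra.lift ℚ _ G σ (MonoidAlgebra.of ℚ G g) j = _
    rw [MonoidAlgebra.lift_of]
    rfl
  have hexp : ∀ y : MonoidAlgebra ℚ G, ∀ j, Ψ y j = ∑ g, y.coeff g • cs (ρ j g) := by
    intro y j
    have h2 : y = ∑ g, y.coeff g • MonoidAlgebra.of ℚ G g := by
      apply MonoidAlgebra.coeff_injective
      ext g
      rw [MonoidAlgebra.coeff_sum, Finsupp.finset_sum_apply, Finset.sum_eq_single g]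
      · rw [MonoidAlgebra.coeff_smul, MonoidAlgebra.of_apply, MonoidAlgebra.coeff_single,
          Finsupp.smul_apply, Finsupp.single_eq_same, smul_eq_mul, mul_one]
      · intro g' _ hg'
        rw [MonoidAlgebra.coeff_smul, MonoidAlgebra.of_apply, MonoidAlgebra.coeff_single,
          Finsupp.smul_apply, Finsupp.single_eq_of_ne hg'.symm, smul_zero]
      · intro h; exact absurd (Finset.mem_univ g) h
    conv_lhs => rw [h2]
    rw [map_sum, Finset.sum_apply]
    apply Finset.sum_congr rfl
    intro g _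
    rw [map_smul, Pi.smul_apply, hΨ]
  have htr : ∀ j g, (cs (ρ j g)).trace = ((ρ j g).trace : ℚ) := by
    intro j g
    rw [Matrix.trace, Matrix.trace, Int.cast_sum]
    rfl
  have hcard : (Fintype.card G : ℚ) ≠ 0 := by
    have : 0 < Fintype.card G := Fintype.card_pos
    positivity
  have hinj : Function.Injective Ψ := by
    rw [injective_iff_map_eq_zero]
    intro y hy
    apply MonoidAlgebra.coeff_injective
    ext g0
    have h1 : ∑ j, (d j : ℚ) * (cs (ρ j g0⁻¹) * Ψ y j).trace = 0 := by
      apply Finset.sum_eq_zero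
      intro j _
      rw [hy, Pi.zero_apply, Matrix.mul_zero, Matrix.trace_zero, mul_zero]
    have h2 : ∀ j, (d j : ℚ) * (cs (ρ j g0⁻¹) * Ψ y j).trace =
        ∑ g, y.coeff g * ((d j : ℚ) * ((ρ j (g0⁻¹ * g)).trace : ℚ)) := by
      intro j
      rw [hexp, Matrix.mul_sum, Matrix.trace_sum, Finset.mul_sum]
      apply Finset.sum_congr rfl
      intro g _
      rw [Matrix.mul_smul, Matrix.trace_smul, ← map_mul, ← map_mul, htr, smul_eq_mul]
      ring
    rw [Finset.sum_congr rfl (fun j _ => h2 j), Finset.sum_comm] at h1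
    simp only [← Finset.mul_sum] at h1
    have h3 : ∀ g, ∑ j, (d j : ℚ) * ((ρ j (g0⁻¹ * g)).trace : ℚ) =
        if g = g0 then (Fintype.card G : ℚ) else 0 := by
      intro g
      have h4 := h (g0⁻¹ * g)
      have h5 : (g0⁻¹ * g = 1) = (g = g0) := by
        apply propext
        rw [inv_mul_eq_one]
        exact eq_comm
      simp only [h5] at h4
      have h6 := congrArg (fun z : ℤ => (z : ℚ)) h4
      simp only [Int.cast_sum, Int.cast_mul, Int.cast_natCast] at h6
      rw [h6]
      split_ifs <;> simp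
    rw [Finset.sum_congr rfl (fun g _ => by rw [h3 g]), Finset.sum_eq_single g0] at h1
    · rw [if_pos rfl] at h1
      exact (mul_eq_zero.1 h1).resolve_right hcard
    · intro g _ hg
      rw [if_neg hg, mul_zero]
    · intro h; exact absurd (Finset.mem_univ g0) h
  have hf1 : Module.Finite ℚ (MonoidAlgebra ℚ G) :=
    Module.Finite.equiv (MonoidAlgebra.coeffLinearEquiv (S := ℚ) (M := G) ℚ).symm
  have hrank : Module.finrank ℚ (MonoidAlgebra ℚ G) =
      Module.finrank ℚ (Π j, Matrix (Fin (d j)) (Fin (d j)) ℚ) := by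
    rw [(MonoidAlgebra.coeffLinearEquiv (S := ℚ) (M := G) ℚ).finrank_eq,
      Module.finrank_finsupp_self, Module.finrank_pi_fintype]
    have h4 := h 1
    simp only [map_one, Matrix.trace_one, Fintype.card_fin, if_true] at h4
    have h5 : ∑ j, d j * d j = Fintype.card G := by exact_mod_cast h4
    rw [← h5]
    apply Finset.sum_congr rfl
    intro j _
    rw [Module.finrank_matrix, Fintype.card_fin, Module.finrank_self, mul_one]
  have hsurj : Function.Surjective Ψ :=
    (LinearMap.injective_iff_surjective_of_finrank_eq_finrank (f := Ψ.toLinearMap) hrank).1 hinj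
  exact ⟨AlgEquiv.ofBijective Ψ ⟨hinj, hsurj⟩, fun g j => hΨ g j⟩

end split

/-- A finite generating set contains a generating set with at most `log₂ |G|` elements. -/
theorem exists_small {G : Type} [Group G] [Finite G] (T : Finset G)
    (hT : Subgroup.closure (T : Set G) = ⊤) :
    ∃ T' ⊆ T, Subgroup.closure (T' : Set G) = ⊤ ∧ 2 ^ T'.card ≤ Nat.card G := by
  classical
  -- a generating subset with the least number of elements
  have hex : ∃ m, ∃ T' ⊆ T, Subgroup.closure (T' : Set G) = ⊤ ∧ T'.card = m :=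
    ⟨_, T, subset_rfl, hT, rfl⟩
  obtain ⟨T', h1, h2, h3⟩ := Nat.find_spec hex
  have hmin : ∀ t ∈ T', Subgroup.closure ((T'.erase t : Finset G) : Set G) ≠ ⊤ := by
    intro t ht h4
    have h5 := Nat.find_min' hex ⟨_, (Finset.erase_subset t T').trans h1, h4, rfl⟩
    rw [← h3, Finset.card_erase_of_mem ht] at h5
    have := Finset.card_pos.2 ⟨t, ht⟩
    omega
  refine ⟨T', h1, h2, ?_⟩
  have key : ∀ U : Finset G, U ⊆ T' → 2 ^ U.card ≤ Nat.card (Subgroup.closure (U : Set G)) := by
    intro U
    induction U using Finset.induction_on with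
    | empty => intro _; rw [Finset.card_empty, pow_zero]; exact Nat.card_pos
    | insert t U htU ih =>
      intro hU
      have hUT : U ⊆ T' := (Finset.subset_insert t U).trans hU
      have ht : t ∈ T' := hU (Finset.mem_insert_self t U)
      have hle : Subgroup.closure (U : Set G) ≤ Subgroup.closure ((insert t U : Finset G) : Set G) :=
        Subgroup.closure_mono (by exact_mod_cast Finset.subset_insert t U)
      have hne : Subgroup.closure (U : Set G) ≠ Subgroup.closure ((insert t U : Finset G) : Set G) := by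
        intro heq
        have htm : t ∈ Subgroup.closure (U : Set G) := by
          rw [heq]
          exact Subgroup.subset_closure (by exact_mod_cast Finset.mem_insert_self t U)
        apply hmin t ht
        rw [eq_top_iff, ← h2, Subgroup.closure_le]
        intro x hx
        have hsub : (U : Set G) ⊆ ((T'.erase t : Finset G) : Set G) := by
          intro y hy
          have hy' : y ∈ U := hy
          exact_mod_cast Finset.mem_erase.2 ⟨fun h => htU (by rw [← h]; exact hy'), hUT hy'⟩
        by_cases hxt : x = t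
        · rw [hxt]
          exact Subgroup.closure_mono hsub htm
        · exact Subgroup.subset_closure (by exact_mod_cast Finset.mem_erase.2 ⟨hxt, hx⟩)
      obtain ⟨q, hq⟩ := Subgroup.card_dvd_of_le hle
      have hlt : ¬ Nat.card (Subgroup.closure ((insert t U : Finset G) : Set G)) ≤
          Nat.card (Subgroup.closure (U : Set G)) := fun h =>
        hne (Subgroup.eq_of_le_of_card_ge hle h)
      have hq2 : 2 ≤ q := by
        by_contra hcon
        have : q = 0 ∨ q = 1 := by omega
        rcases this with rfl | rfl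
        · rw [mul_zero] at hq
          exact Nat.card_pos.ne' hq
        · rw [mul_one] at hq
          exact hlt hq.le
      rw [Finset.card_insert_of_notMem htU, pow_succ, hq]
      exact Nat.mul_le_mul (ih hUT) hq2
  have h4 := key T' subset_rfl
  rw [h2, Nat.card_congr (Subgroup.topEquiv (G := G)).toEquiv] at h4
  exact h4

/-- **Small groups.** -/
theorem good_small {n : ℕ} {G : Type} [Group G] [Finite G] {k : ℕ} {d : Fin k → ℕ}
    (E : MonoidAlgebra ℚ G ≃ₐ[ℚ] Π j, Matrix (Fin (d j)) (Fin (d j)) ℚ)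
    (hG : Nat.card G < 2 ^ (n - 1))
    (φ : FreeGroup (Fin n) →* G) (hφ : Function.Surjective φ) : GoodN n φ.ker := by
  refine good_ker E ?_ φ hφ
  intro j T hT
  obtain ⟨T', h1, h2, h3⟩ := exists_small T hT
  have h4 : T'.card < n - 1 := (Nat.pow_lt_pow_iff_right (by norm_num)).1 (lt_of_le_of_lt h3 hG)
  exact ⟨T', h1, by omega, fun g => ⟨g, by rw [h2]; trivial, rfl⟩⟩

section two

/-- The sign. -/
def sgm {k : ℕ} (c : Finset (Fin k)) : (Fin k → ℤˣ) →* ℤˣ where
  toFun := fun g => ∏ i ∈ c, g i
  map_one' := Finset.prod_eq_one fun i _ => rfl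
  map_mul' := fun g h => Finset.prod_mul_distrib

/-- One by one matrices. -/
def m1 : ℤ →* Matrix (Fin 1) (Fin 1) ℤ where
  toFun := fun z => Matrix.of fun _ _ => z
  map_one' := by ext i j; rw [Subsingleton.elim i j]; simp
  map_mul' := fun z w => by ext i j; simp [Matrix.mul_apply]

/-- **Elementary abelian groups.** -/
theorem good_two {n : ℕ} (hn : 3 ≤ n) {k : ℕ} (φ : FreeGroup (Fin n) →* (Fin k → ℤˣ))
    (hφ : Function.Surjective φ) : GoodN n φ.ker := by
  classical
  have hc : Fintype.card (Finset (Fin k)) = 2 ^ k := by rw [Fintype.card_finset, Fintype.card_fin]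
  let ec : Fin (2 ^ k) ≃ Finset (Fin k) := (Fintype.equivFinOfCardEq hc).symm
  let ρ : ∀ j : Fin (2 ^ k), (Fin k → ℤˣ) →* Matrix (Fin 1) (Fin 1) ℤ := fun j =>
    m1.comp ((Units.coeHom ℤ).comp (sgm (ec j)))
  have hρ : ∀ j g, ρ j g = Matrix.of fun _ _ => ((∏ i ∈ ec j, g i : ℤˣ) : ℤ) := fun j g => rfl
  obtain ⟨E, hE⟩ := exists_split (G := Fin k → ℤˣ) (k := 2 ^ k) (d := fun _ => 1) ρ (by
    intro g
    have h1 : ∀ j, ((1 : ℕ) : ℤ) * (ρ j g).trace = ∏ i ∈ ec j, (g i : ℤ) := by
      intro j
      rw [hρ, Nat.cast_one, one_mul, Matrix.trace_fin_one]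
      show ((∏ i ∈ ec j, g i : ℤˣ) : ℤ) = _
      rw [Units.coe_prod]
    rw [Finset.sum_congr rfl (fun j _ => h1 j), Equiv.sum_comp ec
      (fun c : Finset (Fin k) => ∏ i ∈ c, (g i : ℤ))]
    have h2 : ∑ c : Finset (Fin k), ∏ i ∈ c, (g i : ℤ) = ∏ i, (1 + (g i : ℤ)) := by
      rw [Finset.prod_one_add, Finset.powerset_univ]
    rw [h2]
    split_ifs with hg
    · subst hg
      rw [Fintype.card_fun, Fintype.card_fin]
      have : ∀ i : Fin k, (1 : ℤ) + ((1 : Fin k → ℤˣ) i : ℤ) = 2 := fun i => rfl
      rw [Finset.prod_congr rfl (fun i _ => this i), Finset.prod_const, Finset.card_univ,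
        Fintype.card_fin]
      have h3 : Fintype.card ℤˣ = 2 := rfl
      rw [h3]
      push_cast
      rfl
    · obtain ⟨i, hi⟩ : ∃ i, g i ≠ 1 := by
        by_contra hcon
        push Not at hcon
        exact hg (funext hcon)
      apply Finset.prod_eq_zero (Finset.mem_univ i)
      rw [(Int.units_eq_one_or (g i)).resolve_left hi]
      rfl)
  refine good_ker E ?_ φ hφ
  intro j T hT
  have hdep : ∀ g g', sgm (ec j) g = sgm (ec j) g' →
      E (MonoidAlgebra.of ℚ _ g) j = E (MonoidAlgebra.of ℚ _ g') j := by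
    intro g g' h
    rw [hE, hE]
    show cs (m1 ((sgm (ec j) g : ℤˣ) : ℤ)) = cs (m1 ((sgm (ec j) g' : ℤˣ) : ℤ))
    rw [h]
  by_cases hex : ∃ t ∈ T, sgm (ec j) t ≠ 1
  · obtain ⟨t, ht, ht1⟩ := hex
    refine ⟨{t}, Finset.singleton_subset_iff.2 ht, by rw [Finset.card_singleton]; omega,
      fun g => ?_⟩
    by_cases hg : sgm (ec j) g = 1
    · exact ⟨1, one_mem _, hdep _ _ (by rw [map_one, hg])⟩
    · refine ⟨t, Subgroup.subset_closure (by simp), hdep _ _ ?_⟩
      rw [(Int.units_eq_one_or _).resolve_left ht1, (Int.units_eq_one_or _).resolve_left hg]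
  · push Not at hex
    refine ⟨∅, Finset.empty_subset _, by rw [Finset.card_empty]; omega, fun g => ?_⟩
    refine ⟨1, one_mem _, hdep _ _ ?_⟩
    have h1 : (⊤ : Subgroup (Fin k → ℤˣ)) ≤ (sgm (ec j)).ker := by
      rw [← hT, Subgroup.closure_le]
      intro t ht
      exact hex t ht
    have h2 : sgm (ec j) g = 1 := h1 (Subgroup.mem_top g)
    rw [map_one, h2]

end two

section three

/-- The dimensions of the irreducible representations. -/
def d3 : Fin 3 → ℕ := ![1, 1, 2]

/-- The matrix of the standard representation. -/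
def st (g : Equiv.Perm (Fin 3)) : Matrix (Fin 2) (Fin 2) ℤ := Matrix.of fun i j =>
  (if g j.castSucc = i.castSucc then 1 else 0) - (if g 2 = i.castSucc then 1 else 0)

lemma st_one : st 1 = 1 := by decide

lemma st_mul (g h : Equiv.Perm (Fin 3)) : st (g * h) = st g * st h := by
  revert g h
  decide

/-- The standard representation. -/
def sth : Equiv.Perm (Fin 3) →* Matrix (Fin 2) (Fin 2) ℤ where
  toFun := st
  map_one' := st_one
  map_mul' := st_mul

/-- The irreducible representations. -/
def r3 : ∀ j : Fin 3, Equiv.Perm (Fin 3) →* Matrix (Fin (d3 j)) (Fin (d3 j)) ℤ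
  | 0 => m1.comp 1
  | 1 => m1.comp ((Units.coeHom ℤ).comp Equiv.Perm.sign)
  | 2 => sth

lemma r3_char (g : Equiv.Perm (Fin 3)) : ∑ j, (d3 j : ℤ) * (r3 j g).trace =
    if g = 1 then (Fintype.card (Equiv.Perm (Fin 3)) : ℤ) else 0 := by
  revert g
  decide

/-- **The symmetric group of degree three.** -/
theorem good_three {n : ℕ} (hn : 4 ≤ n) (φ : FreeGroup (Fin n) →* Equiv.Perm (Fin 3))
    (hφ : Function.Surjective φ) : GoodN n φ.ker := by
  obtain ⟨E, -⟩ := exists_split r3 r3_char
  refine good_small E ?_ φ hφ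
  have h1 : Nat.card (Equiv.Perm (Fin 3)) = 6 := by
    rw [Nat.card_eq_fintype_card]; rfl
  have h2 : 2 ^ 3 ≤ 2 ^ (n - 1) := Nat.pow_le_pow_right (by norm_num) (by omega)
  rw [h1]
  omega

end three

/-- The subgroup generated by the squares. -/
theorem good_sq {n : ℕ} (hn : 3 ≤ n) :
    GoodN n (Subgroup.closure {x : FreeGroup (Fin n) | ∃ y, x = y * y}) := by
  have h1 := good_two hn (Pool.Agent.V5helper38.CS.Q (Fin n)) Pool.Agent.V5helper38.CS.Q_surj
  rw [Pool.Agent.V5helper38.CS.ker_Q, Pool.Agent.V5helper38.CS.Gm_eq_sq] at h1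
  exact h1

end Pool.Agent.V5helper38.RH
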