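import Pool.Agent.V5helper38.RH.Purify
import Pool.Agent.V5helper38.RH.Comm
import Pool.Agent.R569.CS.Main

/-!
# Families of representations with values in integral matrices
-/

set_option autoImplicit false
set_option linter.unusedSectionVars false
set_option linter.unusedVariables false

namespace Pool.Agent.V5helper38.RH

open FreeGroup (of)
open Matrix
open scoped commutatorElement

/-- A family of surjections to finite groups, invariant under the automorphisms, with integral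
representations. -/
structure Data (ι : Type) where
  I : Type
  [finI : Finite I]
  G : I → Type
  [grp : ∀ i, Group (G i)]
  [ft : ∀ i, Fintype (G i)]
  J : I → Type
  [finJ : ∀ i, Finite (J i)]
  e : ∀ i, J i → ℕ
  ρ : ∀ i (j : J i), G i →* GZ (e i j)
  Φ : ∀ i, Set (FreeGroup ι →* G i)
  surj : ∀ i, ∀ φ ∈ Φ i, Function.Surjective φ
  inv : ∀ i, ∀ φ ∈ Φ i, ∀ θ : MulAut (FreeGroup ι), φ.comp θ.toMonoidHom ∈ Φ i
  span : ∀ i (j : J i), ∃ N : ℤ, N ≠ 0 ∧ ∀ a b, N • Matrix.single a b (1 : ℤ) ∈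
    Submodule.span ℤ (Set.range fun g => (ρ i j g).1)
  inj : ∀ i (c : G i → ℤ), (∀ j, ∑ g, c g • (ρ i j g).1 = 0) → ∀ g, c g = 0
  triv : ∀ i (j : J i), ∀ φ ∈ Φ i, ∃ θ : MulAut (FreeGroup ι), ∃ y1 y2 : ι, y1 ≠ y2 ∧
    ρ i j (φ (θ (of y1))) = 1 ∧ ρ i j (φ (θ (of y2))) = 1

attribute [instance] Data.finI Data.grp Data.ft Data.finJ

namespace Data

variable {ι : Type} (X : Data ι)

/-- The representations. -/
abbrev T := Σ i : X.I, X.J i × {φ : FreeGroup ι →* X.G i // φ ∈ X.Φ i}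

/-- The dimension. -/
def dim (t : X.T) : ℕ := X.e t.1 t.2.1

/-- The representation. -/
def rt (t : X.T) : FreeGroup ι →* GZ (X.dim t) := (X.ρ t.1 t.2.1).comp t.2.2.1

/-- Transport. -/
def ac (t : X.T) (θ : MulAut (FreeGroup ι)) : X.T :=
  ⟨t.1, t.2.1, ⟨t.2.2.1.comp θ.toMonoidHom, X.inv _ _ t.2.2.2 θ⟩⟩

lemma rt_ac (t : X.T) (θ : MulAut (FreeGroup ι)) : X.rt (X.ac t θ) = tr (X.rt t) θ := rfl

/-- The intersection of the kernels. -/
def Gam : Subgroup (FreeGroup ι) := ⨅ i : X.I, ⨅ φ : {φ : FreeGroup ι →* X.G i // φ ∈ X.Φ i}, φ.1.ker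

lemma mem_Gam {x : FreeGroup ι} : x ∈ X.Gam ↔ ∀ i, ∀ φ ∈ X.Φ i, φ x = 1 := by
  unfold Gam
  rw [Subgroup.mem_iInf]
  constructor
  · intro h i φ hφ
    exact (Subgroup.mem_iInf.1 (h i)) ⟨φ, hφ⟩
  · intro h i
    rw [Subgroup.mem_iInf]
    exact fun φ => h i φ.1 φ.2

instance : X.Gam.Characteristic := by
  rw [Subgroup.characteristic_iff_le_comap]
  intro θ x hx
  rw [Subgroup.mem_comap, mem_Gam]
  rw [mem_Gam] at hx
  intro i φ hφ
  exact hx i _ (X.inv i φ hφ θ)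

section fin

variable [Finite ι]

instance finhom (H : Type) [Group H] [Finite H] : Finite (FreeGroup ι →* H) :=
  Finite.of_equiv _ (FreeGroup.lift (α := ι) (β := H))

instance : Finite X.T := by
  unfold T
  infer_instance

instance : X.Gam.FiniteIndex := by
  unfold Gam
  apply Subgroup.finiteIndex_iInf
  intro i
  apply Subgroup.finiteIndex_iInf
  intro φ
  infer_instance

lemma tri (t : X.T) : Tri X.Gam (X.rt t) := by
  intro y hy
  have h1 := X.mem_Gam.1 hy _ _ t.2.2.2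
  show X.ρ t.1 t.2.1 (t.2.2.1 y) = 1
  rw [h1, map_one]

lemma spn (t : X.T) : Spn (X.rt t) := by
  obtain ⟨N, hN, h⟩ := X.span t.1 t.2.1
  refine ⟨N, hN, fun a b => ?_⟩
  have e : (Set.range fun x => (X.rt t x).1) = Set.range fun g => (X.ρ t.1 t.2.1 g).1 := by
    ext A
    constructor
    · rintro ⟨x, rfl⟩; exact ⟨t.2.2.1 x, rfl⟩
    · rintro ⟨g, rfl⟩
      obtain ⟨x, hx⟩ := X.surj _ _ t.2.2.2 g
      refine ⟨x, ?_⟩
      show (X.ρ t.1 t.2.1 (t.2.2.1 x)).1 = _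
      rw [hx]
  rw [e]
  exact h a b

/-- The congruence subgroups. -/
def K (M : ℕ) : Subgroup (FreeGroup ι) :=
  X.Gam ⊓ ⨅ t : X.T, ⨅ f : FreeGroup ι →* Equiv.Perm (Fin (X.dim t) → ZMod M), f.ker

lemma mem_K {M : ℕ} {x : FreeGroup ι} : x ∈ X.K M ↔ x ∈ X.Gam ∧
    ∀ (t : X.T) (f : FreeGroup ι →* Equiv.Perm (Fin (X.dim t) → ZMod M)), f x = 1 := by
  unfold K
  rw [Subgroup.mem_inf, Subgroup.mem_iInf]
  apply and_congr Iff.rfl
  constructor
  · intro h t f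
    exact (Subgroup.mem_iInf.1 (h t)) f
  · intro h t
    rw [Subgroup.mem_iInf]
    exact fun f => h t f

instance (M : ℕ) : (X.K M).Characteristic := by
  rw [Subgroup.characteristic_iff_le_comap]
  intro θ x hx
  rw [Subgroup.mem_comap, mem_K]
  rw [mem_K] at hx
  exact ⟨G_map hx.1 θ, fun t f => hx.2 t (f.comp θ.toMonoidHom)⟩

instance (M : ℕ) [NeZero M] : (X.K M).FiniteIndex := by
  unfold K
  have : (⨅ t : X.T, ⨅ f : FreeGroup ι →* Equiv.Perm (Fin (X.dim t) → ZMod M),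
      f.ker).FiniteIndex := by
    apply Subgroup.finiteIndex_iInf
    intro t
    apply Subgroup.finiteIndex_iInf
    intro φ
    infer_instance
  infer_instance

lemma of_K {M : ℕ} {α : MulAut (FreeGroup ι)} (h : ∀ x, α x * x⁻¹ ∈ X.K M) :
    α ∈ S X.Gam ∧ ∀ t, Cg X.Gam (X.rt t) M α := by
  refine ⟨fun x => (X.mem_K.1 (h x)).1, fun t v y hy a => ?_⟩
  have h1 := PM_ker M ((X.mem_K.1 (h y)).2 t (PM M (X.rt t) v)) a
  have h2 : X.rt t (α y * y⁻¹) = 1 := X.tri t _ (X.mem_K.1 (h y)).1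
  have h3 := D_mul_of v h2 y
  rw [inv_mul_cancel_right] at h3
  rw [h3, Pi.add_apply, add_sub_cancel_right]
  exact h1

lemma hpow (M : ℤ) (hM : M ≠ 0) (q : MulAut (FreeGroup ι)) :
    ∃ k : ℕ, k ≠ 0 ∧ ∀ t, Cg X.Gam (X.rt t) M (q ^ k) := by
  have : NeZero M.natAbs := ⟨by rwa [ne_eq, Int.natAbs_eq_zero]⟩
  have h1 : (R569.CS.act (MonoidHom.id (MulAut (FreeGroup ι))) (X.K M.natAbs)).FiniteIndex :=
    R569.CS.act_finiteIndex _ _
  have h2 : (R569.CS.act (MonoidHom.id (MulAut (FreeGroup ι))) (X.K M.natAbs)).Normal :=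
    R569.CS.act_normal _ _
  refine ⟨_, h1.index_ne_zero, fun t => ?_⟩
  have h3 := Subgroup.pow_index_mem
    (R569.CS.act (MonoidHom.id (MulAut (FreeGroup ι))) (X.K M.natAbs)) q
  exact ((X.of_K (α := q ^ _) (fun x => h3 x)).2 t).dvd (Int.dvd_natAbs.2 dvd_rfl)

variable [DecidableEq ι] {V : Subgroup (MulAut (FreeGroup ι))}

lemma transport (hV : V.Normal) {t : X.T} {θ : MulAut (FreeGroup ι)} {M : ℤ}
    (h : PC X.Gam X.rt V (X.ac t θ) M) : PC X.Gam X.rt V t M := by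
  intro α hα hc
  have h1 : θ⁻¹ * α * θ ∈ S X.Gam := by
    have := S_conj hα θ⁻¹
    rwa [inv_inv] at this
  obtain ⟨β, k1, k2, k3, k4⟩ := h _ h1 (hc.conj θ)
  refine ⟨θ * β * θ⁻¹, hV.conj_mem _ k1 θ, S_conj k2 θ, fun t' ht' => ?_, ?_⟩
  · have h2 : ¬ Sub (X.rt (X.ac t' θ)) (X.rt (X.ac t θ)) := fun h3 => ht' (Sub.of_conj h3)
    have h3 := k3 _ h2
    rw [rt_ac] at h3
    have h4 := h3.conj
    rwa [mul_one, mul_inv_cancel] at h4
  · rw [rt_ac] at k4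
    have h4 := k4.conj
    have e : θ * (θ⁻¹ * α * θ) * θ⁻¹ = α := by group
    rwa [e] at h4

lemma common {P : X.T → Prop} (h : ∀ t, P t → ∃ M : ℤ, M ≠ 0 ∧ PC X.Gam X.rt V t M) :
    ∃ M : ℤ, M ≠ 0 ∧ ∀ t, P t → PC X.Gam X.rt V t M := by
  classical
  have : Fintype X.T := Fintype.ofFinite _
  have h1 : ∀ t, ∃ M : ℤ, M ≠ 0 ∧ (P t → PC X.Gam X.rt V t M) := by
    intro t
    by_cases ht : P t
    · obtain ⟨M, hM, h2⟩ := h t ht
      exact ⟨M, hM, fun _ => h2⟩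
    · exact ⟨1, one_ne_zero, fun h2 => absurd h2 ht⟩
  choose M hM h2 using h1
  refine ⟨∏ t, M t, Finset.prod_ne_zero_iff.2 fun t _ => hM t, fun t ht => ?_⟩
  exact (h2 t ht).dvd (Finset.dvd_prod_of_mem M (Finset.mem_univ t))

/-- two further letters -/
lemma two_more (h4 : 4 ≤ Nat.card ι) (y1 y2 : ι) : ∃ x1 x2 : ι, x1 ≠ x2 ∧ x1 ≠ y1 ∧ x1 ≠ y2 ∧
    x2 ≠ y1 ∧ x2 ≠ y2 := by
  have : Fintype ι := Fintype.ofFinite ι
  rw [Nat.card_eq_fintype_card] at h4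
  have h1 : 2 ≤ (Finset.univ \ ({y1, y2} : Finset ι)).card := by
    have h2 := Finset.le_card_sdiff ({y1, y2} : Finset ι) Finset.univ
    have h3 := Finset.card_le_two (a := y1) (b := y2)
    rw [Finset.card_univ] at h2
    omega
  obtain ⟨x1, hx1, x2, hx2, h12⟩ := Finset.one_lt_card.1 (show 1 < _ from h1)
  rw [Finset.mem_sdiff, Finset.mem_insert, Finset.mem_singleton, not_or] at hx1 hx2
  exact ⟨x1, x2, h12, hx1.2.1, hx1.2.2, hx2.2.1, hx2.2.2⟩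

/-- **The congruence property for all representations.** -/
theorem pc_all (h4 : 4 ≤ Nat.card ι) (hV : V.Normal) {m : ℕ}
    (hm : ∀ φ : MulAut (FreeGroup ι), φ ^ m ∈ V) (hm0 : m ≠ 0) (t : X.T) :
    ∃ M : ℤ, M ≠ 0 ∧ PC X.Gam X.rt V t M := by
  obtain ⟨B, hB⟩ : ∃ B, ∀ t, X.dim t ≤ B := by
    obtain ⟨B, hB⟩ := (Set.finite_range X.dim).bddAbove
    exact ⟨B, fun t => hB ⟨t, rfl⟩⟩
  induction h : B - X.dim t using Nat.strong_induction_on generalizing t with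
  | _ k ih =>
    rcases Nat.eq_zero_or_pos (X.dim t) with hd | hd
    · refine ⟨1, one_ne_zero, fun α hα _ => ⟨1, one_mem _, one_mem _, fun t' _ => Eqv.refl _ _, ?_⟩⟩
      intro v y hy
      funext a
      have := a.2
      omega
    · obtain ⟨θ, y1, y2, h12, h1, h2⟩ := X.triv t.1 t.2.1 _ t.2.2.2
      obtain ⟨x1, x2, hx, h11, h12', h21, h22⟩ := two_more h4 y1 y2
      obtain ⟨M1, hM1, hPC⟩ := X.common (P := fun t' => X.dim t < X.dim t') (V := V) (by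
        intro t' ht'
        apply ih (B - X.dim t') _ t' rfl
        have := hB t'
        omega)
      obtain ⟨M, hM, h3⟩ := step (Γ := X.Gam) (rt := X.rt) X.tri X.spn hV hm hm0
        (fun M hM q _ => X.hpow M hM q) (X.ac t θ) h12 h1 h2 hx h11 h12' h21 h22 hd hM1 hPC
      exact ⟨M, hM, X.transport hV h3⟩

/-- **The linear case.** -/
theorem lin0 (h4 : 4 ≤ Nat.card ι) (V : Subgroup (MulAut (FreeGroup ι))) (hV : V.FiniteIndex)
    (h : ∀ α : MulAut (FreeGroup ι), (∀ i, ∀ φ ∈ X.Φ i, (∀ x, α x * x⁻¹ ∈ φ.ker) ∧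
      ∀ x ∈ φ.ker, α x * x⁻¹ ∈ ⁅φ.ker, φ.ker⁆) → α ∈ V) :
    ∃ M : ℕ, M ≠ 0 ∧ ∀ α ∈ S X.Gam, (∀ t, Cg X.Gam (X.rt t) M α) → α ∈ V := by
  classical
  have hV0 : V.normalCore.FiniteIndex := inferInstance
  have hi0 : V.normalCore.index ≠ 0 := hV0.index_ne_zero
  -- the normal core contains the kernel of the action
  have hcore : ∀ α : MulAut (FreeGroup ι), α ∈ S X.Gam →
      (∀ t, Eqv X.Gam (X.rt t) α 1) → α ∈ V.normalCore := by
    intro α hα h1 θ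
    apply h
    have hS : θ * α * θ⁻¹ ∈ S X.Gam := S_conj hα θ
    have hE : ∀ t, Eqv X.Gam (X.rt t) (θ * α * θ⁻¹) 1 := by
      intro t
      have h2 := h1 (X.ac t θ)
      rw [rt_ac] at h2
      have h3 := h2.conj
      rwa [mul_one, mul_inv_cancel] at h3
    intro i φ hφ
    have hker : ∀ x, (θ * α * θ⁻¹) x * x⁻¹ ∈ φ.ker := fun x => X.mem_Gam.1 (hS x) i φ hφ
    refine ⟨hker, fun x hx => ?_⟩
    apply mem_comm (X.surj i φ hφ) (X.ρ i) (X.inj i) (hker x)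
    intro j v
    have hr : ((X.ρ i j).comp φ) x = 1 := by
      show X.ρ i j (φ x) = 1
      rw [MonoidHom.mem_ker.1 hx, map_one]
    have h2 : Eqv X.Gam ((X.ρ i j).comp φ) (θ * α * θ⁻¹) 1 := hE ⟨i, j, ⟨φ, hφ⟩⟩
    have htri : Tri X.Gam ((X.ρ i j).comp φ) := X.tri ⟨i, j, ⟨φ, hφ⟩⟩
    have h3 := h2.on_ker htri hS (one_mem _) v hr
    have h4 : ((X.ρ i j).comp φ) ((θ * α * θ⁻¹) x) = 1 := by rw [htri.S hS, hr]
    rw [D_mul_of v h4, D_inv_of v hr, h3]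
    exact add_neg_cancel _
  have : Fintype X.T := Fintype.ofFinite _
  obtain ⟨M, hM, hPC⟩ := X.common (P := fun _ => True) (V := V.normalCore) (fun t _ =>
    X.pc_all h4 inferInstance (fun φ => Subgroup.pow_index_mem _ φ) hi0 t)
  refine ⟨M.natAbs, by rwa [ne_eq, Int.natAbs_eq_zero], fun α h1 h2 => ?_⟩
  obtain ⟨q', k1, k2, -, k4, -⟩ := kill (hi := fun _ => True) X.tri X.spn hPC h1
    (fun t _ => (h2 t).dvd (Int.dvd_natAbs.2 dvd_rfl)) Finset.univ (fun t _ => trivial)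
  have h5 := hcore q' k1 (fun t => k4 t (Finset.mem_univ t))
  have h6 := mul_mem h5 k2
  rw [mul_inv_cancel_left] at h6
  exact Subgroup.normalCore_le V h6

theorem lin (h4 : 4 ≤ Nat.card ι) (V : Subgroup (MulAut (FreeGroup ι))) (hV : V.FiniteIndex)
    (h : ∀ α : MulAut (FreeGroup ι), (∀ i, ∀ φ ∈ X.Φ i, (∀ x, α x * x⁻¹ ∈ φ.ker) ∧
      ∀ x ∈ φ.ker, α x * x⁻¹ ∈ ⁅φ.ker, φ.ker⁆) → α ∈ V) :
    ∃ K : Subgroup (FreeGroup ι), K.Characteristic ∧ K.FiniteIndex ∧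
      ∀ α : MulAut (FreeGroup ι), (∀ x, α x * x⁻¹ ∈ K) → α ∈ V := by
  obtain ⟨M, hM, h1⟩ := X.lin0 h4 V hV h
  have : NeZero M := ⟨hM⟩
  refine ⟨X.K M, inferInstance, inferInstance, fun α hα => ?_⟩
  obtain ⟨h2, h3⟩ := X.of_K hα
  exact h1 α h2 h3

/-- The derivations vanish modulo `M` on `[N, N] N ^ M`. -/
lemma D_comm_pow {d : ℕ} {r : FreeGroup ι →* GZ d} {N : Subgroup (FreeGroup ι)}
    (hN : ∀ x ∈ N, r x = 1) {M : ℕ} {z : FreeGroup ι}
    (hz : z ∈ ⁅N, N⁆ ⊔ Subgroup.closure {x | ∃ y ∈ N, x = y ^ M}) (v : ι → Ev d) (a : Fin d) :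
    z ∈ N ∧ (M : ℤ) ∣ D r v z a := by
  let H : Subgroup (FreeGroup ι) :=
    { carrier := {z | z ∈ N ∧ (M : ℤ) ∣ D r v z a}
      one_mem' := ⟨one_mem _, by rw [D_one]; exact dvd_zero _⟩
      mul_mem' := by
        rintro x y ⟨h1, h2⟩ ⟨h3, h4⟩
        refine ⟨mul_mem h1 h3, ?_⟩
        rw [D_mul_of v (hN x h1)]
        exact dvd_add h2 h4
      inv_mem' := by
        rintro x ⟨h1, h2⟩
        refine ⟨inv_mem h1, ?_⟩
        rw [D_inv_of v (hN x h1)]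
        exact h2.neg_right }
  have hle : ⁅N, N⁆ ⊔ Subgroup.closure {x | ∃ y ∈ N, x = y ^ M} ≤ H := by
    refine sup_le ?_ ?_
    · rw [Subgroup.commutator_le]
      intro x hx y hy
      refine ⟨mul_mem (mul_mem (mul_mem hx hy) (inv_mem hx)) (inv_mem hy), ?_⟩
      have e : D r v ⁅x, y⁆ = 0 := by
        rw [commutatorElement_def, D_mul_of v (hN _ (mul_mem (mul_mem hx hy) (inv_mem hx))),
          D_mul_of v (hN _ (mul_mem hx hy)), D_mul_of v (hN x hx), D_inv_of v (hN x hx),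
          D_inv_of v (hN y hy)]
        abel
      rw [e]
      exact dvd_zero _
    · rw [Subgroup.closure_le]
      rintro _ ⟨y, hy, rfl⟩
      refine ⟨pow_mem hy _, ?_⟩
      rw [D_pow v (hN y hy), Pi.smul_apply, nsmul_eq_mul]
      exact Dvd.intro _ rfl
  exact hle hz

/-- The linear case, with explicit congruence subgroups. -/
theorem linM (h4 : 4 ≤ Nat.card ι) (V : Subgroup (MulAut (FreeGroup ι))) (hV : V.FiniteIndex)
    (h : ∀ α : MulAut (FreeGroup ι), (∀ i, ∀ φ ∈ X.Φ i, (∀ x, α x * x⁻¹ ∈ φ.ker) ∧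
      ∀ x ∈ φ.ker, α x * x⁻¹ ∈ ⁅φ.ker, φ.ker⁆) → α ∈ V) :
    ∃ M : ℕ, M ≠ 0 ∧ ∀ α : MulAut (FreeGroup ι), (∀ i, ∀ φ ∈ X.Φ i, ∀ x, α x * x⁻¹ ∈
      ⁅φ.ker, φ.ker⁆ ⊔ Subgroup.closure {x | ∃ y ∈ φ.ker, x = y ^ M}) → α ∈ V := by
  obtain ⟨M, hM, h1⟩ := X.lin0 h4 V hV h
  refine ⟨M, hM, fun α hα => ?_⟩
  have hN : ∀ t : X.T, ∀ x ∈ t.2.2.1.ker, X.rt t x = 1 := by
    intro t x hx
    show X.ρ t.1 t.2.1 (t.2.2.1 x) = 1
    rw [MonoidHom.mem_ker.1 hx, map_one]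
  have hker : ∀ i, ∀ φ ∈ X.Φ i, ∀ x, α x * x⁻¹ ∈ φ.ker := by
    intro i φ hφ x
    have h2 : ⁅φ.ker, φ.ker⁆ ⊔ Subgroup.closure {x | ∃ y ∈ φ.ker, x = y ^ M} ≤ φ.ker := by
      refine sup_le (Subgroup.commutator_le_right _ _) ?_
      rw [Subgroup.closure_le]
      rintro _ ⟨y, hy, rfl⟩
      exact pow_mem hy _
    exact h2 (hα i φ hφ x)
  have hS : α ∈ S X.Gam := fun x => X.mem_Gam.2 fun i φ hφ => hker i φ hφ x
  apply h1 α hS
  intro t v y hy a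
  have h2 := (D_comm_pow (hN t) (hα _ _ t.2.2.2 y) v a).2
  have h3 : X.rt t (α y * y⁻¹) = 1 := hN t _ (hker _ _ t.2.2.2 y)
  have h4 := D_mul_of v h3 y
  rw [inv_mul_cancel_right] at h4
  rw [h4, Pi.add_apply, add_sub_cancel_right]
  exact h2

end fin

end Data

end Pool.Agent.V5helper38.RH
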