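import Pool.Agent.V5helper38.RH.Lam

/-!
# Integral forms of rational representations
-/

set_option autoImplicit false
set_option linter.unusedSectionVars false
set_option linter.unusedVariables false

namespace Pool.Agent.V5helper38.RH

open Matrix

/-- The rational matrix of an integral matrix. -/
def cs {d : ℕ} : Matrix (Fin d) (Fin d) ℤ →+* Matrix (Fin d) (Fin d) ℚ :=
  (Int.castRingHom ℚ).mapMatrix

lemma cs_apply {d : ℕ} (A : Matrix (Fin d) (Fin d) ℤ) (a b : Fin d) : cs A a b = (A a b : ℚ) := rfl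

lemma cs_inj {d : ℕ} : Function.Injective (cs : Matrix (Fin d) (Fin d) ℤ →+* _) := by
  intro A B h
  ext a b
  have := congrFun (congrFun h a) b
  rw [cs_apply, cs_apply] at this
  exact_mod_cast this

lemma cs_single {d : ℕ} (a b : Fin d) : cs (Matrix.single a b (1 : ℤ)) = Matrix.single a b 1 := by
  ext i j
  rw [cs_apply, Matrix.single_apply, Matrix.single_apply]
  split_ifs <;> simp

variable {G : Type} [Group G] [Finite G] {d : ℕ}

/-- **Integral forms.** -/
theorem exists_form (σ : G →* Matrix (Fin d) (Fin d) ℚ) :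
    ∃ (ρ : G →* GZ d) (P Q : Matrix (Fin d) (Fin d) ℚ), P * Q = 1 ∧ Q * P = 1 ∧
      ∀ g, cs (ρ g).1 = Q * σ g * P := by
  let Λ : Submodule ℤ (Fin d → ℚ) :=
    Submodule.span ℤ (Set.range fun p : G × Fin d => σ p.1 *ᵥ Pi.single p.2 1)
  have hmem : ∀ (g : G) (a : Fin d), σ g *ᵥ Pi.single a 1 ∈ Λ := fun g a =>
    Submodule.subset_span ⟨(g, a), rfl⟩
  have hlat : Submodule.IsLattice ℚ Λ := by
    refine ⟨Submodule.fg_span (Set.finite_range _), ?_⟩
    rw [eq_top_iff]
    intro x _
    have hx : x = ∑ a, x a • (Pi.single a 1 : Fin d → ℚ) := by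
      conv_lhs => rw [← Finset.univ_sum_single x]
      apply Finset.sum_congr rfl
      intro a _
      rw [← Pi.single_smul, smul_eq_mul, mul_one]
    rw [hx]
    apply Submodule.sum_mem
    intro a _
    apply Submodule.smul_mem
    apply Submodule.subset_span
    have := hmem 1 a
    rw [map_one, one_mulVec] at this
    exact this
  have hfree : Module.Free ℤ Λ := Submodule.IsLattice.free ℚ Λ
  have hfin : Module.Finite ℤ Λ := Submodule.IsLattice.finite ℚ Λ
  have hrank : Module.finrank ℤ Λ = d := by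
    have := Submodule.IsLattice.finrank_of_pi (K := ℚ) Λ
    rwa [Fintype.card_fin] at this
  let b : Module.Basis (Fin d) ℤ Λ := Module.finBasisOfFinrankEq ℤ Λ hrank
  let bq : Module.Basis (Fin d) ℚ (Fin d → ℚ) := b.extendOfIsLattice ℚ
  have hbq : ∀ k, bq k = (b k).1 := fun k => Module.Basis.extendOfIsLattice_apply ℚ b k
  let P : Matrix (Fin d) (Fin d) ℚ := (Pi.basisFun ℚ (Fin d)).toMatrix bq
  let Q : Matrix (Fin d) (Fin d) ℚ := bq.toMatrix (Pi.basisFun ℚ (Fin d))
  have hPQ : P * Q = 1 := Module.Basis.toMatrix_mul_toMatrix_flip _ _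
  have hQP : Q * P = 1 := Module.Basis.toMatrix_mul_toMatrix_flip _ _
  have hP : ∀ k, P.col k = (b k).1 := by
    intro k
    funext i
    show (Pi.basisFun ℚ (Fin d)).repr (bq k) i = _
    rw [Pi.basisFun_repr, hbq]
  -- stability
  have hst : ∀ (g : G) (x : Fin d → ℚ), x ∈ Λ → σ g *ᵥ x ∈ Λ := by
    intro g x hx
    induction hx using Submodule.span_induction with
    | mem x hx =>
      obtain ⟨p, rfl⟩ := hx
      show σ g *ᵥ (σ p.1 *ᵥ Pi.single p.2 1) ∈ Λ
      rw [mulVec_mulVec, ← map_mul]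
      exact hmem _ _
    | zero => rw [mulVec_zero]; exact zero_mem _
    | add x y _ _ hx hy => rw [mulVec_add]; exact add_mem hx hy
    | smul c x _ hx =>
      rw [mulVec_smul]; exact Submodule.smul_mem _ _ hx
  let Z : G → Matrix (Fin d) (Fin d) ℤ := fun g l k =>
    b.repr ⟨σ g *ᵥ (b k).1, hst g _ (b k).2⟩ l
  have hZ1 : ∀ g, σ g * P = P * cs (Z g) := by
    intro g
    ext i k
    have h1 : (σ g * P) i k = (σ g *ᵥ (b k).1) i := by
      rw [← hP k]; rfl
    have h2 : (P * cs (Z g)) i k = ∑ l, (Z g l k : ℚ) * (b l).1 i := by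
      rw [Matrix.mul_apply]
      apply Finset.sum_congr rfl
      intro l _
      rw [cs_apply, mul_comm, ← hP l]; rfl
    rw [h1, h2]
    have h3 := b.sum_repr ⟨σ g *ᵥ (b k).1, hst g _ (b k).2⟩
    have h4 := congrArg (fun x : Λ => x.1 i) h3
    have hgen : ∀ z : Fin d → ℤ, (∑ l, z l • b l : Λ).1 i = ∑ l, (z l : ℚ) * (b l).1 i := by
      intro z
      have h6 : (∑ l, z l • b l : Λ).1 = ∑ l, z l • (b l).1 := by
        rw [← Submodule.coe_subtype, map_sum]
        rfl
      rw [h6, Finset.sum_apply]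
      apply Finset.sum_congr rfl
      intro l _
      rw [Pi.smul_apply, zsmul_eq_mul]
    have h5 : (∑ l, b.repr ⟨σ g *ᵥ (b k).1, hst g _ (b k).2⟩ l • b l : Λ).1 i =
        ∑ l, (Z g l k : ℚ) * (b l).1 i := hgen _
    rw [← h5]
    exact h4.symm
  have hZ : ∀ g, cs (Z g) = Q * σ g * P := by
    intro g
    rw [Matrix.mul_assoc, hZ1, ← Matrix.mul_assoc, hQP, Matrix.one_mul]
  let Zh : G →* Matrix (Fin d) (Fin d) ℤ :=
    { toFun := Z
      map_one' := by
        apply cs_inj
        rw [hZ, map_one, map_one, Matrix.mul_one, hQP]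
      map_mul' := fun g h => by
        apply cs_inj
        rw [map_mul, hZ, hZ, hZ, map_mul]
        have : Q * σ g * P * (Q * σ h * P) = Q * σ g * (P * Q) * σ h * P := by
          simp only [Matrix.mul_assoc]
        rw [this, hPQ, Matrix.mul_one]
        simp only [Matrix.mul_assoc] }
  exact ⟨Zh.toHomUnits, P, Q, hPQ, hQP, hZ⟩

/-- **Integral forms of the irreducible representations of a group with split rational group
algebra.** -/
theorem exists_forms {k : ℕ} {e : Fin k → ℕ} [Fintype G]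
    (E : MonoidAlgebra ℚ G ≃ₐ[ℚ] Π j : Fin k, Matrix (Fin (e j)) (Fin (e j)) ℚ) :
    ∃ ρ : ∀ j, G →* GZ (e j),
      (∀ j, ∃ N : ℤ, N ≠ 0 ∧ ∀ a b, N • Matrix.single a b (1 : ℤ) ∈
        Submodule.span ℤ (Set.range fun g => (ρ j g).1)) ∧
      (∀ c : G → ℤ, (∀ j, ∑ g, c g • (ρ j g).1 = 0) → ∀ g, c g = 0) ∧
      ∀ j g, E (MonoidAlgebra.of ℚ G g) j = 1 → ρ j g = 1 := by
  classical
  have h1 : ∀ j, ∃ (ρ : G →* GZ (e j)) (P Q : Matrix (Fin (e j)) (Fin (e j)) ℚ),
      P * Q = 1 ∧ Q * P = 1 ∧ ∀ g, cs (ρ g).1 = Q * E (MonoidAlgebra.of ℚ G g) j * P := by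
    intro j
    let σ : G →* Matrix (Fin (e j)) (Fin (e j)) ℚ :=
      { toFun := fun g => E (MonoidAlgebra.of ℚ G g) j
        map_one' := by rw [map_one, map_one]; rfl
        map_mul' := fun g h => by rw [map_mul, map_mul]; rfl }
    exact exists_form σ
  choose ρ P Q hPQ hQP hρ using h1
  have hco : ∀ (c : G → ℚ) (g : G), (∑ g, c g • MonoidAlgebra.of ℚ G g).coeff g = c g := by
    intro c g
    rw [MonoidAlgebra.coeff_sum, Finsupp.finset_sum_apply, Finset.sum_eq_single g]
    · rw [MonoidAlgebra.coeff_smul, MonoidAlgebra.of_apply, MonoidAlgebra.coeff_single,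
        Finsupp.smul_apply, Finsupp.single_eq_same, smul_eq_mul, mul_one]
    · intro g' _ hg'
      rw [MonoidAlgebra.coeff_smul, MonoidAlgebra.of_apply, MonoidAlgebra.coeff_single,
        Finsupp.smul_apply, Finsupp.single_eq_of_ne hg'.symm, smul_zero]
    · intro h; exact absurd (Finset.mem_univ g) h
  have hexp : ∀ y : MonoidAlgebra ℚ G, ∀ j, E y j =
      ∑ g, y.coeff g • E (MonoidAlgebra.of ℚ G g) j := by
    intro y j
    have h2 : y = ∑ g, y.coeff g • MonoidAlgebra.of ℚ G g := by
      apply MonoidAlgebra.coeff_injective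
      ext g
      rw [hco]
    conv_lhs => rw [h2]
    rw [map_sum, Finset.sum_apply]
    apply Finset.sum_congr rfl
    intro g _
    rw [map_smul]; rfl
  refine ⟨ρ, fun j => ?_, fun c hc => ?_, fun j g hg => ?_⟩
  · -- spanning
    let A : AddSubgroup (Matrix (Fin (e j)) (Fin (e j)) ℚ) :=
      (Submodule.span ℤ (Set.range fun g => (ρ j g).1)).toAddSubgroup.map
        (cs : Matrix (Fin (e j)) (Fin (e j)) ℤ →+* _).toAddMonoidHom
    have hA : ∀ a b : Fin (e j), ∃ N : ℤ, N ≠ 0 ∧
        N • (Matrix.single a b 1 : Matrix (Fin (e j)) (Fin (e j)) ℚ) ∈ A := by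
      intro a b
      apply exists_int_mem
      obtain ⟨y, hy⟩ := E.surjective (Pi.single j (P j * Matrix.single a b 1 * Q j))
      have h2 : (Matrix.single a b 1 : Matrix (Fin (e j)) (Fin (e j)) ℚ) =
          ∑ g, y.coeff g • cs (ρ j g).1 := by
        have h3 := hexp y j
        rw [hy, Pi.single_eq_same] at h3
        have h4 : Q j * (P j * Matrix.single a b 1 * Q j) * P j = Matrix.single a b 1 := by
          have : Q j * (P j * Matrix.single a b 1 * Q j) * P j =
              (Q j * P j) * Matrix.single a b 1 * (Q j * P j) := by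
            simp only [Matrix.mul_assoc]
          rw [this, hQP, Matrix.one_mul, Matrix.mul_one]
        rw [← h4, h3, Matrix.mul_sum, Matrix.sum_mul]
        apply Finset.sum_congr rfl
        intro g _
        rw [hρ, Matrix.mul_smul, Matrix.smul_mul]
      rw [h2]
      apply Submodule.sum_mem
      intro g _
      apply Submodule.smul_mem
      apply Submodule.subset_span
      exact ⟨(ρ j g).1, Submodule.subset_span ⟨g, rfl⟩, rfl⟩
    choose N hN hNA using hA
    refine ⟨∏ p : Fin (e j) × Fin (e j), N p.1 p.2,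
      Finset.prod_ne_zero_iff.2 fun p _ => hN p.1 p.2, fun a b => ?_⟩
    obtain ⟨B, hB, hB2⟩ := hNA a b
    have h5 : B = N a b • Matrix.single a b (1 : ℤ) := by
      apply cs_inj
      rw [map_zsmul, cs_single]
      exact hB2
    rw [h5] at hB
    obtain ⟨q, hq⟩ := Finset.dvd_prod_of_mem (fun p : Fin (e j) × Fin (e j) => N p.1 p.2)
      (Finset.mem_univ (a, b))
    rw [hq, mul_comm, mul_smul]
    exact Submodule.smul_mem _ _ hB
  · -- injectivity
    let y : MonoidAlgebra ℚ G := ∑ g, (c g : ℚ) • MonoidAlgebra.of ℚ G g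
    have hy : ∀ g, y.coeff g = (c g : ℚ) := fun g => hco _ g
    have hEy : E y = 0 := by
      funext j
      rw [hexp]
      have h2 := congrArg (fun B => P j * cs B * Q j) (hc j)
      simp only [map_sum, map_zero, Matrix.mul_zero, Matrix.zero_mul, Matrix.mul_sum,
        Matrix.sum_mul] at h2
      rw [Pi.zero_apply, ← h2]
      apply Finset.sum_congr rfl
      intro g _
      rw [map_zsmul, hρ, hy]
      have : P j * (c g • (Q j * E (MonoidAlgebra.of ℚ G g) j * P j)) * Q j =
          c g • ((P j * Q j) * E (MonoidAlgebra.of ℚ G g) j * (P j * Q j)) := by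
        rw [Matrix.mul_smul, Matrix.smul_mul]
        simp only [Matrix.mul_assoc]
      rw [this, hPQ, Matrix.one_mul, Matrix.mul_one, Int.cast_smul_eq_zsmul]
    have hy0 : y = 0 := E.injective (by rw [hEy, map_zero])
    intro g
    have h3 := hy g
    rw [hy0] at h3
    have h4 : (0 : ℚ) = (c g : ℚ) := h3
    exact_mod_cast h4.symm
  · apply Units.ext
    apply cs_inj
    rw [hρ, hg, Matrix.mul_one, hQP, Units.val_one, map_one]

end Pool.Agent.V5helper38.RH
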