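import Pool.Agent.V5helper38.RH.Lam

/-!
# Frames: two letters on which the representation is trivial
-/

set_option autoImplicit false
set_option linter.unusedSectionVars false
set_option linter.unusedVariables false

namespace Pool.Agent.V5helper38.RH

open FreeGroup (of)
open Matrix

variable {ι : Type} [DecidableEq ι] {d : ℕ}

lemma D_kl {r : FreeGroup ι →* GZ d} {j : ι} (hj : r (of j) = 1) {v : ι → Ev d} (hv : v j = 0)
    (x : FreeGroup ι) : D r v (kl j x) = D r v x := by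
  have h := D_unique (r := r) (E := fun x => D r v (kl j x)) (fun x y => by
    rw [map_mul, D_mul, r_kl hj]) x
  rw [h]
  apply D_congr _ rfl
  funext i
  by_cases hi : i = j
  · subst hi
    rw [kl_self, D_one, hv]
  · rw [kl_ne hi, D_of]

/-- Coordinates on the derivations modulo the inner ones. -/
structure Coord (r : FreeGroup ι →* GZ d) (y1 y2 : ι) where
  n : ℕ
  w : Fin n → FreeGroup ι
  a : Fin n → Fin d
  N : ℤ
  vd : Fin n → (ι → Ev d)
  hN : N ≠ 0
  w1 : ∀ l, w l ∈ FJ y1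
  w2 : ∀ l, w l ∈ FJ y2
  rw1 : ∀ l, r (w l) = 1
  vd1 : ∀ l, vd l y1 = 0
  vd2 : ∀ l, vd l y2 = 0
  dual : ∀ k l, D r (vd k) (w l) (a l) = if k = l then N else 0
  K : ∀ v : ι → Ev d, v y1 = 0 → v y2 = 0 → (∀ l, D r v (w l) (a l) = 0) →
    ∀ y, r y = 1 → D r v y = 0

theorem exists_coord [Finite ι] (r : FreeGroup ι →* GZ d) {y1 y2 : ι} (h12 : y1 ≠ y2)
    (h1 : r (of y1) = 1) (h2 : r (of y2) = 1) : Nonempty (Coord r y1 y2) := by
  let I := {p : FreeGroup ι × Fin d // p.1 ∈ FJ y1 ∧ p.1 ∈ FJ y2 ∧ r p.1 = 1}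
  have : Fintype ι := Fintype.ofFinite ι
  obtain ⟨n, f, N, vd, hN, hd, hK⟩ := exists_dual (W := ι → Ev d) (I := I)
    (fun p => (LinearMap.proj p.1.2).comp (DL r p.1.1))
  have hagree : ∀ v : ι → Ev d, ∀ x, x ∈ FJ y1 → x ∈ FJ y2 →
      D r (fun i => if i = y1 ∨ i = y2 then 0 else v i) x = D r v x := by
    intro v x hx1 hx2
    have e1 : D r (fun i => if i = y1 ∨ i = y2 then 0 else v i) x =
        D r (fun i => if i = y2 then 0 else v i) x := by
      apply D_FJ (j := y1) _ hx1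
      intro i hi
      by_cases h : i = y2
      · rw [if_pos (Or.inr h), if_pos h]
      · rw [if_neg (fun h' => h'.elim hi h), if_neg h]
    have e2 : D r (fun i => if i = y2 then 0 else v i) x = D r v x := by
      apply D_FJ (j := y2) _ hx2
      intro i hi
      rw [if_neg hi]
    rw [e1, e2]
  refine ⟨⟨n, fun l => (f l).1.1, fun l => (f l).1.2, N,
    fun k i => if i = y1 ∨ i = y2 then 0 else vd k i, hN, fun l => (f l).2.1,
    fun l => (f l).2.2.1, fun l => (f l).2.2.2, fun l => if_pos (Or.inl rfl),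
    fun l => if_pos (Or.inr rfl), ?_, ?_⟩⟩
  · intro k l
    rw [hagree _ _ (f l).2.1 (f l).2.2.1]
    exact hd k l
  · intro v hv1 hv2 hl y hy
    have e1 : D r v y = D r v (kl y1 (kl y2 y)) := by
      rw [D_kl h1 hv1, D_kl h2 hv2]
    rw [e1]
    funext b
    exact hK v hl ⟨(kl y1 (kl y2 y), b), kl_mem _ _, kl_FJ (kl_mem _ _), by
      rw [r_kl h1, r_kl h2, hy]⟩

/-- There is at least one coordinate besides those of the two letters. -/
theorem Coord.pos {r : FreeGroup ι →* GZ d} {y1 y2 : ι} (C : Coord r y1 y2)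
    {Γ : Subgroup (FreeGroup ι)} [Γ.Normal] [Γ.FiniteIndex] (hr : Tri Γ r) (hd : 0 < d)
    {x1 x2 : ι} (hx : x1 ≠ x2) (h11 : x1 ≠ y1) (h12 : x1 ≠ y2) (h21 : x2 ≠ y1) (h22 : x2 ≠ y2) :
    0 < C.n := by
  by_contra hcon
  have hn : C.n = 0 := by omega
  have hK : ∀ v : ι → Ev d, v y1 = 0 → v y2 = 0 → ∀ y, r y = 1 → D r v y = 0 := by
    intro v h1 h2
    refine C.K v h1 h2 (fun l => ?_)
    have := l.2
    omega
  have : Finite (FreeGroup ι ⧸ Γ) := Subgroup.finite_quotient_of_finiteIndex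
  have : Fintype (FreeGroup ι ⧸ Γ) := Fintype.ofFinite _
  obtain ⟨q, hq⟩ : ∃ q : ℤ, q = (Fintype.card (FreeGroup ι ⧸ Γ) : ℤ) := ⟨_, rfl⟩
  have hq0 : q ≠ 0 := by
    have : 0 < Fintype.card (FreeGroup ι ⧸ Γ) := Fintype.card_pos
    omega
  let cv : (ι → Ev d) → Ev d := fun v => ∑ s : FreeGroup ι ⧸ Γ, D r v s.out
  have key : ∀ v : ι → Ev d, v y1 = 0 → v y2 = 0 → ∀ x,
      (1 - (r x).1) *ᵥ cv v = q • D r v x := by
    intro v h1 h2 x
    have hdep : ∀ z z' : FreeGroup ι, (QuotientGroup.mk z : FreeGroup ι ⧸ Γ) = QuotientGroup.mk z' →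
        D r v z = D r v z' := by
      intro z z' hz
      have h3 := QuotientGroup.eq.1 hz
      have h4 : z' = z * (z⁻¹ * z') := by group
      rw [h4, D_mul, hK v h1 h2 _ (hr _ h3), mulVec_zero, add_zero]
    have e1 : (r x).1 *ᵥ cv v = ∑ s : FreeGroup ι ⧸ Γ, (D r v (x * s.out) - D r v x) := by
      show (r x).1 *ᵥ (∑ s : FreeGroup ι ⧸ Γ, D r v s.out) = _
      rw [Matrix.mulVec_sum]
      apply Finset.sum_congr rfl
      intro s _
      rw [D_mul, add_sub_cancel_left]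
    have e2 : ∑ s : FreeGroup ι ⧸ Γ, D r v (x * s.out) = cv v := by
      show _ = ∑ s : FreeGroup ι ⧸ Γ, D r v s.out
      rw [← Equiv.sum_comp (Equiv.mulLeft (QuotientGroup.mk x : FreeGroup ι ⧸ Γ))
        (fun s : FreeGroup ι ⧸ Γ => D r v s.out)]
      apply Finset.sum_congr rfl
      intro s _
      apply hdep
      show _ = (QuotientGroup.mk ((QuotientGroup.mk x * s).out) : FreeGroup ι ⧸ Γ)
      rw [QuotientGroup.mk_mul, QuotientGroup.out_eq', QuotientGroup.out_eq']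
    rw [sub_mulVec, one_mulVec, e1, Finset.sum_sub_distrib, e2, Finset.sum_const, Finset.card_univ,
      sub_sub_cancel, hq, natCast_zsmul]
  let v1 : Fin d → (ι → Ev d) := fun b => Pi.single x1 (Pi.single b 1)
  let v2 : Fin d → (ι → Ev d) := fun b => Pi.single x2 (Pi.single b 1)
  have hA : (1 - (r (of x1)).1) * (Matrix.of (fun i b => cv (v1 b) i)) =
      q • (1 : Matrix (Fin d) (Fin d) ℤ) := by
    ext i b
    have h3 := congrFun (key (v1 b) (Pi.single_eq_of_ne (Ne.symm h11) _)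
      (Pi.single_eq_of_ne (Ne.symm h12) _) (of x1)) i
    rw [D_of] at h3
    have h4 : v1 b x1 = Pi.single b 1 := Pi.single_eq_same _ _
    rw [h4] at h3
    rw [Matrix.mul_apply, Matrix.smul_apply, Matrix.one_apply]
    rw [Pi.smul_apply, Pi.single_apply] at h3
    exact h3
  have hdet : (1 - (r (of x1)).1).det ≠ 0 := by
    intro h0
    have h3 := congrArg Matrix.det hA
    rw [Matrix.det_mul, h0, zero_mul, Matrix.det_smul, Matrix.det_one, mul_one] at h3
    exact pow_ne_zero _ hq0 h3.symm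
  let b0 : Fin d := ⟨0, hd⟩
  have h5 := key (v2 b0) (Pi.single_eq_of_ne (Ne.symm h21) _)
    (Pi.single_eq_of_ne (Ne.symm h22) _) (of x1)
  rw [D_of] at h5
  have h6 : v2 b0 x1 = 0 := Pi.single_eq_of_ne hx _
  rw [h6, smul_zero] at h5
  have h7 := Matrix.eq_zero_of_mulVec_eq_zero hdet h5
  have h8 := key (v2 b0) (Pi.single_eq_of_ne (Ne.symm h21) _)
    (Pi.single_eq_of_ne (Ne.symm h22) _) (of x2)
  rw [D_of, h7, mulVec_zero] at h8
  have h9 : v2 b0 x2 = Pi.single b0 1 := Pi.single_eq_same _ _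
  rw [h9] at h8
  have h10 := congrFun h8 b0
  rw [Pi.zero_apply, Pi.smul_apply, Pi.single_eq_same, smul_eq_mul, mul_one] at h10
  exact hq0 h10.symm

end Pool.Agent.V5helper38.RH
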