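import Pool.Agent.R569.CS.Main

/-!
# The layers of the lower central series, for an invariant family of normal subgroups
-/

set_option autoImplicit false
set_option linter.unusedSectionVars false
set_option linter.unusedVariables false

namespace Pool.Agent.V5helper38.RH

open scoped commutatorElement
open Pool.Agent.R569.CS (act lay layer lay_succ act_mono act_finiteIndex act_normal mem_act mem_lay)

variable {G : Type} [Group G]

/-- The action of the automorphisms. -/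
abbrev idA (G : Type) [Group G] := MonoidHom.id (MulAut G)

section

variable [Group.FG G] {Ψ : Type} (N : Ψ → Subgroup G) [hN : ∀ ψ, (N ψ).Normal]
  [hf : ∀ ψ, (N ψ).FiniteIndex]

/-- One layer for finitely many normal subgroups. -/
theorem multi [DecidableEq Ψ] (i : ℕ) (V : Subgroup (MulAut G)) (hV : V.FiniteIndex)
    (s : Finset Ψ) : ∀ B : Subgroup (MulAut G),
    (∀ α ∈ B, (∀ ψ ∈ s, α ∈ act (idA G) ((N ψ).lowerCentralSeries (i + 1))) → α ∈ V) →
    ∃ K : Subgroup G, K.Characteristic ∧ K.FiniteIndex ∧ ∀ α ∈ B,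
      (∀ ψ ∈ s, α ∈ lay (idA G) ((N ψ).lowerCentralSeries i)
        ((N ψ).lowerCentralSeries (i + 1))) → α ∈ act (idA G) K → α ∈ V := by
  induction s using Finset.induction_on with
  | empty =>
    intro B hB
    exact ⟨⊤, inferInstance, inferInstance, fun α hα _ _ =>
      hB α hα (fun ψ hψ => absurd hψ (Finset.notMem_empty ψ))⟩
  | insert a s ha ih =>
    intro B hB
    obtain ⟨K1, hc1, hf1, h1⟩ := ih (B ⊓ act (idA G) ((N a).lowerCentralSeries (i + 1)))
      (fun α hα h => hB α hα.1 (fun ψ hψ => by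
        rcases Finset.mem_insert.1 hψ with rfl | hψ
        · exact hα.2
        · exact h ψ hψ))
    let A' : Subgroup (MulAut G) := (B ⊓ ⨅ ψ ∈ s, lay (idA G) ((N ψ).lowerCentralSeries i)
        ((N ψ).lowerCentralSeries (i + 1))) ⊓ act (idA G) K1
    have hA' : ∀ {α : MulAut G}, α ∈ A' ↔ (α ∈ B ∧ ∀ ψ ∈ s, α ∈ lay (idA G)
        ((N ψ).lowerCentralSeries i) ((N ψ).lowerCentralSeries (i + 1))) ∧
        α ∈ act (idA G) K1 := by
      intro α
      show α ∈ (B ⊓ ⨅ ψ ∈ s, lay (idA G) ((N ψ).lowerCentralSeries i)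
        ((N ψ).lowerCentralSeries (i + 1))) ⊓ act (idA G) K1 ↔ _
      rw [Subgroup.mem_inf, Subgroup.mem_inf, Subgroup.mem_iInf]
      constructor
      · rintro ⟨⟨h2, h3⟩, h4⟩
        exact ⟨⟨h2, fun ψ hψ => Subgroup.mem_iInf.1 (h3 ψ) hψ⟩, h4⟩
      · rintro ⟨⟨h2, h3⟩, h4⟩
        exact ⟨⟨h2, fun ψ => Subgroup.mem_iInf.2 fun hψ => h3 ψ hψ⟩, h4⟩
    have hVA : (V.subgroupOf A').FiniteIndex := inferInstance
    obtain ⟨K2, hc2, hf2, h2⟩ := layer A'.subtype (N a) i (V.subgroupOf A') (by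
      intro u hu
      rw [Subgroup.mem_subgroupOf]
      obtain ⟨⟨h3, h4⟩, h5⟩ := hA'.1 u.2
      exact h1 u.1 ⟨h3, hu⟩ h4 h5)
    refine ⟨K1 ⊓ K2, ?_, inferInstance, ?_⟩
    · rw [Subgroup.characteristic_iff_map_eq]
      intro φ
      rw [Subgroup.map_inf_eq _ _ _ φ.injective, Subgroup.characteristic_iff_map_eq.1 hc1,
        Subgroup.characteristic_iff_map_eq.1 hc2]
    · intro α hα h3 h4
      have h5 : α ∈ A' := hA'.2 ⟨⟨hα, fun ψ hψ => h3 ψ (Finset.mem_insert_of_mem hψ)⟩,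
        act_mono inf_le_left h4⟩
      have h6 : (⟨α, h5⟩ : A') ∈ lay A'.subtype ((N a).lowerCentralSeries i)
          ((N a).lowerCentralSeries (i + 1)) := h3 a (Finset.mem_insert_self a s)
      have h7 : (⟨α, h5⟩ : A') ∈ act A'.subtype K2 := act_mono inf_le_right h4
      exact Subgroup.mem_subgroupOf.1 (h2 ⟨h6, h7⟩)

variable (hinv : ∀ ψ (θ : MulAut G), ∃ ψ', N ψ = (N ψ').map θ.toMonoidHom)

include hinv in
lemma lay_conj (i : ℕ) {α : MulAut G} (hα : ∀ ψ, α ∈ lay (idA G) ((N ψ).lowerCentralSeries i)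
    ((N ψ).lowerCentralSeries (i + 1))) (θ : MulAut G) (ψ : Ψ) :
    θ * α * θ⁻¹ ∈ lay (idA G) ((N ψ).lowerCentralSeries i)
      ((N ψ).lowerCentralSeries (i + 1)) := by
  obtain ⟨ψ', h⟩ := hinv ψ θ
  have hm : ∀ j, (N ψ).lowerCentralSeries j = ((N ψ').lowerCentralSeries j).map θ.toMonoidHom := by
    intro j
    rw [h, Subgroup.map_lowerCentralSeries]
  have key : ∀ x, (θ * α * θ⁻¹) x * x⁻¹ = θ (α (θ⁻¹ x) * (θ⁻¹ x)⁻¹) := by
    intro x
    rw [map_mul θ, map_inv θ, MulAut.apply_inv_self]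
    rfl
  refine ⟨fun x => ?_, fun x hx => ?_⟩
  · show (θ * α * θ⁻¹) x * x⁻¹ ∈ _
    rw [hm, key]
    exact ⟨_, (hα ψ').1 _, rfl⟩
  · show (θ * α * θ⁻¹) x * x⁻¹ ∈ _
    rw [hm] at hx
    obtain ⟨y, hy, rfl⟩ := hx
    rw [hm, key]
    refine ⟨_, (hα ψ').2 (θ⁻¹ (θ.toMonoidHom y)) ?_, rfl⟩
    have e : θ⁻¹ (θ.toMonoidHom y) = y := MulAut.inv_apply_self G θ y
    rw [e]
    exact hy

variable [Finite Ψ]

include hinv in
theorem fam_step (i : ℕ) (h : ∀ V : Subgroup (MulAut G), V.FiniteIndex →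
      (∀ α, (∀ ψ, α ∈ lay (idA G) ((N ψ).lowerCentralSeries i)
        ((N ψ).lowerCentralSeries (i + 1))) → α ∈ V) →
      ∃ K : Subgroup G, K.Characteristic ∧ K.FiniteIndex ∧ act (idA G) K ≤ V)
    (V : Subgroup (MulAut G)) (hV : V.FiniteIndex)
    (hVj : ∀ α, (∀ ψ, α ∈ act (idA G) ((N ψ).lowerCentralSeries (i + 1))) → α ∈ V) :
    ∃ K : Subgroup G, K.Characteristic ∧ K.FiniteIndex ∧ act (idA G) K ≤ V := by
  classical
  have : Fintype Ψ := Fintype.ofFinite Ψ
  obtain ⟨K1, hc1, hf1, h1⟩ := multi N i V hV Finset.univ ⊤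
    (fun α _ h => hVj α (fun ψ => h ψ (Finset.mem_univ ψ)))
  let U : Subgroup (MulAut G) := ⨅ ψ, lay (idA G) ((N ψ).lowerCentralSeries i)
        ((N ψ).lowerCentralSeries (i + 1))
  have hU : U.Normal := by
    refine ⟨fun α hα θ => ?_⟩
    have hα' : ∀ ψ, α ∈ lay (idA G) ((N ψ).lowerCentralSeries i)
        ((N ψ).lowerCentralSeries (i + 1)) := Subgroup.mem_iInf.1 hα
    exact Subgroup.mem_iInf.2 (lay_conj N hinv i hα' θ)
  have hA1 : (act (idA G) K1).FiniteIndex := act_finiteIndex (idA G) K1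
  have hfi : ((V ⊓ act (idA G) K1) ⊔ U).FiniteIndex :=
    Subgroup.finiteIndex_of_le (H := V ⊓ act (idA G) K1) le_sup_left
  obtain ⟨K2, hc2, hf2, h2⟩ := h _ hfi (fun α hα =>
    (le_sup_right : U ≤ _) (Subgroup.mem_iInf.2 hα))
  refine ⟨K1 ⊓ K2, ?_, inferInstance, ?_⟩
  · rw [Subgroup.characteristic_iff_map_eq]
    intro φ
    rw [Subgroup.map_inf_eq _ _ _ φ.injective, Subgroup.characteristic_iff_map_eq.1 hc1,
      Subgroup.characteristic_iff_map_eq.1 hc2]
  intro a ha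
  have ha1 : a ∈ act (idA G) K1 := act_mono inf_le_left ha
  have ha2 := h2 (act_mono inf_le_right ha)
  rw [← SetLike.mem_coe, Subgroup.mul_normal] at ha2
  obtain ⟨ν, hν, ι, hι, rfl⟩ := ha2
  have h3 : ι ∈ act (idA G) K1 := by
    have := (act (idA G) K1).mul_mem ((act (idA G) K1).inv_mem hν.2) ha1
    rwa [inv_mul_cancel_left] at this
  exact V.mul_mem hν.1 (h1 ι trivial (fun ψ _ => Subgroup.mem_iInf.1 hι ψ) h3)

include hinv in
/-- **All layers.** -/
theorem fam_all (h : ∀ V : Subgroup (MulAut G), V.FiniteIndex →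
      (∀ α, (∀ ψ, α ∈ lay (idA G) (N ψ) ⁅N ψ, N ψ⁆) → α ∈ V) →
      ∃ K : Subgroup G, K.Characteristic ∧ K.FiniteIndex ∧ act (idA G) K ≤ V) (c : ℕ) :
    ∀ V : Subgroup (MulAut G), V.FiniteIndex →
      (∀ α, (∀ ψ, α ∈ act (idA G) ((N ψ).lowerCentralSeries c)) → α ∈ V) →
      ∃ K : Subgroup G, K.Characteristic ∧ K.FiniteIndex ∧ act (idA G) K ≤ V := by
  have h1 := fam_step N hinv 0 h
  induction c with
  | zero =>
    intro V hV hle
    exact h1 V hV (fun α hα => hle α (fun ψ =>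
      act_mono ((N ψ).lowerCentralSeries_antitone (Nat.zero_le 1)) (hα ψ)))
  | succ n ih =>
    cases n with
    | zero => exact h1
    | succ j =>
      apply fam_step N hinv (j + 1)
      intro V hV hle
      apply ih V hV
      intro α hα
      apply hle α
      intro ψ
      rw [lay_succ]
      exact hα ψ

end

end Pool.Agent.V5helper38.RH
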