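import Pool.Agent.V5helper38.RH.Family
import Pool.Agent.V5helper38.RH.Forms
import Pool.Agent.V5helper38.RH.Layers

/-!
# Assembly
-/

set_option autoImplicit false
set_option linter.unusedSectionVars false
set_option linter.unusedVariables false

namespace Pool.Agent.V5helper38.RH

open FreeGroup (of)
open scoped commutatorElement
open Pool.Agent.R569.CS (act lay)

/-- The condition on a normal subgroup. -/
def GoodN (n : ℕ) (N : Subgroup (FreeGroup (Fin n))) : Prop :=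
  ∃ (_ : N.Normal) (k : ℕ) (d : Fin k → ℕ)
    (E : MonoidAlgebra ℚ (FreeGroup (Fin n) ⧸ N) ≃ₐ[ℚ] Π j, Matrix (Fin (d j)) (Fin (d j)) ℚ),
    ∀ j, ∃ θ : MulAut (FreeGroup (Fin n)), ∃ y1 y2 : Fin n, y1 ≠ y2 ∧
      E (MonoidAlgebra.of ℚ (FreeGroup (Fin n) ⧸ N) (QuotientGroup.mk (θ (of y1)))) j = 1 ∧
      E (MonoidAlgebra.of ℚ (FreeGroup (Fin n) ⧸ N) (QuotientGroup.mk (θ (of y2)))) j = 1

theorem exists_data {n : ℕ} (𝒩 : Set (Subgroup (FreeGroup (Fin n)))) (hfin : 𝒩.Finite)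
    (hidx : ∀ N ∈ 𝒩, N.FiniteIndex) (hgood : ∀ N ∈ 𝒩, GoodN n N) :
    ∃ X : Data (Fin n), (∀ N ∈ 𝒩, ∃ i, ∃ φ ∈ X.Φ i, φ.ker = N) ∧
      ∀ i, ∀ φ ∈ X.Φ i, ∃ N ∈ 𝒩, ∃ θ : MulAut (FreeGroup (Fin n)),
        φ.ker = N.comap θ.toMonoidHom := by
  have hI : Finite {N // N ∈ 𝒩} := hfin.to_subtype
  have h1 : ∀ N : {N // N ∈ 𝒩}, GoodN n N.1 := fun N => hgood N.1 N.2
  choose hn k d E hE using h1
  have hfi : ∀ N : {N // N ∈ 𝒩}, Finite (FreeGroup (Fin n) ⧸ N.1) := fun N => by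
    have := hidx N.1 N.2
    exact Subgroup.finite_quotient_of_finiteIndex
  let ft : ∀ N : {N // N ∈ 𝒩}, Fintype (FreeGroup (Fin n) ⧸ N.1) := fun N => Fintype.ofFinite _
  have h2 := fun N : {N // N ∈ 𝒩} => exists_forms (E N)
  choose ρ hρ1 hρ2 hρ3 using h2
  refine ⟨{
    I := {N // N ∈ 𝒩}
    G := fun N => FreeGroup (Fin n) ⧸ N.1
    J := fun N => Fin (k N)
    e := fun N j => d N j
    ρ := ρ
    Φ := fun N => Set.range fun θ : MulAut (FreeGroup (Fin n)) =>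
      (QuotientGroup.mk' N.1).comp θ.toMonoidHom
    surj := ?_
    inv := ?_
    span := hρ1
    inj := hρ2
    triv := ?_ }, ?_, ?_⟩
  · rintro N _ ⟨θ, rfl⟩
    exact (QuotientGroup.mk'_surjective N.1).comp θ.surjective
  · rintro N _ ⟨θ, rfl⟩ θ'
    exact ⟨θ * θ', rfl⟩
  · rintro N j _ ⟨θ, rfl⟩
    obtain ⟨θ', y1, y2, h12, e1, e2⟩ := hE N j
    refine ⟨θ⁻¹ * θ', y1, y2, h12, ?_, ?_⟩
    · apply hρ3
      show E N (MonoidAlgebra.of ℚ _ (QuotientGroup.mk (θ (θ⁻¹ (θ' (of y1)))))) j = 1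
      rw [MulAut.apply_inv_self]
      exact e1
    · apply hρ3
      show E N (MonoidAlgebra.of ℚ _ (QuotientGroup.mk (θ (θ⁻¹ (θ' (of y2)))))) j = 1
      rw [MulAut.apply_inv_self]
      exact e2
  · intro N hN
    refine ⟨⟨N, hN⟩, _, ⟨1, rfl⟩, ?_⟩
    ext x
    rw [MonoidHom.mem_ker]
    exact QuotientGroup.eq_one_iff x
  · rintro N _ ⟨θ, rfl⟩
    refine ⟨N.1, N.2, θ, ?_⟩
    ext x
    rw [MonoidHom.mem_ker]
    exact QuotientGroup.eq_one_iff (θ x)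

/-- **The linear case for an invariant family.** -/
theorem family_lin {n : ℕ} (h4 : 4 ≤ n) (𝒩 : Set (Subgroup (FreeGroup (Fin n))))
    (hfin : 𝒩.Finite) (hidx : ∀ N ∈ 𝒩, N.FiniteIndex) (hgood : ∀ N ∈ 𝒩, GoodN n N)
    (hinv : ∀ N ∈ 𝒩, ∀ θ : MulAut (FreeGroup (Fin n)), N.map θ.toMonoidHom ∈ 𝒩)
    (V : Subgroup (MulAut (FreeGroup (Fin n)))) (hV : V.FiniteIndex)
    (h : ∀ α : MulAut (FreeGroup (Fin n)),
      (∀ N ∈ 𝒩, (∀ x, α x * x⁻¹ ∈ N) ∧ ∀ x ∈ N, α x * x⁻¹ ∈ ⁅N, N⁆) → α ∈ V) :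
    ∃ M : ℕ, M ≠ 0 ∧ ∀ α : MulAut (FreeGroup (Fin n)), (∀ N ∈ 𝒩, ∀ x, α x * x⁻¹ ∈
      ⁅N, N⁆ ⊔ Subgroup.closure {x | ∃ y ∈ N, x = y ^ M}) → α ∈ V := by
  obtain ⟨X, hX, hX2⟩ := exists_data 𝒩 hfin hidx hgood
  obtain ⟨M, hM, h1⟩ := X.linM (by rw [Nat.card_eq_fintype_card, Fintype.card_fin]; exact h4)
    V hV (fun α hα => h α fun N hN => by
      obtain ⟨i, φ, hφ, hk⟩ := hX N hN
      have h5 := hα i φ hφ
      rw [hk] at h5
      exact h5)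
  refine ⟨M, hM, fun α hα => h1 α fun i φ hφ x => ?_⟩
  obtain ⟨N, hN, θ, hk⟩ := hX2 i φ hφ
  have h2 : φ.ker ∈ 𝒩 := by
    have h3 := hinv N hN θ⁻¹
    have h4 : φ.ker = N.map (θ⁻¹).toMonoidHom := by
      rw [hk]
      ext x
      constructor
      · intro hx
        exact ⟨θ x, hx, MulAut.inv_apply_self _ θ x⟩
      · rintro ⟨y, hy, rfl⟩
        show θ (θ⁻¹ y) ∈ N
        rw [MulAut.apply_inv_self]
        exact hy
    rw [h4]
    exact h3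
  exact hα _ h2 x

/-- **The theorem for an invariant family.** -/
theorem family {n : ℕ} (h4 : 4 ≤ n) (𝒩 : Set (Subgroup (FreeGroup (Fin n)))) (hfin : 𝒩.Finite)
    (hidx : ∀ N ∈ 𝒩, N.FiniteIndex) (hgood : ∀ N ∈ 𝒩, GoodN n N)
    (hinv : ∀ N ∈ 𝒩, ∀ θ : MulAut (FreeGroup (Fin n)), N.map θ.toMonoidHom ∈ 𝒩) (c : ℕ)
    (V : Subgroup (MulAut (FreeGroup (Fin n)))) (hV : V.FiniteIndex)
    (h : ∀ α : MulAut (FreeGroup (Fin n)),
      (∀ N ∈ 𝒩, ∀ x, α x * x⁻¹ ∈ N.lowerCentralSeries c) → α ∈ V) :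
    ∃ K : Subgroup (FreeGroup (Fin n)), K.Characteristic ∧ K.FiniteIndex ∧
      ∀ α : MulAut (FreeGroup (Fin n)), (∀ x, α x * x⁻¹ ∈ K) → α ∈ V := by
  obtain ⟨X, hX, -⟩ := exists_data 𝒩 hfin hidx hgood
  have hI : Finite {N // N ∈ 𝒩} := hfin.to_subtype
  have hN : ∀ N : {N // N ∈ 𝒩}, N.1.Normal := fun N => (hgood N.1 N.2).choose
  have hf : ∀ N : {N // N ∈ 𝒩}, N.1.FiniteIndex := fun N => hidx N.1 N.2
  have hinv' : ∀ (N : {N // N ∈ 𝒩}) (θ : MulAut (FreeGroup (Fin n))),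
      ∃ N' : {N // N ∈ 𝒩}, N.1 = N'.1.map θ.toMonoidHom := by
    intro N θ
    refine ⟨⟨_, hinv N.1 N.2 θ⁻¹⟩, ?_⟩
    show N.1 = (N.1.map (θ⁻¹).toMonoidHom).map θ.toMonoidHom
    rw [Subgroup.map_map]
    have : θ.toMonoidHom.comp (θ⁻¹).toMonoidHom = MonoidHom.id _ := by
      ext x
      show θ (θ⁻¹ _) = _
      rw [MulAut.apply_inv_self]
      rfl
    rw [this, Subgroup.map_id]
  obtain ⟨K, h1, h2, h3⟩ := fam_all (fun N : {N // N ∈ 𝒩} => N.1) hinv' (by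
    intro V hV hle
    obtain ⟨K, h1, h2, h3⟩ := X.lin (by rw [Nat.card_eq_fintype_card, Fintype.card_fin]; exact h4)
      V hV (by
        intro α hα
        apply hle
        intro N
        obtain ⟨i, φ, hφ, hk⟩ := hX N.1 N.2
        have h5 := hα i φ hφ
        rw [hk] at h5
        exact h5)
    exact ⟨K, h1, h2, fun α hα => h3 α hα⟩) c V hV (fun α hα => h α (fun N hN x => hα ⟨N, hN⟩ x))
  exact ⟨K, h1, h2, fun α hα => h3 hα⟩

/-- The version for outer automorphisms. -/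
theorem family_out {n : ℕ} (h4 : 4 ≤ n) (𝒩 : Set (Subgroup (FreeGroup (Fin n))))
    (hfin : 𝒩.Finite)
    (hidx : ∀ N ∈ 𝒩, N.FiniteIndex) (hgood : ∀ N ∈ 𝒩, GoodN n N)
    (hinv : ∀ N ∈ 𝒩, ∀ θ : MulAut (FreeGroup (Fin n)), N.map θ.toMonoidHom ∈ 𝒩) (c : ℕ)
    (V : Subgroup (MulAut (FreeGroup (Fin n)))) (hV : V.FiniteIndex)
    (hinn : ∀ x, MulAut.conj x ∈ V)
    (h : ∀ α : MulAut (FreeGroup (Fin n)),
      (∃ g, ∀ N ∈ 𝒩, ∀ x, α x * (g * x * g⁻¹)⁻¹ ∈ N.lowerCentralSeries c) → α ∈ V) :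
    ∃ K : Subgroup (FreeGroup (Fin n)), K.Characteristic ∧ K.FiniteIndex ∧
      ∀ α : MulAut (FreeGroup (Fin n)),
        (∃ g, ∀ x, α x * (g * x * g⁻¹)⁻¹ ∈ K) → α ∈ V := by
  obtain ⟨K, hK1, hK2, hK3⟩ := family h4 𝒩 hfin hidx hgood hinv c V hV (by
    intro α hα
    apply h
    refine ⟨1, fun N hN x => ?_⟩
    rw [one_mul, inv_one, mul_one]
    exact hα N hN x)
  refine ⟨K, hK1, hK2, ?_⟩
  rintro φ ⟨g, hg⟩
  have h2 : (MulAut.conj g)⁻¹ * φ ∈ V := by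
    apply hK3
    intro x
    have h3 : ((MulAut.conj g)⁻¹ * φ : MulAut _) x * x⁻¹ =
        (MulAut.conj g)⁻¹ (φ x * (g * x * g⁻¹)⁻¹) := by
      rw [MulAut.mul_apply, map_mul, map_inv, MulAut.conj_inv_apply, MulAut.conj_inv_apply]
      group
    rw [h3]
    exact Subgroup.characteristic_iff_le_comap.1 hK1 ((MulAut.conj g)⁻¹) (hg x)
  have h4 := V.mul_mem (hinn g) h2
  rwa [mul_inv_cancel_left] at h4

/-- **The kernels of the surjections to a group generated by few elements.** -/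
theorem good_ker {n : ℕ} {G : Type} [Group G] [Finite G] {k : ℕ} {d : Fin k → ℕ}
    (E : MonoidAlgebra ℚ G ≃ₐ[ℚ] Π j, Matrix (Fin (d j)) (Fin (d j)) ℚ)
    (hgen : ∀ (j : Fin k) (T : Finset G), Subgroup.closure (T : Set G) = ⊤ →
      ∃ T' ⊆ T, T'.card + 2 ≤ n ∧ ∀ g, ∃ g' ∈ Subgroup.closure (T' : Set G),
        E (MonoidAlgebra.of ℚ G g') j = E (MonoidAlgebra.of ℚ G g) j)
    (φ : FreeGroup (Fin n) →* G) (hφ : Function.Surjective φ) : GoodN n φ.ker := by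
  classical
  let e : FreeGroup (Fin n) ⧸ φ.ker ≃* G := QuotientGroup.quotientKerEquivOfSurjective φ hφ
  have he : ∀ x, e (QuotientGroup.mk x) = φ x := fun x => rfl
  let E' : MonoidAlgebra ℚ (FreeGroup (Fin n) ⧸ φ.ker) ≃ₐ[ℚ]
      Π j, Matrix (Fin (d j)) (Fin (d j)) ℚ := (MonoidAlgebra.domCongr ℚ ℚ e).trans E
  have hE' : ∀ x, E' (MonoidAlgebra.of ℚ _ (QuotientGroup.mk x)) = E (MonoidAlgebra.of ℚ G (φ x)) := by
    intro x
    show E (MonoidAlgebra.domCongr ℚ ℚ e _) = _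
    rw [MonoidAlgebra.of_apply, MonoidAlgebra.domCongr_single, he]
    rfl
  refine ⟨inferInstance, k, d, E', fun j => ?_⟩
  have hT : Subgroup.closure ((Finset.univ.image fun i => φ (of i) : Finset G) : Set G) = ⊤ := by
    rw [Finset.coe_image, Finset.coe_univ, Set.image_univ, eq_top_iff]
    rintro g -
    obtain ⟨x, rfl⟩ := hφ g
    induction x using FreeGroup.induction_on with
    | C1 => rw [map_one]; exact one_mem _
    | of i => exact Subgroup.subset_closure ⟨i, rfl⟩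
    | inv_of i h => rw [map_inv]; exact inv_mem h
    | mul x y hx hy => rw [map_mul]; exact mul_mem hx hy
  obtain ⟨T', hT', hcard, hg⟩ := hgen j _ hT
  have hch : ∀ t : G, ∃ i : Fin n, t ∈ T' → φ (of i) = t := by
    intro t
    by_cases ht : t ∈ T'
    · obtain ⟨i, -, hi⟩ := Finset.mem_image.1 (hT' ht)
      exact ⟨i, fun _ => hi⟩
    · have h0 : 0 < n := by omega
      exact ⟨⟨0, h0⟩, fun h => absurd h ht⟩
  choose f hf using hch
  let I' : Finset (Fin n) := T'.image f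
  have hI' : I'.card + 2 ≤ n := le_trans (Nat.add_le_add_right Finset.card_image_le 2) hcard
  have h1 : 2 ≤ (Finset.univ \ I').card := by
    have h2 := Finset.le_card_sdiff I' Finset.univ
    rw [Finset.card_univ, Fintype.card_fin] at h2
    omega
  obtain ⟨y1, hy1, y2, hy2, h12⟩ := Finset.one_lt_card.1 (show 1 < _ from h1)
  rw [Finset.mem_sdiff] at hy1 hy2
  have hlift : ∀ g' ∈ Subgroup.closure (T' : Set G), ∃ w : FreeGroup (Fin n), φ w = g' ∧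
      w ∈ FJ y1 ∧ w ∈ FJ y2 := by
    intro g' hg'
    induction hg' using Subgroup.closure_induction with
    | mem t ht =>
      have ht' : f t ∈ I' := Finset.mem_image_of_mem f ht
      refine ⟨of (f t), hf t ht, of_FJ fun h => hy1.2 (h ▸ ht'), of_FJ fun h => hy2.2 (h ▸ ht')⟩
    | one => exact ⟨1, map_one _, one_mem _, one_mem _⟩
    | mul a b _ _ ha hb =>
      obtain ⟨w, h1, h2, h3⟩ := ha
      obtain ⟨w', h1', h2', h3'⟩ := hb
      exact ⟨w * w', by rw [map_mul, h1, h1'], mul_mem h2 h2', mul_mem h3 h3'⟩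
    | inv a _ ha =>
      obtain ⟨w, h1, h2, h3⟩ := ha
      exact ⟨w⁻¹, by rw [map_inv, h1], inv_mem h2, inv_mem h3⟩
  have hone : ∀ a b : G, E (MonoidAlgebra.of ℚ G b) j = E (MonoidAlgebra.of ℚ G a) j →
      E (MonoidAlgebra.of ℚ G (a * b⁻¹)) j = 1 := by
    intro a b hab
    rw [map_mul, map_mul, Pi.mul_apply, ← hab, ← Pi.mul_apply, ← map_mul, ← map_mul,
      mul_inv_cancel, map_one, map_one, Pi.one_apply]
  obtain ⟨g1, hg1, hg1'⟩ := hg (φ (of y1))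
  obtain ⟨g2, hg2, hg2'⟩ := hg (φ (of y2))
  obtain ⟨w1, a1, a2, a3⟩ := hlift g1 hg1
  obtain ⟨w2, b1, b2, b3⟩ := hlift g2 hg2
  refine ⟨Ea y1 w1⁻¹ (inv_mem a2) * Ea y2 w2⁻¹ (inv_mem b3), y1, y2, h12, ?_, ?_⟩
  · rw [MulAut.mul_apply, Ea_ne h12, Ea_self, hE', map_mul, map_inv, a1]
    exact hone _ _ hg1'
  · rw [MulAut.mul_apply, Ea_self, map_mul, Ea_ne (Ne.symm h12)]
    have : Ea y1 w1⁻¹ (inv_mem a2) w2⁻¹ = w2⁻¹ := eh_FJ (inv_mem b2) _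
    rw [this, hE', map_mul, map_inv, b1]
    exact hone _ _ hg2'

end Pool.Agent.V5helper38.RH
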