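import Pool.Agent.V5helper38.RH.Der

/-!
# Automorphisms acting trivially modulo a characteristic subgroup and their action on derivations
-/

set_option autoImplicit false
set_option linter.unusedSectionVars false
set_option linter.unusedVariables false

namespace Pool.Agent.V5helper38.RH

open FreeGroup (of)
open Matrix

variable {ι : Type} {d d' : ℕ}

/-- The representation is trivial on `Γ`. -/
def Tri (Γ : Subgroup (FreeGroup ι)) (r : FreeGroup ι →* GZ d) : Prop := ∀ y ∈ Γ, r y = 1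

lemma Tri.eq {Γ : Subgroup (FreeGroup ι)} {r : FreeGroup ι →* GZ d} (h : Tri Γ r)
    {x y : FreeGroup ι} (hxy : x * y⁻¹ ∈ Γ) : r x = r y := by
  have := h _ hxy
  rwa [map_mul, map_inv, mul_inv_eq_one] at this

section

variable (Γ : Subgroup (FreeGroup ι)) [hΓ : Γ.Characteristic]

/-- The automorphisms acting trivially modulo `Γ`. -/
def S : Subgroup (MulAut (FreeGroup ι)) where
  carrier := {α | ∀ x, α x * x⁻¹ ∈ Γ}
  one_mem' := fun x => by
    show (x * x⁻¹) ∈ Γ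
    rw [mul_inv_cancel]; exact one_mem _
  mul_mem' := by
    intro α β ha hb x
    have h1 := mul_mem (ha (β x)) (hb x)
    have h2 : α (β x) * (β x)⁻¹ * (β x * x⁻¹) = α (β x) * x⁻¹ := by group
    rw [h2] at h1
    exact h1
  inv_mem' := by
    intro α ha x
    have h1 := inv_mem (ha (α⁻¹ x))
    rw [MulAut.apply_inv_self] at h1
    have h2 : (x * (α⁻¹ x)⁻¹)⁻¹ = α⁻¹ x * x⁻¹ := by group
    rw [h2] at h1
    exact h1

variable {Γ}

lemma mem_S {α : MulAut (FreeGroup ι)} : α ∈ S Γ ↔ ∀ x, α x * x⁻¹ ∈ Γ := Iff.rfl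

lemma G_map {y : FreeGroup ι} (h : y ∈ Γ) (θ : MulAut (FreeGroup ι)) : θ y ∈ Γ :=
  (Subgroup.characteristic_iff_le_comap.1 hΓ θ) h

lemma S_conj {α : MulAut (FreeGroup ι)} (h : α ∈ S Γ) (θ : MulAut (FreeGroup ι)) :
    θ * α * θ⁻¹ ∈ S Γ := by
  intro x
  have h1 := G_map (h (θ⁻¹ x)) θ
  rw [map_mul, map_inv, MulAut.apply_inv_self] at h1
  exact h1

instance : (S Γ).Normal := ⟨fun _ h θ => S_conj h θ⟩

lemma Tri.S {r : FreeGroup ι →* GZ d} (h : Tri Γ r) {α : MulAut (FreeGroup ι)} (hα : α ∈ S Γ)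
    (x : FreeGroup ι) : r (α x) = r x := h.eq (hα x)

lemma Tri.tr {r : FreeGroup ι →* GZ d} (h : Tri Γ r) {α : MulAut (FreeGroup ι)} (hα : α ∈ RH.S Γ) :
    tr r α = r := MonoidHom.ext fun x => h.S hα x

lemma Tri.conj {r : FreeGroup ι →* GZ d} (h : Tri Γ r) (θ : MulAut (FreeGroup ι)) :
    Tri Γ (RH.tr r θ) := fun y hy => h _ (G_map hy θ)

lemma D_S {r : FreeGroup ι →* GZ d} (h : Tri Γ r) {α : MulAut (FreeGroup ι)} (hα : α ∈ S Γ)
    (v : ι → Ev d) (x : FreeGroup ι) : D r v (α x) = D r (tv r α v) x := by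
  rw [← D_tv r α v x, h.tr hα]

lemma tv_mul {r : FreeGroup ι →* GZ d} (h : Tri Γ r) {α : MulAut (FreeGroup ι)} (hα : α ∈ S Γ)
    (β : MulAut (FreeGroup ι)) (v : ι → Ev d) : tv r (α * β) v = tv r β (tv r α v) :=
  funext fun i => D_S h hα v (β (of i))

lemma tv_one (r : FreeGroup ι →* GZ d) (v : ι → Ev d) : tv r 1 v = v :=
  funext fun i => D_of r v i

variable (Γ) in
/-- `α` and `β` act in the same way on the restrictions of the derivations to `Γ`. -/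
def Eqv (r : FreeGroup ι →* GZ d) (α β : MulAut (FreeGroup ι)) : Prop :=
  ∀ (v : ι → Ev d), ∀ y ∈ Γ, D r v (α y) = D r v (β y)

lemma Eqv.symm {r : FreeGroup ι →* GZ d} {α β : MulAut (FreeGroup ι)} (h : Eqv Γ r α β) :
    Eqv Γ r β α := fun v y hy => (h v y hy).symm

lemma Eqv.refl (r : FreeGroup ι →* GZ d) (α : MulAut (FreeGroup ι)) : Eqv Γ r α α :=
  fun _ _ _ => rfl

lemma Eqv.trans {r : FreeGroup ι →* GZ d} {α β γ : MulAut (FreeGroup ι)} (h : Eqv Γ r α β)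
    (h' : Eqv Γ r β γ) : Eqv Γ r α γ := fun v y hy => (h v y hy).trans (h' v y hy)

lemma Eqv.mul {r : FreeGroup ι →* GZ d} (hr : Tri Γ r) {α β α' β' : MulAut (FreeGroup ι)}
    (h : Eqv Γ r α β) (hβ : β ∈ S Γ) (h' : Eqv Γ r α' β') : Eqv Γ r (α * α') (β * β') := by
  intro v y hy
  rw [MulAut.mul_apply, MulAut.mul_apply, h v _ (G_map hy α'), D_S hr hβ, D_S hr hβ,
    h' _ y hy]

lemma Eqv.inv {r : FreeGroup ι →* GZ d} (hr : Tri Γ r) {α β : MulAut (FreeGroup ι)}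
    (hα : α ∈ S Γ) (h : Eqv Γ r α β) (hβ : β ∈ S Γ) : Eqv Γ r α⁻¹ β⁻¹ := by
  have h1 : Eqv Γ r (α⁻¹ * α) (α⁻¹ * β) := (Eqv.refl r α⁻¹).mul hr (inv_mem hα) h
  have h2 := h1.mul hr (mul_mem (inv_mem hα) hβ) (Eqv.refl r β⁻¹)
  have e1 : α⁻¹ * α * β⁻¹ = β⁻¹ := by group
  have e2 : α⁻¹ * β * β⁻¹ = α⁻¹ := by group
  rw [e1, e2] at h2
  exact h2.symm

lemma Eqv.pow_one {r : FreeGroup ι →* GZ d} (hr : Tri Γ r) {α : MulAut (FreeGroup ι)}
    (h : Eqv Γ r α 1) (n : ℕ) : Eqv Γ r (α ^ n) 1 := by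
  induction n with
  | zero => rw [pow_zero]; exact Eqv.refl _ _
  | succ n ih =>
    have := ih.mul hr (one_mem _) h
    rwa [mul_one, ← pow_succ] at this

/-- transport of the relation. -/
lemma Eqv.conj {r : FreeGroup ι →* GZ d} {α β θ : MulAut (FreeGroup ι)}
    (h : Eqv Γ (tr r θ) α β) : Eqv Γ r (θ * α * θ⁻¹) (θ * β * θ⁻¹) := by
  intro v y hy
  rw [MulAut.mul_apply, MulAut.mul_apply, MulAut.mul_apply, MulAut.mul_apply, ← D_tv r θ v,
    ← D_tv r θ v]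
  exact h _ _ (G_map hy _)

/-- Intertwining. -/
lemma Eqv.twine {r : FreeGroup ι →* GZ d} {r' : FreeGroup ι →* GZ d'}
    {T : Matrix (Fin d') (Fin d) ℤ} (hT : ∀ x, (r' x).1 * T = T * (r x).1)
    (hinj : ∀ v, T *ᵥ v = 0 → v = 0) {α β : MulAut (FreeGroup ι)} (h : Eqv Γ r' α β) :
    Eqv Γ r α β := by
  intro v y hy
  have h1 := h (fun i => T *ᵥ v i) y hy
  rw [← D_twine hT, ← D_twine hT, ← sub_eq_zero, ← mulVec_sub] at h1
  exact sub_eq_zero.1 (hinj _ h1)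

variable (Γ) in
/-- `α` acts trivially modulo `M` on the restrictions of the derivations to `Γ`. -/
def Cg (r : FreeGroup ι →* GZ d) (M : ℤ) (α : MulAut (FreeGroup ι)) : Prop :=
  ∀ (v : ι → Ev d), ∀ y ∈ Γ, ∀ a, M ∣ D r v (α y) a - D r v y a

lemma Cg.mul {r : FreeGroup ι →* GZ d} {M : ℤ} {α β : MulAut (FreeGroup ι)} (h : Cg Γ r M α)
    (h' : Cg Γ r M β) : Cg Γ r M (α * β) := by
  intro v y hy a
  have h1 := dvd_add (h v _ (G_map hy β) a) (h' v y hy a)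
  rw [MulAut.mul_apply]
  have e : D r v (α (β y)) a - D r v (β y) a + (D r v (β y) a - D r v y a) =
      D r v (α (β y)) a - D r v y a := by ring
  rwa [e] at h1

lemma Cg.inv {r : FreeGroup ι →* GZ d} {M : ℤ} {α : MulAut (FreeGroup ι)} (h : Cg Γ r M α) :
    Cg Γ r M α⁻¹ := by
  intro v y hy a
  have h1 := (h v _ (G_map hy α⁻¹) a).neg_right
  rw [MulAut.apply_inv_self] at h1
  rwa [neg_sub] at h1

lemma Cg.one (r : FreeGroup ι →* GZ d) (M : ℤ) : Cg Γ r M 1 := by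
  intro v y hy a
  rw [MulAut.one_apply, sub_self]
  exact dvd_zero _

lemma Cg.of_eqv {r : FreeGroup ι →* GZ d} {M : ℤ} {α β : MulAut (FreeGroup ι)}
    (h : Cg Γ r M α) (h' : Eqv Γ r β α) : Cg Γ r M β := by
  intro v y hy a
  rw [h' v y hy]
  exact h v y hy a

lemma Cg.dvd {r : FreeGroup ι →* GZ d} {M M' : ℤ} {α : MulAut (FreeGroup ι)}
    (h : Cg Γ r M α) (h' : M' ∣ M) : Cg Γ r M' α := fun v y hy a => h'.trans (h v y hy a)

lemma tr_tr (r : FreeGroup ι →* GZ d) (θ : MulAut (FreeGroup ι)) : tr (tr r θ) θ⁻¹ = r := by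
  refine MonoidHom.ext fun x => ?_
  show r (θ (θ⁻¹ x)) = r x
  rw [MulAut.apply_inv_self]

lemma Cg.conj {r : FreeGroup ι →* GZ d} {M : ℤ} {α : MulAut (FreeGroup ι)}
    (h : Cg Γ r M α) (θ : MulAut (FreeGroup ι)) : Cg Γ (tr r θ) M (θ⁻¹ * α * θ) := by
  intro v y hy a
  have key : ∀ z, D (tr r θ) v z = D r (tv (tr r θ) θ⁻¹ v) (θ z) := by
    intro z
    have h1 := D_tv (tr r θ) θ⁻¹ v (θ z)
    rw [tr_tr, MulAut.inv_apply_self] at h1
    exact h1.symm
  rw [key, key, MulAut.mul_apply, MulAut.mul_apply, MulAut.apply_inv_self]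
  exact h _ _ (G_map hy θ) a

end

/-- The matrices of the representation span the matrix algebra. -/
def Spn (r : FreeGroup ι →* GZ d) : Prop :=
  ∃ N : ℤ, N ≠ 0 ∧ ∀ a b, N • Matrix.single a b (1 : ℤ) ∈
    Submodule.span ℤ (Set.range fun x => (r x).1)

lemma Spn.conj {r : FreeGroup ι →* GZ d} (h : Spn r) (θ : MulAut (FreeGroup ι)) :
    Spn (tr r θ) := by
  obtain ⟨N, hN, h⟩ := h
  refine ⟨N, hN, fun a b => ?_⟩
  have e : (Set.range fun x => (tr r θ x).1) = Set.range fun x => (r x).1 := by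
    ext A
    constructor
    · rintro ⟨x, rfl⟩; exact ⟨θ x, rfl⟩
    · rintro ⟨x, rfl⟩
      refine ⟨θ⁻¹ x, ?_⟩
      show (r (θ (θ⁻¹ x))).1 = _
      rw [MulAut.apply_inv_self]
  rw [e]
  exact h a b

lemma Spn.zero_of {r : FreeGroup ι →* GZ d} (h : Spn r) {T : Matrix (Fin d') (Fin d) ℤ}
    {v : Ev d} (hv : v ≠ 0) (hT : ∀ x, T *ᵥ ((r x).1 *ᵥ v) = 0) : T = 0 := by
  obtain ⟨N, hN, h⟩ := h
  obtain ⟨b, hb⟩ : ∃ b, v b ≠ 0 := by
    by_contra hcon
    push Not at hcon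
    exact hv (funext hcon)
  let f : Matrix (Fin d) (Fin d) ℤ →ₗ[ℤ] (Fin d' → ℤ) :=
    { toFun := fun A => T *ᵥ (A *ᵥ v)
      map_add' := fun A B => by rw [add_mulVec, mulVec_add]
      map_smul' := fun c A => by rw [smul_mulVec, mulVec_smul]; rfl }
  have hle : Submodule.span ℤ (Set.range fun x => (r x).1) ≤ LinearMap.ker f := by
    rw [Submodule.span_le]
    rintro _ ⟨x, rfl⟩
    exact hT x
  ext k a
  have h1 : T *ᵥ ((N • Matrix.single a b (1 : ℤ)) *ᵥ v) = 0 := hle (h a b)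
  have h2 := congrFun h1 k
  rw [smul_mulVec, mulVec_smul, Matrix.single_mulVec, Pi.smul_apply, Pi.zero_apply] at h2
  have h3 : (T *ᵥ Function.update (0 : Fin d → ℤ) a (1 * v b)) k = T k a * v b := by
    have : Function.update (0 : Fin d → ℤ) a (1 * v b) = Pi.single a (v b) := by
      rw [one_mul]; rfl
    rw [this, mulVec_single]
    simp
  rw [h3, smul_eq_mul] at h2
  rcases mul_eq_zero.1 h2 with h4 | h4
  · exact absurd h4 hN
  · rcases mul_eq_zero.1 h4 with h5 | h5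
    · exact h5
    · exact absurd h5 hb

/-- Schur's lemma. -/
lemma Spn.scalar {r : FreeGroup ι →* GZ d} (h : Spn r) {A : Matrix (Fin d) (Fin d) ℤ}
    (hA : ∀ x, (r x).1 * A = A * (r x).1) : ∃ c : ℤ, A = c • (1 : Matrix (Fin d) (Fin d) ℤ) := by
  obtain ⟨N, hN, h⟩ := h
  rcases Nat.eq_zero_or_pos d with hd | hd
  · subst hd
    exact ⟨0, Subsingleton.elim _ _⟩
  let f : Matrix (Fin d) (Fin d) ℤ →ₗ[ℤ] Matrix (Fin d) (Fin d) ℤ :=
    { toFun := fun B => B * A - A * B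
      map_add' := fun B C => by rw [add_mul, mul_add]; abel
      map_smul' := fun c B => by
        rw [Matrix.smul_mul, Matrix.mul_smul, ← smul_sub]; rfl }
  have hle : Submodule.span ℤ (Set.range fun x => (r x).1) ≤ LinearMap.ker f := by
    rw [Submodule.span_le]
    rintro _ ⟨x, rfl⟩
    exact sub_eq_zero.2 (hA x)
  have h1 : ∀ a b, Matrix.single a b (1 : ℤ) * A = A * Matrix.single a b 1 := by
    intro a b
    have h2 : (N • Matrix.single a b (1 : ℤ)) * A - A * (N • Matrix.single a b (1 : ℤ)) = 0 :=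
      hle (h a b)
    rw [Matrix.smul_mul, Matrix.mul_smul, ← smul_sub] at h2
    rcases smul_eq_zero.1 h2 with h3 | h3
    · exact absurd h3 hN
    · exact sub_eq_zero.1 h3
  let a0 : Fin d := ⟨0, hd⟩
  refine ⟨A a0 a0, ?_⟩
  ext k l
  -- compare entries of `E_{a0 k} A = A E_{a0 k}`
  have h2 := congrFun (congrFun (h1 a0 k) a0) l
  rw [Matrix.single_mul_apply_same, one_mul] at h2
  rw [h2, Matrix.smul_apply, Matrix.one_apply]
  by_cases hkl : k = l
  · subst hkl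
    rw [Matrix.mul_single_apply_same, if_pos rfl, mul_one, smul_eq_mul, mul_one]
  · rw [Matrix.mul_single_apply_of_ne _ _ _ _ _ (Ne.symm hkl), if_neg hkl, smul_zero]

/-- `r'` contains a copy of `r`: there is a nonzero intertwiner from `r` to `r'`. -/
def Sub (r : FreeGroup ι →* GZ d) (r' : FreeGroup ι →* GZ d') : Prop :=
  ∃ T : Matrix (Fin d') (Fin d) ℤ, T ≠ 0 ∧ ∀ x, (r' x).1 * T = T * (r x).1

lemma Sub.eqv {Γ : Subgroup (FreeGroup ι)} [Γ.Characteristic] {r : FreeGroup ι →* GZ d}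
    {r' : FreeGroup ι →* GZ d'} (hr : Spn r) (h : Sub r r') {α β : MulAut (FreeGroup ι)}
    (h' : Eqv Γ r' α β) : Eqv Γ r α β := by
  obtain ⟨T, hT0, hT⟩ := h
  refine h'.twine hT ?_
  intro v hv
  by_contra hv0
  apply hT0
  apply hr.zero_of hv0
  intro x
  rw [mulVec_mulVec, ← hT x, ← mulVec_mulVec, hv, mulVec_zero]

lemma Sub.of_conj {r : FreeGroup ι →* GZ d} {r' : FreeGroup ι →* GZ d'}
    {θ : MulAut (FreeGroup ι)} (h : Sub (tr r θ) (tr r' θ)) : Sub r r' := by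
  obtain ⟨T, hT0, hT⟩ := h
  refine ⟨T, hT0, fun x => ?_⟩
  have := hT (θ⁻¹ x)
  rw [tr_apply, tr_apply, MulAut.apply_inv_self] at this
  exact this

end Pool.Agent.V5helper38.RH
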