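import Pool.Agent.V5helper38.RH.Schur

/-!
# Coordinates on the derivations modulo the inner derivations
-/

set_option autoImplicit false
set_option linter.unusedSectionVars false
set_option linter.unusedVariables false

namespace Pool.Agent.V5helper38.RH

open FreeGroup (of)
open Matrix

section lin

variable {E : Type} [AddCommGroup E] [Module ℚ E]

/-- Clearing denominators. -/
lemma exists_int_mem {A : AddSubgroup E} {x : E} (hx : x ∈ Submodule.span ℚ (A : Set E)) :
    ∃ N : ℤ, N ≠ 0 ∧ N • x ∈ A := by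
  induction hx using Submodule.span_induction with
  | mem x hx => exact ⟨1, one_ne_zero, by rw [one_smul]; exact hx⟩
  | zero => exact ⟨1, one_ne_zero, by rw [smul_zero]; exact zero_mem _⟩
  | add x y _ _ hx hy =>
    obtain ⟨N, hN, h1⟩ := hx
    obtain ⟨M, hM, h2⟩ := hy
    refine ⟨N * M, mul_ne_zero hN hM, ?_⟩
    rw [smul_add]
    apply add_mem
    · rw [mul_comm, mul_smul]; exact A.zsmul_mem h1 M
    · rw [mul_smul]; exact A.zsmul_mem h2 N
  | smul q x _ hx =>
    obtain ⟨N, hN, h1⟩ := hx
    refine ⟨N * q.den, mul_ne_zero hN (by exact_mod_cast q.den_ne_zero), ?_⟩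
    have e : (N * (q.den : ℤ)) • q • x = q.num • N • x := by
      rw [← Int.cast_smul_eq_zsmul ℚ, ← Int.cast_smul_eq_zsmul ℚ q.num, ← Int.cast_smul_eq_zsmul ℚ N,
        smul_smul, smul_smul]
      congr 1
      have h2 : (q.den : ℚ) * q = q.num := by rw [mul_comm]; exact Rat.mul_den_eq_num q
      push_cast
      rw [mul_assoc, h2, mul_comm]
    rw [e]
    exact A.zsmul_mem h1 _

/-- A finite subfamily of a family of integral linear forms on a lattice which spans the same
space, and the dual vectors. -/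
theorem exists_dual {W : Type} [AddCommGroup W] [Module.Finite ℤ W] [Module.Free ℤ W] {I : Type}
    (L : I → (W →ₗ[ℤ] ℤ)) :
    ∃ (n : ℕ) (f : Fin n → I) (N : ℤ) (vd : Fin n → W), N ≠ 0 ∧
      (∀ k l, L (f l) (vd k) = if k = l then N else 0) ∧
      ∀ v, (∀ l, L (f l) v = 0) → ∀ i, L i v = 0 := by
  classical
  -- the forms as rational forms
  let Lq : I → (W →ₗ[ℤ] ℚ) := fun i => (Algebra.linearMap ℤ ℚ).comp (L i)
  have hLq : ∀ i v, Lq i v = (L i v : ℚ) := fun i v => rfl
  have hfin : Module.Finite ℚ (W →ₗ[ℤ] ℚ) := inferInstance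
  obtain ⟨b, hb1, hb2, hb3⟩ := exists_linearIndependent ℚ (Set.range Lq)
  have hbf : b.Finite := by
    have := hb3.finite
    exact Set.toFinite b
  obtain ⟨n, e⟩ : ∃ n, Nonempty (Fin n ≃ b) := by
    have : Fintype b := hbf.fintype
    exact ⟨Fintype.card b, ⟨(Fintype.equivFin b).symm⟩⟩
  obtain ⟨e⟩ := e
  have hch : ∀ k : Fin n, ∃ i, Lq i = (e k).1 := fun k => hb1 (e k).2
  choose f hf using hch
  have hli : LinearIndependent ℚ (fun k => Lq (f k)) := by
    have h1 : (fun k => Lq (f k)) = (Subtype.val : b → _) ∘ e := funext hf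
    rw [h1]
    exact hb3.comp e e.injective
  -- the evaluation map
  let ev : W →+ (Fin n → ℚ) :=
    { toFun := fun v k => Lq (f k) v
      map_zero' := by ext k; exact (Lq (f k)).map_zero
      map_add' := fun v w => by ext k; exact (Lq (f k)).map_add v w }
  have htop : Submodule.span ℚ ((ev.range : AddSubgroup _) : Set (Fin n → ℚ)) = ⊤ := by
    by_contra hne
    obtain ⟨g, hg0, hg⟩ := Submodule.exists_le_ker_of_lt_top _ (lt_top_iff_ne_top.2 hne)
    apply hg0
    have h1 : ∑ k, g (Pi.single k 1) • Lq (f k) = 0 := by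
      ext v
      have h2 : g (ev v) = 0 := hg (Submodule.subset_span ⟨v, rfl⟩)
      rw [LinearMap.pi_apply_eq_sum_univ] at h2
      rw [LinearMap.sum_apply, LinearMap.zero_apply, ← h2]
      apply Finset.sum_congr rfl
      intro k _
      rw [LinearMap.smul_apply, smul_eq_mul, smul_eq_mul, mul_comm]
      congr 2
      ext j
      rw [Pi.single_apply]
      by_cases h : j = k
      · rw [if_pos h, if_pos h.symm]
      · rw [if_neg h, if_neg (Ne.symm h)]
    have h3 := Fintype.linearIndependent_iff.1 hli _ h1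
    apply LinearMap.pi_ext'
    intro k
    ext
    simpa using h3 k
  have h4 : ∀ k : Fin n, ∃ N : ℤ, N ≠ 0 ∧ N • (Pi.single k 1 : Fin n → ℚ) ∈ ev.range := by
    intro k
    apply exists_int_mem
    rw [htop]; trivial
  choose Nk hNk hk using h4
  choose wk hwk using hk
  refine ⟨n, f, ∏ k, Nk k, fun k => (∏ j ∈ Finset.univ.erase k, Nk j) • wk k, ?_, ?_, ?_⟩
  · exact Finset.prod_ne_zero_iff.2 fun k _ => hNk k
  · intro k l
    have h5 : (L (f l) (wk k) : ℚ) = Nk k • (Pi.single k 1 : Fin n → ℚ) l := congrFun (hwk k) l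
    have h6 : L (f l) (wk k) = if k = l then Nk k else 0 := by
      rw [Pi.single_apply] at h5
      by_cases h : k = l
      · subst h
        rw [if_pos rfl] at h5
        rw [if_pos rfl]
        have : ((L (f k) (wk k) : ℤ) : ℚ) = ((Nk k : ℤ) : ℚ) := by rw [h5]; simp
        exact_mod_cast this
      · rw [if_neg (Ne.symm h), smul_zero] at h5
        rw [if_neg h]
        exact_mod_cast h5
    rw [map_smul, h6, smul_eq_mul]
    by_cases h : k = l
    · rw [if_pos h, if_pos h]
      exact Finset.prod_erase_mul _ _ (Finset.mem_univ k)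
    · rw [if_neg h, if_neg h, mul_zero]
  · intro v hv i
    have h7 : Lq i ∈ Submodule.span ℚ b := by
      rw [hb2]; exact Submodule.subset_span ⟨i, rfl⟩
    let evv : (W →ₗ[ℤ] ℚ) →ₗ[ℚ] ℚ :=
      { toFun := fun g => g v, map_add' := fun _ _ => rfl, map_smul' := fun _ _ => rfl }
    have h8 : Submodule.span ℚ b ≤ LinearMap.ker evv := by
      rw [Submodule.span_le]
      intro g hg
      have h9 : (e (e.symm ⟨g, hg⟩)).1 = g := by rw [e.apply_symm_apply]
      show g v = 0
      rw [← h9, ← hf, hLq, hv]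
      simp
    have h10 : (L i v : ℚ) = 0 := h8 h7
    exact_mod_cast h10

end lin

end Pool.Agent.V5helper38.RH
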