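import Pool.Agent.V5helper38.RH.Tits

/-!
# Elementary matrices of some level
-/

set_option autoImplicit false
set_option linter.unusedSectionVars false

namespace Pool.Agent.V5helper38.RH

open Matrix (SpecialLinearGroup)
open Pool.Agent.H742F
open Pool.Agent.Helper460_CSP (tv Cgr mt tv_mem)

variable {κ : Type} [Fintype κ] [DecidableEq κ]

/-- The subgroup contains all elementary matrices of level `t`. -/
def Lev (H : Subgroup (SpecialLinearGroup κ ℤ)) (t : ℤ) : Prop :=
  ∀ i j (h : i ≠ j), tv i j h t ∈ H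

lemma Lev.dvd {H : Subgroup (SpecialLinearGroup κ ℤ)} {t t' : ℤ} (h : Lev H t) (ht : t ∣ t') :
    Lev H t' := fun i j hij => tv_mem (h i j hij) ht

/-- The commutator of two elementary matrices. -/
lemma tv_cm {i j k : κ} (hij : i ≠ j) (hjk : j ≠ k) (hik : i ≠ k) (a b : ℤ) :
    tv i j hij a * tv j k hjk b * (tv i j hij a)⁻¹ * (tv j k hjk b)⁻¹ = tv i k hik (a * b) := by
  obtain ⟨P, hP, -⟩ := E0.main κ ℤ
  have h1 := P.mul i j k hij hjk hik a b
  rw [hP, El_tv hij, El_tv hjk, El_tv hik] at h1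
  rw [h1]
  group

section spread

variable {E H : Subgroup (SpecialLinearGroup κ ℤ)}

lemma step_right {s : ℤ} (hE : Lev E s) (hn : ∀ g ∈ E, ∀ h ∈ H, g * h * g⁻¹ ∈ H) {i j : κ}
    {hij : i ≠ j} {c : ℤ} (h : tv i j hij c ∈ H) {k : κ} (hjk : j ≠ k) (hik : i ≠ k) :
    tv i k hik (c * s) ∈ H := by
  rw [← tv_cm hij hjk hik c s]
  have h1 := hn _ (hE j k hjk) _ (inv_mem h)
  have e : tv i j hij c * tv j k hjk s * (tv i j hij c)⁻¹ * (tv j k hjk s)⁻¹ =
      tv i j hij c * (tv j k hjk s * (tv i j hij c)⁻¹ * (tv j k hjk s)⁻¹) := by group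
  rw [e]
  exact mul_mem h h1

lemma step_left {s : ℤ} (hE : Lev E s) (hn : ∀ g ∈ E, ∀ h ∈ H, g * h * g⁻¹ ∈ H) {i j : κ}
    {hij : i ≠ j} {c : ℤ} (h : tv i j hij c ∈ H) {k : κ} (hki : k ≠ i) (hkj : k ≠ j) :
    tv k j hkj (c * s) ∈ H := by
  rw [mul_comm, ← tv_cm hki hij hkj s c]
  exact mul_mem (hn _ (hE k i hki) _ h) (inv_mem h)

/-- One elementary matrix gives all of some level. -/
lemma spread (h3 : 3 ≤ Fintype.card κ) {s : ℤ} (hE : Lev E s)
    (hn : ∀ g ∈ E, ∀ h ∈ H, g * h * g⁻¹ ∈ H) {i j : κ} {hij : i ≠ j} {c : ℤ}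
    (h : tv i j hij c ∈ H) : Lev H (c * s * s * s) := by
  have hl : ∀ {p q : κ} {hpq : p ≠ q} {a : ℤ}, tv p q hpq a ∈ H → tv p q hpq (a * s) ∈ H :=
    fun h' => tv_mem h' (Dvd.intro _ rfl)
  intro p q hpq
  by_cases hqi : q = i
  · subst hqi
    by_cases hpj : p = j
    · subst hpj
      obtain ⟨k, hk1, hk2⟩ := third h3 p q
      have h1 : tv q k hk2.symm (c * s) ∈ H := step_right hE hn h hk1.symm hk2.symm
      have h2 : tv p k hk1.symm (c * s * s) ∈ H := step_left hE hn h1 hpq hk1.symm
      exact step_right hE hn h2 hk2 hpq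
    · have h1 : tv p j hpj (c * s) ∈ H := step_left hE hn h hpq hpj
      exact hl (step_right hE hn h1 hij.symm hpq)
  · by_cases hqj : q = j
    · subst hqj
      by_cases hpi : p = i
      · subst hpi
        exact hl (hl (hl h))
      · exact hl (hl (step_left hE hn h hpi hpq))
    · have h1 : tv i q (Ne.symm hqi) (c * s) ∈ H := step_right hE hn h (Ne.symm hqj) (Ne.symm hqi)
      by_cases hpi : p = i
      · subst hpi
        exact hl (hl h1)
      · exact hl (step_left hE hn h1 hpi hpq)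

end spread

section reindex

variable {κ' : Type} [Fintype κ'] [DecidableEq κ']

/-- Change of the index set. -/
def rx (e : κ ≃ κ') : SpecialLinearGroup κ ℤ →* SpecialLinearGroup κ' ℤ where
  toFun := fun A => ⟨Matrix.reindex e e A.1, by rw [Matrix.det_reindex_self]; exact A.2⟩
  map_one' := by
    apply Subtype.ext
    show Matrix.reindex e e (1 : Matrix κ κ ℤ) = 1
    simp
  map_mul' := fun A B => by
    apply Subtype.ext
    show Matrix.reindex e e (A.1 * B.1) = Matrix.reindex e e A.1 * Matrix.reindex e e B.1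
    rw [Matrix.reindex_apply, Matrix.reindex_apply, Matrix.reindex_apply,
      Matrix.submatrix_mul_equiv]

lemma rx_apply (e : κ ≃ κ') (A : SpecialLinearGroup κ ℤ) (i j : κ') :
    mt (rx e A) i j = mt A (e.symm i) (e.symm j) := rfl

lemma rx_tv (e : κ ≃ κ') {i j : κ} (h : i ≠ j) (t : ℤ) :
    rx e (tv i j h t) = tv (e i) (e j) (fun h' => h (e.injective h')) t := by
  apply Pool.Agent.Helper460_CSP.mt_inj
  ext p q
  rw [rx_apply]
  show (Matrix.transvection i j t) (e.symm p) (e.symm q) = (Matrix.transvection (e i) (e j) t) p q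
  unfold Matrix.transvection
  rw [Matrix.add_apply, Matrix.add_apply, Matrix.one_apply, Matrix.one_apply, Matrix.single_apply,
    Matrix.single_apply]
  have b1 : (e.symm p = e.symm q) = (p = q) := by
    apply propext
    exact ⟨fun h => e.symm.injective h, fun h => by rw [h]⟩
  have b2 : (i = e.symm p) = (e i = p) := by
    apply propext
    exact ⟨fun h => by rw [h, e.apply_symm_apply], fun h => by rw [← h, e.symm_apply_apply]⟩
  have b3 : (j = e.symm q) = (e j = q) := by
    apply propext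
    exact ⟨fun h => by rw [h, e.apply_symm_apply], fun h => by rw [← h, e.symm_apply_apply]⟩
  simp only [b1, b2, b3]

/-- The congruence subgroup of level `t ^ 2`. -/
theorem cgr_mem' (h3 : 3 ≤ Fintype.card κ) {t : ℤ} (ht : t ≠ 0)
    (H : Subgroup (SpecialLinearGroup κ ℤ)) (hH : Lev H t) {A : SpecialLinearGroup κ ℤ}
    (hA : Cgr (t * t) A) : A ∈ H := by
  obtain ⟨m, hm⟩ : ∃ m, Fintype.card κ = m + 3 := ⟨Fintype.card κ - 3, by omega⟩
  let e : κ ≃ Fin (m + 3) := (Fintype.equivFin κ).trans (finCongr hm)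
  have h1 : rx e A ∈ H.comap (rx e.symm) := by
    apply cgr_mem ht
    · intro i j h
      rw [Subgroup.mem_comap, rx_tv]
      exact hH _ _ _
    · intro i j
      rw [rx_apply]
      have := hA (e.symm i) (e.symm j)
      have e1 : (1 : Matrix (Fin (m + 3)) (Fin (m + 3)) ℤ) i j =
          (1 : Matrix κ κ ℤ) (e.symm i) (e.symm j) := by
        rw [Matrix.one_apply, Matrix.one_apply]
        by_cases h : i = j
        · rw [if_pos h, if_pos (by rw [h])]
        · rw [if_neg h, if_neg (fun h' => h (e.symm.injective h'))]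
      rw [e1]
      exact this
  rw [Subgroup.mem_comap] at h1
  have h2 : rx e.symm (rx e A) = A := by
    apply Pool.Agent.Helper460_CSP.mt_inj
    ext i j
    rw [rx_apply, rx_apply]
    simp
  rwa [h2] at h1

/-- An integral matrix congruent to `1` modulo four with an inverse has determinant one. -/
lemma det_one {M : ℤ} {A B : Matrix κ κ ℤ} (hAB : A * B = 1) (h4 : 4 ∣ M)
    (hA : ∀ i j, M ∣ A i j - (1 : Matrix κ κ ℤ) i j) : A.det = 1 := by
  have hdet1 : A.det * B.det = 1 := by rw [← Matrix.det_mul, hAB, Matrix.det_one]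
  have hunit := Int.isUnit_iff.1 (IsUnit.of_mul_eq_one _ hdet1)
  rcases hunit with h | h
  · exact h
  · exfalso
    have h4 : ((Int.castRingHom (ZMod 4)).mapMatrix A) = 1 := by
      ext k j
      have h5 := hA k j
      have h6 : ((A k j - (1 : Matrix κ κ ℤ) k j : ℤ) : ZMod 4) = 0 := by
        rw [ZMod.intCast_zmod_eq_zero_iff_dvd]
        exact dvd_trans h4 h5
      rw [Int.cast_sub, sub_eq_zero] at h6
      show ((A k j : ℤ) : ZMod 4) = _
      rw [h6, Matrix.one_apply, Matrix.one_apply]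
      split_ifs <;> simp
    have h7 := RingHom.map_det (Int.castRingHom (ZMod 4)) A
    rw [h4, Matrix.det_one, h] at h7
    revert h7
    decide

end reindex

end Pool.Agent.V5helper38.RH
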