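import Pool.Agent.V5helper38.RH.Act
import Pool.Agent.V5helper38.RH.Lev

/-!
# The local congruence property
-/

set_option autoImplicit false
set_option linter.unusedSectionVars false
set_option linter.unusedVariables false

namespace Pool.Agent.V5helper38.RH

open FreeGroup (of)
open Matrix
open Pool.Agent.Helper460_CSP (mt mt_mul mt_one Cgr)

variable {ι : Type} [DecidableEq ι] {Γ : Subgroup (FreeGroup ι)} [Γ.Characteristic]
  [Γ.FiniteIndex] {d : ℕ} {r : FreeGroup ι →* GZ d} {y1 y2 : ι}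

variable (Γ r) in
/-- The factor of the words. -/
def Fct (j : ι) (c : ℤ) : Prop := ∀ (b a : Fin d) (u : FreeGroup ι), r u = 1 →
      ∀ v, D r v (Wd Γ r j b a u) = Pi.single a (c * D r v u b)

namespace Coord

variable (C : Coord r y1 y2)

/-- The elementary automorphisms act by elementary matrices. -/
lemma act_Ea (h12 : y1 ≠ y2) (h1 : r (of y1) = 1) (h2 : r (of y2) = 1) {ε : Bool} {c : ℤ}
    (hc : Fct Γ r (C.yy ε) c) {q : C.Ix} (a : Fin d) (hne : q ≠ Sum.inl (ε, a))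
    (hq : C.wp q ∈ FJ (C.yy ε)) :
    C.Act (Ea (C.yy ε) (Wd Γ r (C.yy ε) (C.ap q) a (C.wp q)) (Wd_FJ r _ _ hq))
      (mt (Pool.Agent.Helper460_CSP.tv q (Sum.inl (ε, a)) hne c)) := by
  apply act_tv
  intro v p'
  rw [tv_Ea, C.r_yy h1 h2, Units.val_one, one_mulVec, L_add, Pi.add_apply,
    hc _ _ _ (C.r_wp h1 h2 q), C.L_single h12 (ε, a)]
  rfl

/-- The vectors by which one can translate. -/
def Zt (_ : Coord r y1 y2) (hr : Tri Γ r) (y : ι) (hy : y = y1 ∨ y = y2) (b : Fin d) :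
    AddSubgroup (ι → Ev d) where
  carrier := {ζ | ζ y1 = 0 ∧ ζ y2 = 0 ∧ ∃ α ∈ S Γ, ∀ v, RH.tv r α v = v + (v y b) • ζ}
  zero_mem' := ⟨rfl, rfl, 1, one_mem _, fun v => by rw [tv_one, smul_zero, add_zero]⟩
  add_mem' := by
    rintro ζ ζ' ⟨h1, h2, α, h3, h4⟩ ⟨k1, k2, β, k3, k4⟩
    refine ⟨by rw [Pi.add_apply, h1, k1, add_zero], by rw [Pi.add_apply, h2, k2, add_zero],
      α * β, mul_mem h3 k3, fun v => ?_⟩
    have hy0 : ζ y = 0 := by
      rcases hy with h | h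
      · rw [h]; exact h1
      · rw [h]; exact h2
    rw [tv_mul hr h3, k4, h4, Pi.add_apply, Pi.smul_apply, hy0, smul_zero, add_zero, smul_add,
      add_assoc]
  neg_mem' := by
    rintro ζ ⟨h1, h2, α, h3, h4⟩
    refine ⟨by rw [Pi.neg_apply, h1, neg_zero], by rw [Pi.neg_apply, h2, neg_zero], α⁻¹,
      inv_mem h3, fun v => ?_⟩
    have hy0 : ζ y = 0 := by
      rcases hy with h | h
      · rw [h]; exact h1
      · rw [h]; exact h2
    have e1 : RH.tv r α (RH.tv r α⁻¹ v) = v := by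
      rw [← tv_mul hr (inv_mem h3), inv_mul_cancel, tv_one]
    rw [h4] at e1
    have e2 : (RH.tv r α⁻¹ v) y b = v y b := by
      have := congrFun (congrFun e1 y) b
      rw [Pi.add_apply, Pi.smul_apply, hy0, smul_zero, add_zero] at this
      exact this
    rw [e2] at e1
    rw [smul_neg, ← sub_eq_add_neg, eq_sub_iff_add_eq]
    exact e1

/-- the commutators -/
lemma Zt_mem [Finite ι] (hr : Tri Γ r) (h12 : y1 ≠ y2) (h1 : r (of y1) = 1) (h2 : r (of y2) = 1)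
    {y y' : ι} (hy : y = y1 ∨ y = y2) (hy' : y' = y1 ∨ y' = y2) (hyy : y ≠ y') {c : ℤ}
    (hc : Fct Γ r y' c) (b : Fin d) {ζ : ι → Ev d} (hz1 : ζ y1 = 0) (hz2 : ζ y2 = 0) :
    ((Γ.index : ℤ) * c) • ζ ∈ C.Zt hr y hy b := by
  have hry : r (of y) = 1 := by
    rcases hy with rfl | rfl
    · exact h1
    · exact h2
  have hry' : r (of y') = 1 := by
    rcases hy' with rfl | rfl
    · exact h1
    · exact h2
  have hA : ∀ x, x ≠ y1 → x ≠ y2 → ∀ a, ((Γ.index : ℤ) * c) •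
      (Pi.single x ((r (of x)).1 *ᵥ Pi.single a 1) : ι → Ev d) ∈ C.Zt hr y hy b := by
    intro x hx1 hx2 a
    have hxy : x ≠ y := by
      rcases hy with rfl | rfl
      · exact hx1
      · exact hx2
    have hxy' : x ≠ y' := by
      rcases hy' with rfl | rfl
      · exact hx1
      · exact hx2
    have m1 : of y' ^ Γ.index ∈ FJ x := pow_mem (of_FJ hxy'.symm) _
    have m2 : Wd Γ r y' b a (of y) ∈ FJ y' := Wd_FJ r b a (of_FJ hyy)
    obtain ⟨α1, hα1⟩ : ∃ α1, α1 = Ea x _ m1 := ⟨_, rfl⟩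
    obtain ⟨α2, hα2⟩ : ∃ α2, α2 = Ea y' _ m2 := ⟨_, rfl⟩
    have s1 : α1 ∈ S Γ := by rw [hα1]; exact Ea_S m1 (Subgroup.pow_index_mem Γ _)
    have s2 : α2 ∈ S Γ := by rw [hα2]; exact Ea_S m2 (Wd_G _ _ _ _ _)
    have t1 : ∀ v, RH.tv r α1 v = v + Pi.single x ((Γ.index : ℤ) • ((r (of x)).1 *ᵥ v y')) := by
      intro v
      rw [hα1, tv_Ea, D_pow v hry', D_of, ← mulVec_smul, natCast_zsmul]
    have t2 : ∀ v, RH.tv r α2 v = v + Pi.single y' (Pi.single a (c * v y b)) := by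
      intro v
      rw [hα2, tv_Ea, hry', Units.val_one, one_mulVec, hc _ _ _ hry, D_of]
    have key : ∀ v, RH.tv r (α2 * α1) v = RH.tv r (α1 * α2) v + (v y b) •
        (((Γ.index : ℤ) * c) • (Pi.single x ((r (of x)).1 *ᵥ Pi.single a 1) : ι → Ev d)) := by
      intro v
      rw [tv_mul hr s2, tv_mul hr s1, t1, t2, t2, t1]
      have e1 : (v + (Pi.single y' (Pi.single a (c * v y b)) : ι → Ev d)) y' =
          v y' + Pi.single a (c * v y b) := by
        rw [Pi.add_apply, Pi.single_eq_same]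
      have e2 : (v + (Pi.single x ((Γ.index : ℤ) • (r (of x)).1 *ᵥ v y') : ι → Ev d)) y = v y := by
        rw [Pi.add_apply, Pi.single_eq_of_ne (Ne.symm hxy), add_zero]
      rw [e1, e2]
      have e3 : (Pi.single a (c * v y b) : Ev d) = (c * v y b) • Pi.single a 1 := by
        rw [← Pi.single_smul, smul_eq_mul, mul_one]
      rw [mulVec_add, smul_add, Pi.single_add]
      have e4 : (Pi.single x ((Γ.index : ℤ) • (r (of x)).1 *ᵥ (Pi.single a (c * v y b) : Ev d)) :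
          ι → Ev d) = v y b • ((Γ.index : ℤ) * c) •
          (Pi.single x ((r (of x)).1 *ᵥ (Pi.single a 1 : Ev d)) : ι → Ev d) := by
        rw [e3, mulVec_smul, smul_smul, smul_smul, ← Pi.single_smul]
        congr 2
        ring
      rw [e4]
      abel
    refine ⟨?_, ?_, (α1 * α2)⁻¹ * (α2 * α1), mul_mem (inv_mem (mul_mem s1 s2)) (mul_mem s2 s1),
      fun v => ?_⟩
    · rw [Pi.smul_apply, Pi.single_eq_of_ne (Ne.symm hx1), smul_zero]
    · rw [Pi.smul_apply, Pi.single_eq_of_ne (Ne.symm hx2), smul_zero]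
    · rw [tv_mul hr (inv_mem (mul_mem s1 s2)), key, ← tv_mul hr (inv_mem (mul_mem s1 s2)),
        inv_mul_cancel, tv_one]
      have e5 : (RH.tv r (α1 * α2)⁻¹ v) y b = v y b := by
        have e6 : RH.tv r (α1 * α2) (RH.tv r (α1 * α2)⁻¹ v) = v := by
          rw [← tv_mul hr (inv_mem (mul_mem s1 s2)), inv_mul_cancel, tv_one]
        rw [tv_mul hr s1, t2, t1] at e6
        have e7 := congrFun (congrFun e6 y) b
        rw [Pi.add_apply, Pi.single_eq_of_ne hyy, add_zero, Pi.add_apply,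
          Pi.single_eq_of_ne (Ne.symm hxy), add_zero] at e7
        exact e7
      rw [e5]
  have hB : ∀ x, x ≠ y1 → x ≠ y2 → ∀ u : Ev d, ((Γ.index : ℤ) * c) •
      (Pi.single x u : ι → Ev d) ∈ C.Zt hr y hy b := by
    intro x hx1 hx2 u
    let g : Ev d →+ (ι → Ev d) :=
      { toFun := fun u => ((Γ.index : ℤ) * c) • (Pi.single x ((r (of x)).1 *ᵥ u) : ι → Ev d)
        map_zero' := by rw [mulVec_zero, Pi.single_zero, smul_zero]
        map_add' := fun u u' => by rw [mulVec_add, Pi.single_add, smul_add] }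
    have h3 : ∀ u : Ev d, g u ∈ C.Zt hr y hy b := by
      intro u
      have e1 : u = ∑ a, u a • (Pi.single a 1 : Ev d) := by
        conv_lhs => rw [← Finset.univ_sum_single u]
        apply Finset.sum_congr rfl
        intro a _
        rw [← Pi.single_smul, smul_eq_mul, mul_one]
      rw [e1, map_sum]
      apply sum_mem
      intro a _
      rw [map_zsmul]
      exact AddSubgroup.zsmul_mem _ (hA x hx1 hx2 a) _
    have h4 := h3 ((r (of x))⁻¹.1 *ᵥ u)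
    have e2 : g ((r (of x))⁻¹.1 *ᵥ u) = ((Γ.index : ℤ) * c) • (Pi.single x u : ι → Ev d) := by
      show ((Γ.index : ℤ) * c) • (Pi.single x ((r (of x)).1 *ᵥ ((r (of x))⁻¹.1 *ᵥ u)) : ι → Ev d) = _
      rw [mulVec_mulVec, ← Units.val_mul, mul_inv_cancel, Units.val_one, one_mulVec]
    rwa [e2] at h4
  have : Fintype ι := Fintype.ofFinite ι
  have e3 : ((Γ.index : ℤ) * c) • ζ = ∑ x, ((Γ.index : ℤ) * c) • (Pi.single x (ζ x) : ι → Ev d) := by
    rw [← Finset.smul_sum, Finset.univ_sum_single ζ]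
  rw [e3]
  apply sum_mem
  intro x _
  by_cases hx1 : x = y1
  · subst hx1
    rw [hz1, Pi.single_zero, smul_zero]
    exact zero_mem _
  · by_cases hx2 : x = y2
    · subst hx2
      rw [hz2, Pi.single_zero, smul_zero]
      exact zero_mem _
    · exact hB x hx1 hx2 _

/-- All elementary matrices of some level are in the image of `S`. -/
theorem lev_ES [Finite ι] (hr : Tri Γ r) (hs : Spn r) (h12 : y1 ≠ y2) (h1 : r (of y1) = 1)
    (h2 : r (of y2) = 1) (hn : 0 < C.n) : ∃ s : ℤ, s ≠ 0 ∧ Lev (C.ES hr) s := by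
  have hf : ∀ ε : Bool, ∃ c : ℤ, c ≠ 0 ∧ Fct Γ r (C.yy ε) c := fun ε =>
    exists_factor hr hs (C.r_yy h1 h2 ε)
  choose c hc0 hc using hf
  have hyor : ∀ ε, C.yy ε = y1 ∨ C.yy ε = y2 := by
    intro ε
    cases ε
    · exact Or.inl rfl
    · exact Or.inr rfl
  have hi0 : (Γ.index : ℤ) ≠ 0 := by exact_mod_cast Subgroup.FiniteIndex.index_ne_zero
  -- the first kind
  have k1 : ∀ (ε : Bool) (q : C.Ix) (a : Fin d) (hne : q ≠ Sum.inl (ε, a)),
      C.wp q ∈ FJ (C.yy ε) →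
      Pool.Agent.Helper460_CSP.tv q (Sum.inl (ε, a)) hne (c ε) ∈ C.ES hr := by
    intro ε q a hne hq
    exact ⟨_, Ea_S _ (Wd_G _ _ _ _ _), C.act_Ea h12 h1 h2 (hc ε) a hne hq⟩
  have w1 : ∀ (ε ε' : Bool) (b : Fin d), ε ≠ ε' → C.wp (Sum.inl (ε', b)) ∈ FJ (C.yy ε) := by
    intro ε ε' b h
    exact of_FJ (C.yy_ne h12 (Ne.symm h))
  have w2 : ∀ (ε : Bool) (l : Fin C.n), C.wp (Sum.inr l) ∈ FJ (C.yy ε) := by
    intro ε l
    exact C.w_yy ε l
  -- the second kind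
  have k2 : ∀ (ε ε' : Bool) (b : Fin d) (l : Fin C.n), ε ≠ ε' →
      Pool.Agent.Helper460_CSP.tv (Sum.inl (ε, b)) (Sum.inr l) (by simp)
        ((Γ.index : ℤ) * c ε' * C.N) ∈ C.ES hr := by
    intro ε ε' b l h
    obtain ⟨-, -, α, hα, hv⟩ := C.Zt_mem hr h12 h1 h2 (hyor ε) (hyor ε') (C.yy_ne h12 h) (hc ε') b
      (C.vd1 l) (C.vd2 l)
    refine ⟨α, hα, act_tv _ _ fun v p' => ?_⟩
    have e1 : C.L (C.vd l) = C.L (C.V (Sum.inr l)) := rfl
    rw [hv, L_add, L_smul, L_smul, Pi.add_apply, Pi.smul_apply, Pi.smul_apply, e1, C.L_V h12, C.L1]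
    by_cases hp : p' = Sum.inr l
    · rw [if_pos hp, if_pos hp, smul_eq_mul, smul_eq_mul]
      ring
    · rw [if_neg hp, if_neg hp, smul_zero, smul_zero]
  obtain ⟨s, hs'⟩ : ∃ s : ℤ, s = (Γ.index : ℤ) * c false * c true * C.N := ⟨_, rfl⟩
  have hcc : ∀ ε, c ε ∣ s := by
    intro ε
    cases ε
    · exact ⟨(Γ.index : ℤ) * c true * C.N, by rw [hs']; ring⟩
    · exact ⟨(Γ.index : ℤ) * c false * C.N, by rw [hs']; ring⟩
  have hcc2 : ∀ ε ε', ε ≠ ε' → c ε * c ε' ∣ s := by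
    intro ε ε' h
    cases ε <;> cases ε'
    · exact absurd rfl h
    · exact ⟨(Γ.index : ℤ) * C.N, by rw [hs']; ring⟩
    · exact ⟨(Γ.index : ℤ) * C.N, by rw [hs']; ring⟩
    · exact absurd rfl h
  have hcc3 : ∀ ε, (Γ.index : ℤ) * c ε * C.N ∣ s := by
    intro ε
    cases ε
    · exact ⟨c true, by rw [hs']; ring⟩
    · exact ⟨c false, by rw [hs']; ring⟩
  have hcc4 : c false * ((Γ.index : ℤ) * c true * C.N) ∣ s := ⟨1, by rw [hs']; ring⟩
  refine ⟨s, ?_, ?_⟩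
  · rw [hs']
    exact mul_ne_zero (mul_ne_zero (mul_ne_zero hi0 (hc0 _)) (hc0 _)) C.hN
  · intro q p hqp
    rcases p with ⟨ε, a⟩ | l
    · rcases q with ⟨ε', b⟩ | l'
      · by_cases hε : ε = ε'
        · subst hε
          have hne : ε ≠ !ε := by cases ε <;> simp
          have g1 := k1 (!ε) (Sum.inl (ε, b)) b (fun h => hne (congrArg Prod.fst
            (Sum.inl_injective h))) (w1 _ _ _ (Ne.symm hne))
          have g2 := k1 ε (Sum.inl (!ε, b)) a (fun h => hne (congrArg Prod.fst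
            (Sum.inl_injective h)).symm) (w1 _ _ _ hne)
          have g3 := mul_mem (mul_mem (mul_mem g1 g2) (inv_mem g1)) (inv_mem g2)
          rw [tv_cm _ _ hqp] at g3
          exact Pool.Agent.Helper460_CSP.tv_mem g3 (hcc2 _ _ (Ne.symm hne))
        · exact Pool.Agent.Helper460_CSP.tv_mem (k1 ε _ a hqp (w1 _ _ _ hε)) (hcc ε)
      · exact Pool.Agent.Helper460_CSP.tv_mem (k1 ε _ a hqp (w2 _ _)) (hcc ε)
    · rcases q with ⟨ε, b⟩ | l'
      · have hne : ε ≠ !ε := by cases ε <;> simp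
        exact Pool.Agent.Helper460_CSP.tv_mem (k2 ε (!ε) b l hne) (hcc3 _)
      · have g1 := k1 false (Sum.inr l') (C.a l) (by simp) (w2 _ _)
        have g2 := k2 false true (C.a l) l (by simp)
        have g3 := mul_mem (mul_mem (mul_mem g1 g2) (inv_mem g1)) (inv_mem g2)
        rw [tv_cm _ _ hqp] at g3
        exact Pool.Agent.Helper460_CSP.tv_mem g3 hcc4

/-- Conjugates of elements acting trivially. -/
lemma _root_.Pool.Agent.V5helper38.RH.Eqv.conj_one {d' : ℕ} {t : FreeGroup ι →* GZ d'}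
    (ht : Tri Γ t) {α γ : MulAut (FreeGroup ι)} (h : Eqv Γ t α 1) (hγ : γ ∈ S Γ) :
    Eqv Γ t (γ * α * γ⁻¹) 1 := by
  have h1 := (Eqv.refl t γ).mul ht hγ h
  rw [mul_one] at h1
  have h2 := h1.mul ht hγ (Eqv.refl t γ⁻¹)
  rwa [mul_inv_cancel] at h2

/-- A commutator which acts by an elementary matrix, and trivially on the other representations
of at most the same dimension. -/
theorem exists_pure (hr : Tri Γ r) (hs : Spn r) (h12 : y1 ≠ y2) (h1 : r (of y1) = 1)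
    (h2 : r (of y2) = 1) (l0 : Fin C.n) : ∃ p ∈ S Γ, ∃ c : ℤ, c ≠ 0 ∧
      C.Act p (mt (Pool.Agent.Helper460_CSP.tv (Sum.inr l0) (Sum.inl (false, C.a l0)) (by simp) c)) ∧
      ∀ (d' : ℕ) (t : FreeGroup ι →* GZ d'), Tri Γ t → d' ≤ d → ¬ RH.Sub t r → Eqv Γ t p 1 := by
  obtain ⟨c1, hc1, k1⟩ := exists_factor (Γ := Γ) hr hs (C.r_yy h1 h2 false)
  obtain ⟨c2, hc2, k2⟩ := exists_factor (Γ := Γ) hr hs (C.r_yy h1 h2 true)
  have hw1 : C.wp (Sum.inl (true, C.a l0)) ∈ FJ (C.yy false) :=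
    of_FJ (C.yy_ne h12 (by simp))
  have hw2 : C.wp (Sum.inr l0) ∈ FJ (C.yy true) := C.w_yy true l0
  have a1 := C.act_Ea h12 h1 h2 (ε := false) k1 (q := Sum.inl (true, C.a l0)) (C.a l0)
    (by simp) hw1
  have a2 := C.act_Ea h12 h1 h2 (ε := true) k2 (q := Sum.inr l0) (C.a l0) (by simp) hw2
  obtain ⟨α1, hα1⟩ : ∃ α1, α1 = Ea (C.yy false) _ (Wd_FJ (Γ := Γ) r
    (C.ap (Sum.inl (true, C.a l0))) (C.a l0) hw1) := ⟨_, rfl⟩
  obtain ⟨α2, hα2⟩ : ∃ α2, α2 = Ea (C.yy true) _ (Wd_FJ (Γ := Γ) r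
    (C.ap (Sum.inr l0)) (C.a l0) hw2) := ⟨_, rfl⟩
  rw [← hα1] at a1
  rw [← hα2] at a2
  have s1 : α1 ∈ S Γ := by rw [hα1]; exact Ea_S _ (Wd_G _ _ _ _ _)
  have s2 : α2 ∈ S Γ := by rw [hα2]; exact Ea_S _ (Wd_G _ _ _ _ _)
  have i1 := a1.inv hr s1 (A' := mt (Pool.Agent.Helper460_CSP.tv (Sum.inl (true, C.a l0))
    (Sum.inl (false, C.a l0)) (by simp) c1)⁻¹) (by rw [← mt_mul, mul_inv_cancel, mt_one])
  have i2 := a2.inv hr s2 (A' := mt (Pool.Agent.Helper460_CSP.tv (Sum.inr l0)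
    (Sum.inl (true, C.a l0)) (by simp) c2)⁻¹) (by rw [← mt_mul, mul_inv_cancel, mt_one])
  refine ⟨α2 * α1 * α2⁻¹ * α1⁻¹, mul_mem (mul_mem (mul_mem s2 s1) (inv_mem s2)) (inv_mem s1),
    c2 * c1, mul_ne_zero hc2 hc1, ?_, ?_⟩
  · have h3 := (((a2.mul hr s2 a1).mul hr (mul_mem s2 s1) i2).mul hr
      (mul_mem (mul_mem s2 s1) (inv_mem s2)) i1)
    rw [← mt_mul, ← mt_mul, ← mt_mul, tv_cm _ _ (by simp)] at h3
    exact h3
  · intro d' t ht hdd hsub
    have hor : Eqv Γ t α1 1 ∨ Eqv Γ t α2 1 := by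
      by_cases z1 : Zm (C.yy false) t (cf (Γ := Γ) (C.yy false) r (C.a l0) (C.a l0)) = 0
      · left
        apply Eqv_one_of_tv ht s1
        intro v
        rw [hα1, tv_Ea, D_Wd ht]
        show v + Pi.single (C.yy false) ((t (of (C.yy false))).1 *ᵥ
          (Zm (C.yy false) t (cf (Γ := Γ) (C.yy false) r (C.a l0) (C.a l0)) *ᵥ _)) = v
        rw [z1, zero_mulVec, mulVec_zero, Pi.single_zero, add_zero]
      · by_cases z2 : Zm (C.yy true) t (cf (Γ := Γ) (C.yy true) r (C.a l0) (C.a l0)) = 0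
        · right
          apply Eqv_one_of_tv ht s2
          intro v
          rw [hα2, tv_Ea, D_Wd ht]
          show v + Pi.single (C.yy true) ((t (of (C.yy true))).1 *ᵥ
            (Zm (C.yy true) t (cf (Γ := Γ) (C.yy true) r (C.a l0) (C.a l0)) *ᵥ _)) = v
          rw [z2, zero_mulVec, mulVec_zero, Pi.single_zero, add_zero]
        · exact absurd (sub_of_two hr hs ht (C.yy_ne h12 (by simp)) (C.r_yy h1 h2 false)
            (C.r_yy h1 h2 true) hdd _ _ _ _ z1 z2) hsub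
    rcases hor with h3 | h3
    · have h4 := h3.conj_one ht s2
      have h5 := h3.inv ht s1 (one_mem _)
      rw [inv_one] at h5
      have h6 := h4.mul ht (one_mem _) h5
      rwa [one_mul] at h6
    · have h4 := (h3.inv ht s2 (one_mem _))
      rw [inv_one] at h4
      have h5 := h4.conj_one ht s1
      have h6 := h3.mul ht (one_mem _) h5
      rw [one_mul] at h6
      have e : α2 * (α1 * α2⁻¹ * α1⁻¹) = α2 * α1 * α2⁻¹ * α1⁻¹ := by group
      rwa [e] at h6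

/-- The matrices of the elements of a subgroup. -/
def EP (hr : Tri Γ r) (P : Subgroup (MulAut (FreeGroup ι))) (hP : P ≤ S Γ) :
    Subgroup (SpecialLinearGroup C.Ix ℤ) where
  carrier := {A | ∃ α ∈ P, C.Act α (mt A)}
  mul_mem' := by
    rintro A B ⟨α, h1, h2⟩ ⟨β, k1, k2⟩
    exact ⟨α * β, mul_mem h1 k1, h2.mul hr (hP h1) k2⟩
  one_mem' := ⟨1, one_mem _, Act.one⟩
  inv_mem' := by
    rintro A ⟨α, h1, h2⟩
    exact ⟨α⁻¹, inv_mem h1, h2.inv hr (hP h1) (by rw [← mt_mul, mul_inv_cancel, mt_one])⟩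

/-- An automorphism acting trivially modulo a multiple of `N` acts by an integral matrix. -/
lemma exists_mat (hr : Tri Γ r) (h12 : y1 ≠ y2) (h1 : r (of y1) = 1)
    (h2 : r (of y2) = 1) {M : ℤ} {α : MulAut (FreeGroup ι)} (hα : α ∈ S Γ)
    (hc : Cg Γ r (Γ.index * (C.N * M)) α) :
    ∃ A : Matrix C.Ix C.Ix ℤ, C.Act α A ∧ ∀ i j, M ∣ A i j - (1 : Matrix C.Ix C.Ix ℤ) i j := by
  have hi0 : (Γ.index : ℤ) ≠ 0 := by exact_mod_cast Subgroup.FiniteIndex.index_ne_zero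
  have hL : ∀ v p, C.L (RH.tv r α v) p = D r v (α (C.wp p)) (C.ap p) := by
    intro v p
    show D r (RH.tv r α v) _ _ = _
    rw [← D_S hr hα]
  have h3 : ∀ v p, C.N * M ∣ C.L (RH.tv r α v) p - C.L v p := by
    intro v p
    have h4 := hc v (C.wp p ^ Γ.index) (Subgroup.pow_index_mem Γ _) (C.ap p)
    have h5 := C.r_wp h1 h2 p
    rw [map_pow, D_pow v (by rw [hr.S hα, h5]), D_pow v h5, Pi.smul_apply, Pi.smul_apply,
      ← smul_sub, nsmul_eq_mul] at h4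
    rw [hL]
    exact Int.dvd_of_mul_dvd_mul_left hi0 h4
  have h4 : ∀ q p, ∃ z : ℤ, C.L (RH.tv r α (C.V q)) p =
      C.N * ((1 : Matrix C.Ix C.Ix ℤ) q p + M * z) := by
    intro q p
    obtain ⟨z, hz⟩ := h3 (C.V q) p
    refine ⟨z, ?_⟩
    rw [sub_eq_iff_eq_add, C.L_V h12] at hz
    rw [hz, Matrix.one_apply]
    by_cases h : q = p
    · rw [if_pos h, if_pos h.symm]; ring
    · rw [if_neg h, if_neg (Ne.symm h)]; ring
  choose z hz using h4
  refine ⟨fun q p => (1 : Matrix C.Ix C.Ix ℤ) q p + M * z q p, ?_, fun i j => ?_⟩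
  · intro v
    -- the multiple of v is a combination of the dual vectors
    obtain ⟨u, hu⟩ : ∃ u, u = C.N • v - ∑ q, C.L v q • C.V q := ⟨_, rfl⟩
    have hlin : ∀ w : ι → Ev d, ∀ x, D r w x = DL r x w := fun _ _ => rfl
    have hLs : ∀ p, C.L (∑ q, C.L v q • C.V q) p = ∑ q, C.L v q * C.L (C.V q) p := by
      intro p
      show D r _ _ _ = _
      rw [hlin, map_sum, Finset.sum_apply]
      apply Finset.sum_congr rfl
      intro q _
      rw [map_smul, Pi.smul_apply, smul_eq_mul]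
      rfl
    have hu0 : C.L u = 0 := by
      funext p
      have e1 : C.L u + C.L (∑ q, C.L v q • C.V q) = C.L (C.N • v) := by
        rw [← L_add, hu, sub_add_cancel]
      have e2 := congrFun e1 p
      rw [Pi.add_apply, hLs, L_smul, Pi.smul_apply, smul_eq_mul] at e2
      have e3 : ∑ q, C.L v q * C.L (C.V q) p = C.N * C.L v p := by
        rw [Finset.sum_eq_single p]
        · rw [C.L_V h12, if_pos rfl, mul_comm]
        · intro q _ hq
          rw [C.L_V h12, if_neg (Ne.symm hq), mul_zero]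
        · intro h; exact absurd (Finset.mem_univ p) h
      rw [e3] at e2
      exact add_eq_right.1 e2
    have hu1 : ∀ p, D r u (α (C.wp p)) (C.ap p) = 0 := by
      intro p
      rw [C.K' u hu0 _ (by rw [hr.S hα]; exact C.r_wp h1 h2 p)]
      rfl
    funext p
    have e1 := hu1 p
    rw [hu, D_sub, D_smul, hlin (∑ q, C.L v q • C.V q), map_sum, Pi.sub_apply, Pi.smul_apply,
      Finset.sum_apply, sub_eq_zero, smul_eq_mul, ← hL v p] at e1
    have e2 : ∀ q, (DL r (α (C.wp p)) (C.L v q • C.V q)) (C.ap p) =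
        C.N * (C.L v q * ((1 : Matrix C.Ix C.Ix ℤ) q p + M * z q p)) := by
      intro q
      rw [map_smul, Pi.smul_apply, smul_eq_mul]
      have e3 : DL r (α (C.wp p)) (C.V q) (C.ap p) = C.L (RH.tv r α (C.V q)) p := by
        rw [hL]; rfl
      rw [e3, hz]
      ring
    rw [Finset.sum_congr rfl (fun q _ => e2 q), ← Finset.mul_sum] at e1
    exact mul_left_cancel₀ C.hN e1
  · exact ⟨z i j, by ring⟩

/-- **The local congruence property.** -/
theorem local_cg (hr : Tri Γ r) (h12 : y1 ≠ y2) (h1 : r (of y1) = 1)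
    (h2 : r (of y2) = 1) (h3 : 3 ≤ Fintype.card C.Ix) {s c : ℤ} (hs0 : s ≠ 0)
    (hE : Lev (C.ES hr) s) (P : Subgroup (MulAut (FreeGroup ι))) (hP : P ≤ S Γ)
    (hPn : ∀ σ ∈ S Γ, ∀ α ∈ P, σ * α * σ⁻¹ ∈ P) {i j : C.Ix} {hij : i ≠ j} (hc : c ≠ 0)
    (hp : ∃ p ∈ P, C.Act p (mt (Pool.Agent.Helper460_CSP.tv i j hij c))) :
    ∃ M : ℤ, M ≠ 0 ∧ ∀ α ∈ S Γ, Cg Γ r M α → ∃ β ∈ P, Eqv Γ r β α := by
  have hnorm : ∀ g ∈ C.ES hr, ∀ h ∈ C.EP hr P hP, g * h * g⁻¹ ∈ C.EP hr P hP := by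
    rintro B ⟨σ, k1, k2⟩ A ⟨α, k3, k4⟩
    refine ⟨σ * α * σ⁻¹, hPn σ k1 α k3, ?_⟩
    rw [mt_mul, mt_mul]
    exact (k2.mul hr k1 k4).mul hr (mul_mem k1 (hP k3))
      (k2.inv hr k1 (by rw [← mt_mul, mul_inv_cancel, mt_one]))
  have hlev := spread h3 hE hnorm (H := C.EP hr P hP) hp
  obtain ⟨t, ht⟩ : ∃ t : ℤ, t = c * s * s * s := ⟨_, rfl⟩
  rw [← ht] at hlev
  have ht0 : t ≠ 0 := by
    rw [ht]
    exact mul_ne_zero (mul_ne_zero (mul_ne_zero hc hs0) hs0) hs0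
  have hi0 : (Γ.index : ℤ) ≠ 0 := by exact_mod_cast Subgroup.FiniteIndex.index_ne_zero
  refine ⟨Γ.index * (C.N * (4 * (t * t))), mul_ne_zero hi0 (mul_ne_zero C.hN
    (mul_ne_zero (by norm_num) (mul_ne_zero ht0 ht0))), ?_⟩
  intro α hα hcg
  obtain ⟨A, hA1, hA2⟩ := C.exists_mat hr h12 h1 h2 hα hcg
  obtain ⟨B, hB1, hB2⟩ := C.exists_mat hr h12 h1 h2 (inv_mem hα) hcg.inv
  have hAB : A * B = 1 := by
    have := hA1.mul hr hα hB1
    rw [mul_inv_cancel] at this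
    exact Act.unique h12 this Act.one
  have hdet := det_one hAB (Dvd.intro _ rfl) hA2
  obtain ⟨β, hβ, hβ2⟩ := cgr_mem' h3 ht0 _ hlev (A := ⟨A, hdet⟩)
    (fun i j => dvd_trans (Dvd.intro_left _ rfl) (hA2 i j))
  exact ⟨β, hβ, Act.eqv hr (hP hβ) hα hβ2 hA1⟩

end Coord

end Pool.Agent.V5helper38.RH
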