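import Pool.Agent.V5helper38.RH.Local

/-!
# Purification: elements of `V` which see only one representation
-/

set_option autoImplicit false
set_option linter.unusedSectionVars false
set_option linter.unusedVariables false

namespace Pool.Agent.V5helper38.RH

open FreeGroup (of)
open Matrix
open Pool.Agent.Helper460_CSP (mt mt_mul mt_one Cgr)

variable {ι : Type} [DecidableEq ι] (Γ : Subgroup (FreeGroup ι)) [Γ.Characteristic]
  [Γ.FiniteIndex] {T : Type} {e : T → ℕ} (rt : ∀ t : T, FreeGroup ι →* GZ (e t))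
  (V : Subgroup (MulAut (FreeGroup ι)))

/-- The congruence property for one representation, realised by pure elements. -/
def PC (t : T) (M : ℤ) : Prop := ∀ α ∈ S Γ, Cg Γ (rt t) M α →
  ∃ β ∈ V, β ∈ S Γ ∧ (∀ t', ¬ Sub (rt t') (rt t) → Eqv Γ (rt t') β 1) ∧ Eqv Γ (rt t) β α

variable {Γ rt V}

lemma PC.dvd {t : T} {M M' : ℤ} (h : PC Γ rt V t M) (hd : M ∣ M') : PC Γ rt V t M' :=
  fun α hα hc => h α hα (hc.dvd hd)

/-- Killing the action on the representations one after the other. -/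
lemma kill [DecidableEq T] (hT : ∀ t, Tri Γ (rt t)) (hS : ∀ t, Spn (rt t)) {hi : T → Prop} {M : ℤ}
    (hPC : ∀ t, hi t → PC Γ rt V t M) {q : MulAut (FreeGroup ι)} (hq : q ∈ S Γ)
    (hqc : ∀ t, hi t → Cg Γ (rt t) M q) (s : Finset T) (hs : ∀ t ∈ s, hi t) :
    ∃ q' ∈ S Γ, q'⁻¹ * q ∈ V ∧ (∀ t, hi t → Cg Γ (rt t) M q') ∧
      (∀ t ∈ s, Eqv Γ (rt t) q' 1) ∧
      ∀ t, (∀ t', hi t' → ¬ Sub (rt t) (rt t')) → Eqv Γ (rt t) q' q := by
  induction s using Finset.induction_on with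
  | empty =>
    refine ⟨q, hq, by rw [inv_mul_cancel]; exact one_mem _, hqc, fun t ht => ?_,
      fun t _ => Eqv.refl _ _⟩
    exact absurd ht (Finset.notMem_empty t)
  | insert a s ha ih =>
    obtain ⟨q', h1, h2, h3, h4, h5⟩ := ih (fun t ht => hs t (Finset.mem_insert_of_mem ht))
    have hia := hs a (Finset.mem_insert_self a s)
    obtain ⟨β, k1, k2, k3, k4⟩ := hPC a hia q' h1 (h3 a hia)
    have hq'' : q' * β⁻¹ ∈ S Γ := mul_mem h1 (inv_mem k2)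
    have hb : ∀ t, ¬ Sub (rt t) (rt a) → Eqv Γ (rt t) (q' * β⁻¹) q' := by
      intro t ht
      have h6 := (Eqv.refl (Γ := Γ) (rt t) q').mul (hT t) h1
        ((k3 t ht).inv (hT t) k2 (one_mem _))
      rwa [inv_one, mul_one] at h6
    have ha1 : Eqv Γ (rt a) (q' * β⁻¹) 1 := by
      have h6 := (Eqv.refl (Γ := Γ) (rt a) q').mul (hT a) h1 (k4.inv (hT a) k2 h1)
      rwa [mul_inv_cancel] at h6
    refine ⟨q' * β⁻¹, hq'', ?_, fun t ht => ?_, fun t ht => ?_, fun t ht => ?_⟩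
    · have e1 : (q' * β⁻¹)⁻¹ * q = β * (q'⁻¹ * q) := by group
      rw [e1]
      exact mul_mem k1 h2
    · by_cases hsub : Sub (rt t) (rt a)
      · have h6 := hsub.eqv (hS t) ha1
        exact (Cg.one (rt t) M).of_eqv h6
      · exact (h3 t ht).of_eqv (hb t hsub)
    · rcases Finset.mem_insert.1 ht with rfl | ht
      · exact ha1
      · by_cases hsub : Sub (rt t) (rt a)
        · exact hsub.eqv (hS t) ha1
        · exact (hb t hsub).trans (h4 t ht)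
    · exact (hb t (ht a hia)).trans (h5 t ht)

variable (Γ rt V) in
/-- The pure elements of `V`. -/
def PP (hT : ∀ t, Tri Γ (rt t)) (t0 : T) : Subgroup (MulAut (FreeGroup ι)) where
  carrier := {α | α ∈ V ∧ α ∈ S Γ ∧ ∀ t', ¬ Sub (rt t') (rt t0) → Eqv Γ (rt t') α 1}
  one_mem' := ⟨one_mem _, one_mem _, fun _ _ => Eqv.refl _ _⟩
  mul_mem' := by
    rintro α β ⟨h1, h2, h3⟩ ⟨k1, k2, k3⟩
    refine ⟨mul_mem h1 k1, mul_mem h2 k2, fun t' ht' => ?_⟩
    have := (h3 t' ht').mul (hT t') (one_mem _) (k3 t' ht')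
    rwa [one_mul] at this
  inv_mem' := by
    rintro α ⟨h1, h2, h3⟩
    refine ⟨inv_mem h1, inv_mem h2, fun t' ht' => ?_⟩
    have := (h3 t' ht').inv (hT t') h2 (one_mem _)
    rwa [inv_one] at this


lemma act_pow {d : ℕ} {r : FreeGroup ι →* GZ d} {y1 y2 : ι} {C : Coord r y1 y2} (hr : Tri Γ r)
    {p : MulAut (FreeGroup ι)} (hp : p ∈ S Γ) {i j : C.Ix} {hij : i ≠ j} {c : ℤ}
    (h : C.Act p (mt (Pool.Agent.Helper460_CSP.tv i j hij c))) (k : ℕ) :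
    C.Act (p ^ k) (mt (Pool.Agent.Helper460_CSP.tv i j hij (k * c))) := by
  induction k with
  | zero =>
    rw [pow_zero, Nat.cast_zero, zero_mul, Pool.Agent.Helper460_CSP.tv_zero]
    exact Coord.Act.one
  | succ k ih =>
    rw [pow_succ]
    have e : ((k + 1 : ℕ) : ℤ) * c = k * c + c := by push_cast; ring
    rw [e, Pool.Agent.Helper460_CSP.tv_add, mt_mul]
    exact ih.mul hr (pow_mem hp k) h

/-- **The inductive step.** -/
theorem step [Finite ι] [Finite T] (hT : ∀ t, Tri Γ (rt t)) (hS : ∀ t, Spn (rt t))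
    (hV : V.Normal) {m : ℕ} (hm : ∀ φ : MulAut (FreeGroup ι), φ ^ m ∈ V) (hm0 : m ≠ 0)
    (hpow : ∀ M : ℤ, M ≠ 0 → ∀ q ∈ S Γ, ∃ k : ℕ, k ≠ 0 ∧ ∀ t, Cg Γ (rt t) M (q ^ k))
    (t0 : T) {y1 y2 : ι} (h12 : y1 ≠ y2) (h1 : rt t0 (of y1) = 1) (h2 : rt t0 (of y2) = 1)
    {x1 x2 : ι} (hx : x1 ≠ x2) (h11 : x1 ≠ y1) (h12' : x1 ≠ y2) (h21 : x2 ≠ y1) (h22 : x2 ≠ y2)
    (hd : 0 < e t0) {M1 : ℤ} (hM1 : M1 ≠ 0) (hPC : ∀ t, e t0 < e t → PC Γ rt V t M1) :
    ∃ M : ℤ, M ≠ 0 ∧ PC Γ rt V t0 M := by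
  classical
  have : Fintype T := Fintype.ofFinite T
  obtain ⟨C⟩ := exists_coord (rt t0) h12 h1 h2
  have hn : 0 < C.n := C.pos (hT t0) hd hx h11 h12' h21 h22
  obtain ⟨p, hp, c, hc, hpA, hpt⟩ := C.exists_pure (hT t0) (hS t0) h12 h1 h2 ⟨0, hn⟩
  obtain ⟨s, hs0, hE⟩ := C.lev_ES (hT t0) (hS t0) h12 h1 h2 hn
  obtain ⟨k, hk0, hk⟩ := hpow M1 hM1 p hp
  obtain ⟨q, q1, -, q3, q4, q5⟩ := kill (hi := fun t => e t0 < e t) hT hS hPC (pow_mem hp k)
    (fun t _ => hk t) (Finset.univ.filter fun t => e t0 < e t)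
    (fun t ht => (Finset.mem_filter.1 ht).2)
  have hlow : ∀ t, e t ≤ e t0 → Eqv Γ (rt t) q (p ^ k) := by
    intro t ht
    apply q5
    intro t' ht' hsub
    have := hsub.le (hS t) (hS t')
    omega
  have hqA : C.Act q (mt (Pool.Agent.Helper460_CSP.tv (Sum.inr (⟨0, hn⟩ : Fin C.n))
      (Sum.inl (false, C.a ⟨0, hn⟩)) (by simp) (k * c))) :=
    (act_pow (hT t0) hp hpA k).of_eqv (hT t0) h1 h2 (hlow t0 le_rfl) (pow_mem hp k) q1
  have hqm := act_pow (hT t0) q1 hqA m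
  have hcard : 3 ≤ Fintype.card C.Ix := by
    have : Fintype.card C.Ix = 2 * e t0 + C.n := by simp
    omega
  have hP : PP Γ rt V hT t0 ≤ S Γ := fun α hα => hα.2.1
  have hqP : q ^ m ∈ PP Γ rt V hT t0 := by
    refine ⟨hm q, pow_mem q1 m, fun t' ht' => ?_⟩
    apply Eqv.pow_one (hT t')
    by_cases hlt : e t0 < e t'
    · exact q4 t' (Finset.mem_filter.2 ⟨Finset.mem_univ _, hlt⟩)
    · push Not at hlt
      exact (hlow t' hlt).trans ((hpt _ (rt t') (hT t') hlt ht').pow_one (hT t') k)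
  obtain ⟨M, hM, hMM⟩ := C.local_cg (hT t0) h12 h1 h2 hcard hs0 hE (PP Γ rt V hT t0) hP
    (by
      rintro σ hσ α ⟨a1, a2, a3⟩
      exact ⟨hV.conj_mem _ a1 σ, S_conj a2 σ, fun t' ht' => (a3 t' ht').conj_one (hT t') hσ⟩)
    (c := m * (k * c)) (by
      apply mul_ne_zero (by exact_mod_cast hm0)
      exact mul_ne_zero (by exact_mod_cast hk0) hc)
    ⟨q ^ m, hqP, hqm⟩
  refine ⟨M, hM, fun α hα hcg => ?_⟩
  obtain ⟨β, ⟨b1, b2, b3⟩, b4⟩ := hMM α hα hcg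
  exact ⟨β, b1, b2, b3, b4⟩

end Pool.Agent.V5helper38.RH
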