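import Pool.Agent.V5helper38.RH.Grp

/-!
# Words which act on the derivations as matrix units, by Schur orthogonality
-/

set_option autoImplicit false
set_option linter.unusedSectionVars false
set_option linter.unusedVariables false

namespace Pool.Agent.V5helper38.RH

open FreeGroup (of)
open Matrix

variable {ι : Type} [DecidableEq ι] {d d' : ℕ}

/-- The words not involving the letter `j`. -/
def FJ (j : ι) : Subgroup (FreeGroup ι) := Subgroup.closure {x | ∃ i, i ≠ j ∧ x = of i}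

lemma of_FJ {i j : ι} (h : i ≠ j) : of i ∈ FJ j := Subgroup.subset_closure ⟨i, h, rfl⟩

/-- Deleting the letter `j`. -/
def kl (j : ι) : FreeGroup ι →* FreeGroup ι :=
  FreeGroup.lift (fun i => if i = j then 1 else of i)

lemma kl_self (j : ι) : kl j (of j) = 1 := by
  unfold kl; rw [FreeGroup.lift_apply_of, if_pos rfl]

lemma kl_ne {i j : ι} (h : i ≠ j) : kl j (of i) = of i := by
  unfold kl; rw [FreeGroup.lift_apply_of, if_neg h]

lemma kl_mem (j : ι) (x : FreeGroup ι) : kl j x ∈ FJ j := by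
  induction x using FreeGroup.induction_on with
  | C1 => rw [map_one]; exact one_mem _
  | of i =>
    by_cases h : i = j
    · subst h; rw [kl_self]; exact one_mem _
    · rw [kl_ne h]; exact of_FJ h
  | inv_of i h => rw [map_inv]; exact inv_mem h
  | mul x y hx hy => rw [map_mul]; exact mul_mem hx hy

lemma kl_FJ {i j : ι} {x : FreeGroup ι} (h : x ∈ FJ i) : kl j x ∈ FJ i := by
  unfold FJ at h
  induction h using Subgroup.closure_induction with
  | mem x hx =>
    obtain ⟨k, hk, rfl⟩ := hx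
    by_cases h : k = j
    · subst h; rw [kl_self]; exact one_mem _
    · rw [kl_ne h]; exact of_FJ hk
  | one => rw [map_one]; exact one_mem _
  | mul x y _ _ hx hy => rw [map_mul]; exact mul_mem hx hy
  | inv x _ hx => rw [map_inv]; exact inv_mem hx

lemma r_kl {r : FreeGroup ι →* GZ d} {j : ι} (hj : r (of j) = 1) (x : FreeGroup ι) :
    r (kl j x) = r x := by
  have : r.comp (kl j) = r := by
    apply FreeGroup.ext_hom
    intro i
    rw [MonoidHom.comp_apply]
    by_cases h : i = j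
    · subst h; rw [kl_self, map_one, hj]
    · rw [kl_ne h]
  exact DFunLike.congr_fun this x

lemma D_FJ {r : FreeGroup ι →* GZ d} {j : ι} {v v' : ι → Ev d} (h : ∀ i, i ≠ j → v i = v' i)
    {x : FreeGroup ι} (hx : x ∈ FJ j) : D r v x = D r v' x := by
  apply D_agree _ hx
  rintro _ ⟨i, hi, rfl⟩
  rw [D_of, D_of, h i hi]

/-- The representations of the words not involving `j` do not have a nonzero common
intertwiner if they have one whose kernel is not trivial. -/
lemma inj_of_twine {r : FreeGroup ι →* GZ d} {t : FreeGroup ι →* GZ d'} (hr : Spn r) {j : ι}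
    (hj : r (of j) = 1) {T : Matrix (Fin d') (Fin d) ℤ} (hT0 : T ≠ 0)
    (hT : ∀ x ∈ FJ j, (t x).1 * T = T * (r x).1) (v : Ev d) (hv : T *ᵥ v = 0) : v = 0 := by
  by_contra hv0
  apply hT0
  apply hr.zero_of hv0
  intro x
  rw [← r_kl hj x, mulVec_mulVec, ← hT _ (kl_mem j x), ← mulVec_mulVec, hv, mulVec_zero]

section fin

variable (Γ : Subgroup (FreeGroup ι)) [Γ.Normal] [Γ.FiniteIndex] (j : ι)

/-- The image of the words not involving `j` in the finite quotient. -/
abbrev PJ : Subgroup (FreeGroup ι ⧸ Γ) := (FJ j).map (QuotientGroup.mk' Γ)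

noncomputable instance : Fintype (PJ Γ j) := by
  have : Finite (FreeGroup ι ⧸ Γ) := Subgroup.finite_quotient_of_finiteIndex
  exact Fintype.ofFinite _

/-- Representatives. -/
noncomputable def lf (s : PJ Γ j) : FreeGroup ι := (Subgroup.mem_map.1 s.2).choose

lemma lf_mem (s : PJ Γ j) : lf Γ j s ∈ FJ j := (Subgroup.mem_map.1 s.2).choose_spec.1

lemma lf_mk (s : PJ Γ j) : (QuotientGroup.mk (lf Γ j s) : FreeGroup ι ⧸ Γ) = s.1 :=
  (Subgroup.mem_map.1 s.2).choose_spec.2

variable {Γ}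

lemma Tri.eq_mk {t : FreeGroup ι →* GZ d} (ht : Tri Γ t) {x y : FreeGroup ι}
    (h : (QuotientGroup.mk x : FreeGroup ι ⧸ Γ) = QuotientGroup.mk y) : t x = t y := by
  have h1 := QuotientGroup.eq.1 h
  have h2 := ht _ h1
  rw [map_mul, map_inv, inv_mul_eq_one] at h2
  exact h2

variable (Γ) in
/-- The averaged operator. -/
noncomputable def TX (t : FreeGroup ι →* GZ d') (r : FreeGroup ι →* GZ d)
    (X : Matrix (Fin d') (Fin d) ℤ) : Matrix (Fin d') (Fin d) ℤ :=
  ∑ s : PJ Γ j, (t (lf Γ j s)).1 * X * (r (lf Γ j s)⁻¹).1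

lemma TX_twine {t : FreeGroup ι →* GZ d'} {r : FreeGroup ι →* GZ d} (ht : Tri Γ t)
    (hr : Tri Γ r) (X : Matrix (Fin d') (Fin d) ℤ) {x : FreeGroup ι} (hx : x ∈ FJ j) :
    (t x).1 * TX Γ j t r X = TX Γ j t r X * (r x).1 := by
  have hxm : (QuotientGroup.mk x : FreeGroup ι ⧸ Γ) ∈ PJ Γ j := ⟨x, hx, rfl⟩
  unfold TX
  rw [Matrix.mul_sum, Matrix.sum_mul, ← Equiv.sum_comp (Equiv.mulLeft (⟨_, hxm⟩ : PJ Γ j))
    (fun s : PJ Γ j => (t (lf Γ j s)).1 * X * (r (lf Γ j s)⁻¹).1 * (r x).1)]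
  apply Finset.sum_congr rfl
  intro s _
  have hm : (QuotientGroup.mk (lf Γ j (⟨_, hxm⟩ * s)) : FreeGroup ι ⧸ Γ) =
      QuotientGroup.mk (x * lf Γ j s) := by
    rw [lf_mk, QuotientGroup.mk_mul, lf_mk]; rfl
  have h1 : t (lf Γ j (⟨_, hxm⟩ * s)) = t x * t (lf Γ j s) := by
    rw [← map_mul]; exact ht.eq_mk hm
  have h2 : r (lf Γ j (⟨_, hxm⟩ * s)) = r x * r (lf Γ j s) := by
    rw [← map_mul]; exact hr.eq_mk hm
  show (t x).1 * ((t (lf Γ j s)).1 * X * (r (lf Γ j s)⁻¹).1) =
    (t (lf Γ j (⟨_, hxm⟩ * s))).1 * X * (r (lf Γ j (⟨_, hxm⟩ * s))⁻¹).1 * (r x).1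
  rw [h1, map_inv r (lf Γ j (⟨_, hxm⟩ * s)), h2, _root_.mul_inv_rev, Units.val_mul, Units.val_mul,
    map_inv]
  have h3 : ((r x)⁻¹).1 * (r x).1 = 1 := by
    rw [← Units.val_mul, inv_mul_cancel, Units.val_one]
  simp only [Matrix.mul_assoc]
  rw [h3, Matrix.mul_one]

/-- The coefficients. -/
noncomputable def cf (r : FreeGroup ι →* GZ d) (b a : Fin d) (s : PJ Γ j) : ℤ :=
  (r (lf Γ j s)⁻¹).1 b a

/-- The matrix by which the word acts. -/
noncomputable def Zm (t : FreeGroup ι →* GZ d') (c : PJ Γ j → ℤ) : Matrix (Fin d') (Fin d') ℤ :=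
  ∑ s : PJ Γ j, c s • (t (lf Γ j s)).1

lemma TX_single (t : FreeGroup ι →* GZ d') (r : FreeGroup ι →* GZ d) (k l : Fin d')
    (b a : Fin d) : TX Γ j t r (Matrix.single k b 1) l a = Zm j t (cf (Γ := Γ) j r b a) l k := by
  unfold TX Zm
  rw [Matrix.sum_apply, Matrix.sum_apply]
  apply Finset.sum_congr rfl
  intro s _
  rw [Matrix.smul_apply, smul_eq_mul]
  unfold cf
  rw [Matrix.mul_assoc, Matrix.mul_apply]
  rw [Finset.sum_eq_single k]
  · rw [Matrix.single_mul_apply_same, one_mul, mul_comm]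
  · intro m _ hm
    rw [Matrix.single_mul_apply_of_ne _ _ _ _ _ hm, mul_zero]
  · intro h; exact absurd (Finset.mem_univ k) h

/-- If the word does not act trivially, there is a nonzero intertwiner. -/
lemma exists_twine {t : FreeGroup ι →* GZ d'} {r : FreeGroup ι →* GZ d} (ht : Tri Γ t)
    (hr : Tri Γ r) {b a : Fin d} (h : Zm j t (cf (Γ := Γ) j r b a) ≠ 0) :
    ∃ T : Matrix (Fin d') (Fin d) ℤ, T ≠ 0 ∧ ∀ x ∈ FJ j, (t x).1 * T = T * (r x).1 := by
  obtain ⟨l, k, hlk⟩ : ∃ l k, Zm j t (cf (Γ := Γ) j r b a) l k ≠ 0 := by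
    by_contra hcon
    push Not at hcon
    exact h (Matrix.ext hcon)
  refine ⟨TX Γ j t r (Matrix.single k b 1), fun h0 => hlk ?_, fun x hx => TX_twine j ht hr _ hx⟩
  rw [← TX_single, h0]; rfl

/-- Schur orthogonality. -/
lemma Zm_self {r : FreeGroup ι →* GZ d} (hr : Tri Γ r) (hs : Spn r) (hj : r (of j) = 1) :
    ∃ n : ℤ, n ≠ 0 ∧ ∀ a b : Fin d, Zm j r (cf (Γ := Γ) j r b a) = n • Matrix.single a b 1 := by
  rcases Nat.eq_zero_or_pos d with hd | hd
  · subst hd
    exact ⟨1, one_ne_zero, fun a => a.elim0⟩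
  have h1 : ∀ X : Matrix (Fin d) (Fin d) ℤ, ∃ c : ℤ, TX Γ j r r X = c • 1 := by
    intro X
    apply hs.scalar
    intro x
    rw [← r_kl hj x]
    exact TX_twine j hr hr X (kl_mem j x)
  choose c hc using h1
  have htr : ∀ X : Matrix (Fin d) (Fin d) ℤ, (TX Γ j r r X).trace =
      (Fintype.card (PJ Γ j) : ℤ) * X.trace := by
    intro X
    unfold TX
    rw [Matrix.trace_sum]
    have : ∀ s : PJ Γ j, ((r (lf Γ j s)).1 * X * (r (lf Γ j s)⁻¹).1).trace = X.trace := by
      intro s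
      rw [Matrix.trace_mul_comm, ← Matrix.mul_assoc, ← Units.val_mul, ← map_mul, inv_mul_cancel,
        map_one, Units.val_one, Matrix.one_mul]
    rw [Finset.sum_congr rfl (fun s _ => this s), Finset.sum_const, Finset.card_univ, nsmul_eq_mul]
  have htr2 : ∀ X : Matrix (Fin d) (Fin d) ℤ, c X * d = (Fintype.card (PJ Γ j) : ℤ) * X.trace := by
    intro X
    rw [← htr X, hc X, Matrix.trace_smul, Matrix.trace_one, Fintype.card_fin, smul_eq_mul]
  have hcard : (Fintype.card (PJ Γ j) : ℤ) ≠ 0 := by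
    have : 0 < Fintype.card (PJ Γ j) := Fintype.card_pos
    omega
  have hd0 : (d : ℤ) ≠ 0 := by omega
  let a0 : Fin d := ⟨0, hd⟩
  have hone : ∀ b : Fin d, c (Matrix.single b b 1) = c (Matrix.single a0 a0 1) := by
    intro b
    have e1 := htr2 (Matrix.single b b 1)
    have e2 := htr2 (Matrix.single a0 a0 1)
    rw [Matrix.trace_single_eq_same] at e1 e2
    exact mul_right_cancel₀ hd0 (e1.trans e2.symm)
  have hzero : ∀ k b : Fin d, k ≠ b → c (Matrix.single k b 1) = 0 := by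
    intro k b hkb
    have e1 := htr2 (Matrix.single k b 1)
    rw [Matrix.trace_single_eq_of_ne _ _ _ hkb, mul_zero] at e1
    rcases mul_eq_zero.1 e1 with h | h
    · exact h
    · exact absurd h hd0
  refine ⟨c (Matrix.single a0 a0 1), ?_, ?_⟩
  · intro h0
    have e2 := htr2 (Matrix.single a0 a0 1)
    rw [h0, zero_mul, Matrix.trace_single_eq_same, mul_one] at e2
    exact hcard e2.symm
  · intro a b
    ext l k
    rw [← TX_single, hc, Matrix.smul_apply, Matrix.smul_apply, Matrix.one_apply,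
      Matrix.single_apply]
    by_cases hkb : k = b
    · subst hkb
      rw [hone]
      by_cases hla : l = a
      · subst hla; simp
      · rw [if_neg hla, if_neg (fun h => hla h.1.symm)]
    · rw [hzero k b hkb, zero_smul, if_neg (fun h => hkb h.2.symm), smul_zero]

/-- The word. -/
noncomputable def wd (c : PJ Γ j → ℤ) (u : FreeGroup ι) : FreeGroup ι :=
  ((Finset.univ : Finset (PJ Γ j)).toList.map
    (fun s => (lf Γ j s * u * (lf Γ j s)⁻¹) ^ c s)).prod

lemma wd_G (c : PJ Γ j → ℤ) {u : FreeGroup ι} (hu : u ∈ Γ) : wd j c u ∈ Γ := by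
  apply Subgroup.list_prod_mem
  intro x hx
  rw [List.mem_map] at hx
  obtain ⟨s, -, rfl⟩ := hx
  exact zpow_mem ((inferInstance : Γ.Normal).conj_mem _ hu _) _

lemma wd_FJ (c : PJ Γ j → ℤ) {u : FreeGroup ι} (hu : u ∈ FJ j) : wd j c u ∈ FJ j := by
  apply Subgroup.list_prod_mem
  intro x hx
  rw [List.mem_map] at hx
  obtain ⟨s, -, rfl⟩ := hx
  exact zpow_mem (mul_mem (mul_mem (lf_mem Γ j s) hu) (inv_mem (lf_mem Γ j s))) _

lemma D_list {t : FreeGroup ι →* GZ d} (v : ι → Ev d) {α : Type} (l : List α)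
    (f : α → FreeGroup ι) (hf : ∀ s, t (f s) = 1) :
    D t v (l.map f).prod = (l.map (fun s => D t v (f s))).sum := by
  induction l with
  | nil => simp [D_one]
  | cons a l ih => rw [List.map_cons, List.prod_cons, D_mul_of v (hf a), ih, List.map_cons,
      List.sum_cons]

lemma D_wd {t : FreeGroup ι →* GZ d} (ht : Tri Γ t) (c : PJ Γ j → ℤ) {u : FreeGroup ι}
    (hu : u ∈ Γ) (v : ι → Ev d) : D t v (wd j c u) = Zm j t c *ᵥ D t v u := by
  have hu1 := ht u hu
  have hc1 : ∀ s : PJ Γ j, t (lf Γ j s * u * (lf Γ j s)⁻¹) = 1 := by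
    intro s
    rw [map_mul, map_mul, hu1, mul_one, ← map_mul, mul_inv_cancel, map_one]
  unfold wd
  rw [D_list v _ _ (fun s => by rw [map_zpow, hc1, _root_.one_zpow])]
  unfold Zm
  rw [Matrix.sum_mulVec, ← Finset.sum_map_toList]
  congr 1
  apply List.map_congr_left
  intro s _
  rw [D_zpow v (hc1 s), D_conj v _ hu1, smul_mulVec]

end fin

end Pool.Agent.V5helper38.RH
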